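import Pool.Agent.Lib.MP_e95c01_co.N.Defs37
import Pool.Agent.Lib.MP_e95c01_co.Basic

/-!
# M12: from graphs to `CG`
-/

namespace Pool.Agent.Lib.MP_e95c01_co.N

open Finset

namespace Transfer53

/-- A set closed up to `T` is separated by `T`. -/
theorem sep {V : Type} {G : SimpleGraph V} (hG : KConn 6 G) (S T : Set V)
    (hS : S.Nonempty) (hd : Disjoint S T)
    (hN : ∀ a ∈ S, ∀ v, G.Adj a v → v ∈ S ∨ v ∈ T) (hc : ∃ v, v ∉ S ∧ v ∉ T) :
    6 ≤ T.ncard := by
  by_contra hlt
  have hcon := (hG.2 T (by omega)).preconnected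
  obtain ⟨a, ha⟩ := hS
  obtain ⟨v, hv1, hv2⟩ := hc
  have haT : a ∈ Tᶜ := fun h => (Set.disjoint_left.1 hd) ha h
  obtain ⟨p⟩ := hcon ⟨a, haT⟩ ⟨v, hv2⟩
  have key : ∀ (u v : ↥(Tᶜ)) (_ : (G.induce Tᶜ).Walk u v), u.1 ∈ S → v.1 ∈ S := by
    intro u v q
    induction q with
    | nil => exact id
    | @cons u w v hadj q ih =>
      intro hu
      apply ih
      have hadj' : G.Adj u.1 w.1 := hadj
      rcases hN _ hu _ hadj' with h2 | h2
      · exact h2
      · exact absurd h2 w.2
  exact hv1 (key _ _ p ha)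

section

variable {V : Type} [Fintype V] [DecidableEq V]

open Classical in
/-- The neighbour sets of a graph. -/
noncomputable def nbs (G : SimpleGraph V) (v : V) : Finset V := univ.filter fun x => G.Adj v x

omit [DecidableEq V] in
theorem mem_nbs {G : SimpleGraph V} {v x : V} : x ∈ nbs G v ↔ G.Adj v x := by
  simp [nbs]

omit [DecidableEq V] in
theorem card_nbs (G : SimpleGraph V) (v : V) : (nbs G v).card = (G.neighborSet v).ncard := by
  rw [← Set.ncard_coe_finset]
  congr 1
  ext x
  simp [nbs]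

/-- A 6-connected graph as a `CG`. -/
noncomputable def cg (G : SimpleGraph V) (hG : KConn 6 G) : CG V where
  nb := nbs G
  irr v := by rw [mem_nbs]; exact G.loopless.irrefl v
  sym u v h := by rw [mem_nbs] at h ⊢; exact h.symm
  deg v := by
    have hcard := hG.1
    by_cases h : ∃ x, x ∉ ({v} : Set V) ∧ x ∉ G.neighborSet v
    · rw [card_nbs]
      refine sep hG {v} (G.neighborSet v) ⟨v, rfl⟩ ?_ ?_ h
      · rw [Set.disjoint_singleton_left]
        simp
      · rintro a rfl x hx
        exact Or.inr hx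
    · push Not at h
      have h1 : (univ : Finset V) ⊆ insert v (nbs G v) := by
        intro x _
        rw [mem_insert, mem_nbs]
        by_cases hx : x = v
        · exact Or.inl hx
        · exact Or.inr (h x hx)
      have h2 := (card_le_card h1).trans (card_insert_le _ _)
      rw [card_univ, ← Nat.card_eq_fintype_card] at h2
      omega
  conn S T hS hd hN hc := by
    have h1 := sep hG (S : Set V) (T : Set V) hS (by exact_mod_cast hd) (by
      intro a ha x hx
      have h2 := hN a ha (mem_nbs.2 hx)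
      rw [mem_union] at h2
      exact_mod_cast h2) (by
      obtain ⟨v, hv⟩ := hc
      rw [mem_union, not_or] at hv
      exact ⟨v, by exact_mod_cast hv.1, by exact_mod_cast hv.2⟩)
    rwa [Set.ncard_coe_finset] at h1

theorem cg_nb (G : SimpleGraph V) (hG : KConn 6 G) (v x : V) :
    x ∈ (cg G hG).nb v ↔ G.Adj v x := mem_nbs

theorem l_univ (G : SimpleGraph V) (hG : KConn 6 G) : (cg G hG).l univ = numDeg 6 G := by
  rw [numDeg, CG.l, ← Set.ncard_coe_finset]
  congr 1
  ext v
  have h : ((cg G hG).nb v).card = (G.neighborSet v).ncard := card_nbs G v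
  simp [CG.Low, h]

theorem mem_N (C : CG V) {S : Finset V} {x : V} : x ∈ C.N S ↔ (∃ u ∈ S, x ∈ C.nb u) ∧ x ∉ S := by
  simp [CG.N]

/-- A set of at most six vertices containing `x` and `y` whose removal disconnects the graph gives
a fragment. -/
theorem frag_of (C : CG V) (T E : Finset V) (hT : T.card ≤ 6) (hE : E.Nonempty)
    (hN : ∀ u ∈ E, C.nb u ⊆ E ∪ T) (hc : ∃ v, v ∉ E ∪ T) :
    C.Frag E ∧ C.N E = T := by
  have hsub : C.N E ⊆ T := by
    intro x hx
    obtain ⟨⟨u, hu, hxu⟩, hn⟩ := (mem_N C).1 hx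
    have := hN u hu hxu
    rw [mem_union] at this
    exact this.resolve_left hn
  obtain ⟨v, hv⟩ := hc
  have hv' : v ∉ E ∪ C.N E := by
    intro h
    rw [mem_union] at h
    exact hv (mem_union.2 (h.imp id fun h => hsub h))
  have h6 : 6 ≤ (C.N E).card := by
    refine C.conn E (C.N E) hE ?_ ?_ ⟨v, hv'⟩
    · rw [disjoint_left]
      intro x h1 h2
      exact ((mem_N C).1 h2).2 h1
    · intro u hu x hx
      rw [mem_union]
      by_cases h : x ∈ E
      · exact Or.inl h
      · exact Or.inr ((mem_N C).2 ⟨⟨u, hu, hx⟩, h⟩)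
  have heq : C.N E = T := eq_of_subset_of_card_le hsub (by omega)
  refine ⟨⟨hE, ?_, ⟨v, ?_⟩⟩, heq⟩
  · have := card_le_card hsub
    omega
  · rw [CG.Co, mem_compl]
    exact hv'

theorem crit (G : SimpleGraph V) (hG : Critical 6 G) (hn : 8 ≤ Nat.card V) :
    (cg G hG.1).Crit := by
  classical
  intro x y hxy
  have hadj : G.Adj x y := (cg_nb G hG.1 x y).1 hxy
  have hnc := hG.2 x y hadj
  have hcardV : Nat.card {v : V // v ≠ y} + 1 = Nat.card V := by
    have h1 : Fintype.card {v : V // v ≠ y} = Fintype.card V - 1 := by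
      have := Fintype.card_subtype_compl (fun v : V => v = y)
      simpa using this
    rw [Nat.card_eq_fintype_card, Nat.card_eq_fintype_card, h1]
    rw [Nat.card_eq_fintype_card] at hn
    omega
  -- a small set disconnecting the contraction
  obtain ⟨S, hS, hSc⟩ : ∃ S : Set {v : V // v ≠ y}, S.ncard < 6 ∧
      ¬ ((contract G x y).induce Sᶜ).Connected := by
    by_contra hcon
    push Not at hcon
    exact hnc ⟨by omega, fun S hS => hcon S hS⟩
  -- a vertex outside
  have hne : Nonempty ↥(Sᶜ) := by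
    by_contra hemp
    rw [not_nonempty_iff] at hemp
    have h1 : (Set.univ : Set {v : V // v ≠ y}) ⊆ S := by
      intro v _
      by_contra hv
      exact hemp.false ⟨v, hv⟩
    have h2 := Set.ncard_le_ncard h1 (Set.toFinite _)
    rw [Set.ncard_univ] at h2
    omega
  have hpre : ¬ ((contract G x y).induce Sᶜ).Preconnected := fun h => hSc ⟨h⟩
  have hxne : x ≠ y := hadj.ne
  -- `x` is in `S`
  have hxS : (⟨x, hxne⟩ : {v : V // v ≠ y}) ∈ S := by
    by_contra hxS
    apply hpre
    let T : Set V := Subtype.val '' S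
    have hT : T.ncard < 6 := by
      rw [Set.ncard_image_of_injective _ Subtype.val_injective]; exact hS
    have hcon := (hG.1.2 T hT).preconnected
    -- the projection
    let pr : V → {v : V // v ≠ y} := fun v => if h : v = y then ⟨x, hxne⟩ else ⟨v, h⟩
    have hprS : ∀ v ∉ T, pr v ∉ S := by
      intro v hv
      by_cases h : v = y
      · simp only [pr, dif_pos h]; exact hxS
      · simp only [pr, dif_neg h]
        exact fun h2 => hv ⟨_, h2, rfl⟩
    have hstep : ∀ (a b : ↥(Tᶜ)), (G.induce Tᶜ).Walk a b →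
        ((contract G x y).induce Sᶜ).Reachable ⟨pr a, hprS a a.2⟩ ⟨pr b, hprS b b.2⟩ := by
      intro a b p
      induction p with
      | nil => exact SimpleGraph.Reachable.refl _
      | @cons u w v hadj q ih =>
        refine SimpleGraph.Reachable.trans ?_ ih
        have hadj' : G.Adj u.1 w.1 := hadj
        by_cases he : pr u = pr w
        · have : (⟨pr u, hprS u u.2⟩ : ↥(Sᶜ)) = ⟨pr w, hprS w w.2⟩ := Subtype.ext he
          rw [this]
        · apply SimpleGraph.Adj.reachable
          show (contract G x y).Adj (pr u) (pr w)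
          refine ⟨he, ?_⟩
          by_cases hu : u.1 = y
          · by_cases hw : w.1 = y
            · exact absurd (hu.trans hw.symm) hadj'.ne
            · right; left
              simp only [pr, dif_pos hu, dif_neg hw, true_and]
              rw [← hu]; exact hadj'
          · by_cases hw : w.1 = y
            · right; right
              simp only [pr, dif_neg hu, dif_pos hw, true_and]
              rw [← hw]; exact hadj'.symm
            · left
              simp only [pr, dif_neg hu, dif_neg hw]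
              exact hadj'
    intro a b
    have haT : a.1.1 ∈ Tᶜ := by
      rintro ⟨c, hc, hc2⟩
      exact a.2 (by rw [Subtype.val_injective hc2] at hc; exact hc)
    have hbT : b.1.1 ∈ Tᶜ := by
      rintro ⟨c, hc, hc2⟩
      exact b.2 (by rw [Subtype.val_injective hc2] at hc; exact hc)
    obtain ⟨p⟩ := hcon ⟨a.1.1, haT⟩ ⟨b.1.1, hbT⟩
    have h := hstep _ _ p
    have e1 : pr a.1.1 = a.1 := by simp [pr, a.1.2]
    have e2 : pr b.1.1 = b.1 := by simp [pr, b.1.2]
    have e3 : (⟨pr a.1.1, hprS _ haT⟩ : ↥(Sᶜ)) = a := Subtype.ext e1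
    have e4 : (⟨pr b.1.1, hprS _ hbT⟩ : ↥(Sᶜ)) = b := Subtype.ext e2
    rw [e3, e4] at h
    exact h
  -- the cut in `G`
  rw [SimpleGraph.Preconnected] at hpre
  push Not at hpre
  obtain ⟨a, b, hab⟩ := hpre
  let T : Finset V := insert y (univ.filter fun v => ∃ h : v ≠ y, (⟨v, h⟩ : {v : V // v ≠ y}) ∈ S)
  have hTmem : ∀ v : V, v ∈ T ↔ v = y ∨ ∃ h : v ≠ y, (⟨v, h⟩ : {v : V // v ≠ y}) ∈ S := by
    intro v; simp [T]
  have hTcard : T.card ≤ 6 := by
    have h1 : (univ.filter fun v : V => ∃ h : v ≠ y, (⟨v, h⟩ : {v : V // v ≠ y}) ∈ S).card ≤ 5 := by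
      have h2 : ((univ.filter fun v : V => ∃ h : v ≠ y,
          (⟨v, h⟩ : {v : V // v ≠ y}) ∈ S : Finset V) : Set V) = Subtype.val '' S := by
        ext v
        simp
      rw [← Set.ncard_coe_finset, h2, Set.ncard_image_of_injective _ Subtype.val_injective]
      omega
    exact (card_insert_le _ _).trans (by omega)
  let E : Finset V := univ.filter fun v => ∃ (h : v ≠ y) (h2 : (⟨v, h⟩ : {v : V // v ≠ y}) ∈ Sᶜ),
    ((contract G x y).induce Sᶜ).Reachable a ⟨⟨v, h⟩, h2⟩
  have hEmem : ∀ v : V, v ∈ E ↔ ∃ (h : v ≠ y) (h2 : (⟨v, h⟩ : {v : V // v ≠ y}) ∈ Sᶜ),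
      ((contract G x y).induce Sᶜ).Reachable a ⟨⟨v, h⟩, h2⟩ := by
    intro v; simp [E]
  obtain ⟨hf, hNE⟩ := frag_of (cg G hG.1) T E hTcard ⟨a.1.1, (hEmem _).2
      ⟨a.1.2, a.2, SimpleGraph.Reachable.refl _⟩⟩ (by
    intro u hu v hv
    rw [cg_nb] at hv
    obtain ⟨h, h2, h3⟩ := (hEmem u).1 hu
    rw [mem_union]
    by_cases hvT : v ∈ T
    · exact Or.inr hvT
    · left
      rw [hTmem] at hvT
      push Not at hvT
      obtain ⟨hvy, hvS⟩ := hvT
      refine (hEmem v).2 ⟨hvy, hvS hvy, h3.trans (SimpleGraph.Adj.reachable ?_)⟩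
      show (contract G x y).Adj ⟨u, h⟩ ⟨v, hvy⟩
      exact ⟨fun e => hv.ne (congrArg Subtype.val e), Or.inl hv⟩) ⟨b.1.1, by
    rw [mem_union, not_or]
    constructor
    · intro hb
      obtain ⟨h, h2, h3⟩ := (hEmem _).1 hb
      exact hab h3
    · intro hb
      rcases (hTmem _).1 hb with h | ⟨h, h2⟩
      · exact b.1.2 h
      · exact b.2 h2⟩
  refine ⟨E, hf, ?_, ?_⟩
  · rw [hNE, hTmem]
    exact Or.inr ⟨hxne, hxS⟩
  · rw [hNE, hTmem]
    exact Or.inl rfl

end

/-- `G` has no fragment of two vertices. -/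
def NoTwoFrag {V : Type} (G : SimpleGraph V) : Prop :=
  ∀ a b : V, a ≠ b → {v : V | v ≠ a ∧ v ≠ b ∧ (G.Adj a v ∨ G.Adj b v)}.ncard = 6 →
    ∀ v, v = a ∨ v = b ∨ G.Adj a v ∨ G.Adj b v

theorem noTwo {V : Type} [Fintype V] [DecidableEq V] (G : SimpleGraph V) (hG : KConn 6 G)
    (h : NoTwoFrag G) : (cg G hG).NoTwo := by
  intro E hE h2
  obtain ⟨a, b, hab, rfl⟩ := card_eq_two.1 h2
  have h3 : ((cg G hG).N {a, b} : Set V) =
      {v : V | v ≠ a ∧ v ≠ b ∧ (G.Adj a v ∨ G.Adj b v)} := by
    ext v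
    simp only [mem_coe, mem_N, mem_insert, mem_singleton, exists_eq_or_imp, exists_eq_left,
      cg_nb, Set.mem_ofPred_eq]
    tauto
  have h4 := hE.2.1
  rw [← Set.ncard_coe_finset, h3] at h4
  obtain ⟨v, hv⟩ := hE.2.2
  rw [CG.Co, mem_compl, mem_union, not_or] at hv
  have h5 := h a b hab h4 v
  rcases h5 with h5 | h5 | h5
  · exact hv.1 (by simp [h5])
  · exact hv.1 (by simp [h5])
  · apply hv.2
    rw [mem_N]
    refine ⟨?_, hv.1⟩
    rcases h5 with h5 | h5
    · exact ⟨a, by simp, (cg_nb G hG _ _).2 h5⟩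
    · exact ⟨b, by simp, (cg_nb G hG _ _).2 h5⟩

/-- Six-connected graphs with seven vertices are complete. -/
theorem seven {V : Type} [Finite V] (G : SimpleGraph V) (hG : KConn 6 G)
    (hn : Nat.card V ≤ 7) : numDeg 6 G = Nat.card V := by
  classical
  have := Fintype.ofFinite V
  have h7 : Nat.card V = 7 := by have := hG.1; omega
  have h1 : ∀ v : V, (G.neighborSet v).ncard = 6 := by
    intro v
    have h2 : 6 ≤ (G.neighborSet v).ncard := by
      rw [← card_nbs]; exact (cg G hG).deg v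
    have h3 : (insert v (G.neighborSet v)).ncard ≤ (Set.univ : Set V).ncard :=
      Set.ncard_le_ncard (Set.subset_univ _) (Set.toFinite _)
    rw [Set.ncard_insert_of_notMem (by simp) (Set.toFinite _), Set.ncard_univ] at h3
    omega
  rw [numDeg]
  have h2 : {v : V | (G.neighborSet v).ncard = 6} = Set.univ := by
    ext v; simp [h1 v]
  rw [h2, Set.ncard_univ]

/-- The transfer. -/
theorem transfer (hN2 : ∀ (V : Type) [Fintype V] [DecidableEq V] (C : CG V), C.StN2)
    {V : Type} [Finite V] (G : SimpleGraph V) (hG : Critical 6 G) (h2 : NoTwoFrag G) :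
    Nat.card V ≤ 3 * numDeg 6 G := by
  classical
  have := Fintype.ofFinite V
  by_cases hn : Nat.card V ≤ 7
  · rw [seven G hG.1 hn]; omega
  · have h3 := hN2 V (cg G hG.1) (crit G hG (by omega)) (noTwo G hG.1 h2)
    rw [l_univ, ← Nat.card_eq_fintype_card] at h3
    exact h3

end Transfer53

end Pool.Agent.Lib.MP_e95c01_co.N
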