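import Pool.Agent.Lib.MP_e95c01_co.N.Main37

/-!
# M1 and M7: basic facts on fragments; discharging with expansion
-/

namespace Pool.Agent.Lib.MP_e95c01_co.N

open Finset

variable {V : Type} [Fintype V] [DecidableEq V]

namespace CG

theorem stN6_37 (G : CG V) : G.StN6 := by
  intro S hS hC
  refine G.conn S (G.N S) hS ?_ ?_ ?_
  · rw [disjoint_right]
    intro v hv
    exact (mem_N37.1 hv).1
  · intro u hu v hv
    rw [mem_union]
    by_cases h : v ∈ S
    · exact Or.inl h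
    · exact Or.inr (mem_N37.2 ⟨h, u, hu, hv⟩)
  · obtain ⟨v, hv⟩ := hC
    rw [mem_Co37] at hv
    exact ⟨v, fun h => by
      rcases mem_union.1 h with h | h
      · exact hv.1 h
      · exact hv.2 h⟩

theorem stSubmod_37 (G : CG V) : G.StSubmod := by
  intro A B
  have h1 : G.N (A ∩ B) ∪ G.N (A ∪ B) ⊆ G.N A ∪ G.N B := by
    intro v hv
    rw [mem_union, mem_N37, mem_N37] at hv ⊢
    rcases hv with hv | hv
    · obtain ⟨h1, u, hu, hvu⟩ := hv
      rw [mem_inter] at hu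
      by_cases hA : v ∈ A
      · right
        refine ⟨fun hB => h1 (mem_inter.2 ⟨hA, hB⟩), u, hu.2, hvu⟩
      · exact Or.inl ⟨hA, u, hu.1, hvu⟩
    · obtain ⟨h1, u, hu, hvu⟩ := hv
      rw [mem_union, not_or] at h1
      rcases mem_union.1 hu with hu | hu
      · exact Or.inl ⟨h1.1, u, hu, hvu⟩
      · exact Or.inr ⟨h1.2, u, hu, hvu⟩
  have h2 : G.N (A ∩ B) ∩ G.N (A ∪ B) ⊆ G.N A ∩ G.N B := by
    intro v hv
    rw [mem_inter] at hv ⊢
    obtain ⟨h1, u, hu, hvu⟩ := mem_N37.1 hv.1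
    have h3 := (mem_N37.1 hv.2).1
    rw [mem_union, not_or] at h3
    rw [mem_inter] at hu
    exact ⟨mem_N37.2 ⟨h3.1, u, hu.1, hvu⟩, mem_N37.2 ⟨h3.2, u, hu.2, hvu⟩⟩
  have h3 := card_union_add_card_inter (G.N (A ∩ B)) (G.N (A ∪ B))
  have h4 := card_union_add_card_inter (G.N A) (G.N B)
  have h5 := card_le_card h1
  have h6 := card_le_card h2
  omega

theorem stCo_37 (G : CG V) : G.StCo := by
  intro F hF
  have h1 : G.N (G.Co F) ⊆ G.N F := by
    intro v hv
    obtain ⟨h1, u, hu, hvu⟩ := mem_N37.1 hv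
    have hvF : v ∉ F := fun h => (mem_Co37'.1 hu).2 v h (G.sym _ _ hvu)
    by_contra h
    exact h1 (mem_Co37.2 ⟨hvF, h⟩)
  have h2 : F ⊆ G.Co (G.Co F) := by
    intro v hv
    rw [mem_Co37]
    exact ⟨fun h => (mem_Co37.1 h).1 hv, fun h => (mem_N37.1 (h1 h)).1 hv⟩
  have h3 : 6 ≤ (G.N (G.Co F)).card := G.stN6_37 _ hF.2.2 (hF.1.mono h2)
  have h4 : G.N (G.Co F) = G.N F := eq_of_subset_of_card_le h1 (by rw [hF.2.1]; exact h3)
  refine ⟨⟨hF.2.2, by rw [h4]; exact hF.2.1, hF.1.mono h2⟩, h4, ?_⟩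
  apply Subset.antisymm _ h2
  intro v hv
  rw [mem_Co37, h4] at hv
  by_contra h
  exact hv.1 (mem_Co37.2 ⟨h, hv.2⟩)

theorem stUnion_37 (G : CG V) : G.StUnion := by
  intro F A B hF hA hB hAF hBF hne
  have hU : A ∪ B ⊆ F := union_subset hAF hBF
  have hI : A ∩ B ⊆ F := inter_subset_left.trans hAF
  have c1 := hF.2.2.mono (Co_anti37 (G := G) hU)
  have c2 := hF.2.2.mono (Co_anti37 (G := G) hI)
  have h1 := G.stN6_37 _ (hA.1.mono subset_union_left) c1
  have h2 := G.stN6_37 _ hne c2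
  have h3 := G.stSubmod_37 A B
  rw [hA.2.1, hB.2.1] at h3
  exact ⟨⟨hA.1.mono subset_union_left, by omega, c1⟩, ⟨hne, by omega, c2⟩⟩

theorem part37 (G : CG V) (F : Finset V) (p : V → Prop) [DecidablePred p] :
    ((univ : Finset V).filter p).card =
      (F.filter p).card + ((G.N F).filter p).card + ((G.Co F).filter p).card := by
  have h1 : (univ : Finset V) = (F ∪ G.N F) ∪ G.Co F := by
    rw [Co, union_compl]
  have h2 : Disjoint (F ∪ G.N F) (G.Co F) := by
    rw [Co]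
    exact disjoint_compl_right
  have h3 : Disjoint F (G.N F) := by
    rw [disjoint_right]
    intro v hv
    exact (mem_N37.1 hv).1
  rw [h1, filter_union, card_union_of_disjoint (disjoint_filter_filter h2), filter_union,
    card_union_of_disjoint (disjoint_filter_filter h3)]

theorem stPsum_37 (G : CG V) : G.StPsum := by
  intro F hF
  obtain ⟨h1, h2, h3⟩ := G.stCo_37 F hF
  rw [P, P, h2, h3]
  have h4 := G.part37 F (fun v => G.Low v)
  have h5 := G.part37 F (fun _ => True)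
  simp only [filter_true, card_univ] at h5
  have h6 : ∑ w ∈ (G.N F).filter (fun v => G.Low v), (3 + (G.d w F : ℤ) - (G.d w (G.Co F) : ℤ)) +
      ∑ w ∈ (G.N F).filter (fun v => G.Low v), (3 + (G.d w (G.Co F) : ℤ) - (G.d w F : ℤ)) =
      6 * (((G.N F).filter fun v => G.Low v).card : ℤ) := by
    rw [← sum_add_distrib, sum_congr rfl (g := fun _ => (6 : ℤ)) (fun w _ => by ring)]
    rw [sum_const, nsmul_eq_mul, mul_comm]
  have h7 : (G.N F).card = 6 := hF.2.1
  simp only [l]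
  rw [h4]
  push_cast
  omega

theorem stDisch_37 (G : CG V) (hp : G.StPay) : G.StDisch := by
  classical
  intro Fa hreg hcov hexp
  obtain ⟨h1, h2, h3, h4⟩ := hp Fa hreg hcov
  rw [h1]
  apply sum_nonneg
  intro z hz
  by_cases hl : G.Low z
  swap
  · exact (h2 z hz hl).2
  refine h3 z hz hl ?_
  intro B hI
  have hBF : B ∈ Fa := by
    have : B ∈ G.I Fa z := by rw [hI]; exact mem_singleton_self _
    exact (mem_filter.1 this).1
  have hzQ : z ∉ G.Q Fa z := by
    intro h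
    rw [Q, mem_filter, nR, mem_inter] at h
    exact G.irr z h.1.1
  have hK : insert z (G.Q Fa z) ⊆ G.K Fa B := by
    intro x hx
    rw [K, mem_filter]
    rcases mem_insert.1 hx with rfl | hx
    · exact ⟨hz, hI⟩
    · refine ⟨?_, (h4 z hz B hI hl x hx).1⟩
      rw [Q, mem_filter, nR, mem_inter] at hx
      exact hx.1.2
  have h5 := hexp B hBF _ (insert_nonempty _ _) hK
  rw [card_insert_of_notMem hzQ] at h5
  have h6 : G.N (insert z (G.Q Fa z)) ∩ G.Co B ⊆ G.nb z ∩ G.Co B := by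
    intro v hv
    rw [mem_inter] at hv
    obtain ⟨-, u, hu, hvu⟩ := mem_N37.1 hv.1
    rcases mem_insert.1 hu with rfl | hu
    · exact mem_inter.2 ⟨hvu, hv.2⟩
    · exact (h4 z hz B hI hl u hu).2 (mem_inter.2 ⟨hvu, hv.2⟩)
  have h7 := card_le_card h6
  have h8 : G.d z (G.Co B) = (G.nb z ∩ G.Co B).card := rfl
  omega

end CG

end Pool.Agent.Lib.MP_e95c01_co.N
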