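import Pool.Agent.Lib.MP_e95c01_co.N.Ident76

/-!
# M5: the charges
-/

namespace Pool.Agent.Lib.MP_e95c01_co.N

open Finset

variable {V : Type} [Fintype V] [DecidableEq V]

namespace CG

variable {G : CG V} {Fa : Finset (Finset V)}

theorem mem_nR37 {z x : V} (hz : z ∈ R Fa) (hx : x ∈ G.nb z) (h : ∀ B ∈ G.I Fa z, x ∉ B) :
    x ∈ G.nR Fa z := by
  rw [nR, mem_inter]
  refine ⟨hx, mem_R76.2 ?_⟩
  intro B hB hxB
  refine h B (mem_I76.2 ⟨hB, mem_N76.2 ⟨mem_R76.1 hz B hB, x, hxB, G.sym _ _ hx⟩⟩) hxB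

theorem d_pos37 {z : V} {B : Finset V} (h : z ∈ G.N B) : 1 ≤ G.d z B := by
  obtain ⟨-, u, hu, hzu⟩ := mem_N76.1 h
  rw [d, Nat.one_le_iff_ne_zero, ← Nat.pos_iff_ne_zero, card_pos]
  exact ⟨u, mem_inter.2 ⟨G.sym _ _ hzu, hu⟩⟩

theorem stCharge_37 (G : CG V) (hco : G.StCo) : G.StCharge := by
  classical
  intro Fa hreg hcov z hz
  have hmle : ∀ x, G.m Fa x z ≤ (G.I Fa z).card := fun x => card_le_card inter_subset_right
  have hlow : G.Low z → ((G.nR Fa z).card : ℤ) + ∑ B ∈ G.I Fa z, (G.d z B : ℤ) = 6 := by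
    intro h
    rw [nb_split76 hreg hz]
    exact_mod_cast h
  refine ⟨?_, ?_, ?_⟩
  · intro hI
    have hg : ∀ x, G.m Fa x z = 0 := by
      intro x
      have := hmle x
      rw [hI, card_empty] at this
      omega
    constructor
    · rw [ch, hI, card_empty]
      have h2 : ∑ x ∈ (G.nR Fa z).filter (fun v => G.Low v), g (G.m Fa x z) =
          (G.s Fa z : ℤ) := by
        rw [sum_congr rfl (g := fun _ => (1 : ℤ)) (fun x _ => by rw [hg x]; rfl), sum_const,
          nsmul_eq_mul, mul_one, s]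
      rw [h2]
      split_ifs with hl
      · have h3 : ∑ x ∈ G.nR Fa z, (2 - (G.m Fa x z : ℤ) - g (G.m Fa x z)) =
            ((G.nR Fa z).card : ℤ) := by
          rw [sum_congr rfl (g := fun _ => (1 : ℤ))
            (fun x _ => by rw [hg x]; simp [g]), sum_const, nsmul_eq_mul, mul_one]
        have h4 := hlow hl
        rw [hI, sum_empty] at h4
        rw [h3]
        push_cast
        linarith
      · push_cast
        ring
    · have hne : (G.nb z).Nonempty := by
        rw [← card_pos]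
        have := G.deg z
        omega
      obtain ⟨x, hx⟩ := hne
      obtain ⟨w, hw1, hw2, -⟩ := hcov.c0 z hz hI x hx
      have hwz : w ∈ G.nb z := G.sym _ _ hw2
      obtain ⟨w', hv1, hv2, hv3⟩ := hcov.c0 z hz hI w hwz
      have hwz' : w' ∈ G.nb z := G.sym _ _ hv2
      have hne : w ≠ w' := by
        rintro rfl
        exact G.irr _ hv3
      have hsub : ({w, w'} : Finset V) ⊆ (G.nR Fa z).filter fun v => G.Low v := by
        intro y hy
        rw [mem_insert, mem_singleton] at hy
        rcases hy with rfl | rfl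
        · exact mem_filter.2 ⟨mem_nR37 hz hwz (by simp [hI]), hw1⟩
        · exact mem_filter.2 ⟨mem_nR37 hz hwz' (by simp [hI]), hv1⟩
      have h5 := card_le_card hsub
      rw [card_pair hne] at h5
      exact h5
  · intro B hI
    have hBI : B ∈ G.I Fa z := by rw [hI]; exact mem_singleton_self _
    have hB := mem_I76.1 hBI
    have hg : ∀ x, g (G.m Fa x z) = 1 := by
      intro x
      have := hmle x
      rw [hI, card_singleton] at this
      rw [g, if_pos this]
    have hd1 : 1 ≤ G.d z (G.Co B) := by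
      apply d_pos37
      rw [(hco B (hreg.frag B hB.1)).2.1]
      exact hB.2
    have hs : ∑ x ∈ (G.nR Fa z).filter (fun v => G.Low v), g (G.m Fa x z) =
        (G.s Fa z : ℤ) := by
      rw [sum_congr rfl (g := fun _ => (1 : ℤ)) (fun x _ => hg x), sum_const, nsmul_eq_mul,
        mul_one, s]
    refine ⟨?_, hd1, ?_, ?_⟩
    · have hne : (G.nb z ∩ G.Co B).Nonempty := by
        rw [← card_pos]
        exact hd1
      obtain ⟨x, hx⟩ := hne
      obtain ⟨w, hw1, hw2, hw3⟩ := hcov.c1 z hz B hI x hx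
      have hwz : w ∈ G.nb z := G.sym _ _ hw2
      rw [s, Nat.one_le_iff_ne_zero, ← Nat.pos_iff_ne_zero, card_pos]
      refine ⟨w, mem_filter.2 ⟨mem_nR37 hz hwz ?_, hw1⟩⟩
      intro A hA
      rw [hI, mem_singleton] at hA
      rw [hA]
      intro hwB
      have hx2 := mem_Co76.1 (mem_inter.1 hx).2
      exact hx2.2 (mem_N76.2 ⟨hx2.1, w, hwB, hw3⟩)
    · intro hl
      rw [ch, hs, if_neg hl, if_neg hl, hI, card_singleton]
      push_cast
      ring
    · intro hl
      rw [ch, hs, if_pos hl, if_pos hl, hI, card_singleton]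
      have h3 : ∑ x ∈ G.nR Fa z, (2 - (G.m Fa x z : ℤ) - g (G.m Fa x z)) =
          ((G.nR Fa z).card : ℤ) - ∑ x ∈ G.nR Fa z, (G.m Fa x z : ℤ) := by
        rw [sum_congr rfl (g := fun x => (1 : ℤ) - (G.m Fa x z : ℤ))
          (fun x _ => by rw [hg x]; ring), sum_sub_distrib, sum_const, nsmul_eq_mul, mul_one]
      rw [h3, ← sum_m76 hreg, hI, sum_singleton]
      have h4 := hlow hl
      rw [hI, sum_singleton] at h4
      have h5 := d_split76 (G := G) z B
      have h6 : (G.nb z).card = 6 := hl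
      push_cast
      have h5' : (G.d z B : ℤ) + ((G.nb z ∩ G.N B).card : ℤ) + (G.d z (G.Co B) : ℤ) = 6 := by
        rw [h6] at h5
        exact_mod_cast h5
      linarith
  · intro hk
    have hrec : ∑ x ∈ (G.nR Fa z).filter (fun v => G.Low v), g (G.m Fa x z) =
        ((((G.nR Fa z).filter fun x => G.Low x ∧ G.m Fa x z ≤ 1).card : ℕ) : ℤ) := by
      unfold g
      rw [← sum_filter, filter_filter, sum_const, nsmul_eq_mul, mul_one]
    rw [ch, hrec]
    have hk' : (2 : ℤ) ≤ ((G.I Fa z).card : ℤ) := by exact_mod_cast hk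
    split_ifs with hl
    · have h1 : ∀ x ∈ G.nR Fa z, -(((G.I Fa z).card : ℤ) - 2) ≤
          2 - (G.m Fa x z : ℤ) - g (G.m Fa x z) := by
        intro x _
        have h2 : (G.m Fa x z : ℤ) ≤ ((G.I Fa z).card : ℤ) := by exact_mod_cast hmle x
        unfold g
        split_ifs with h3
        · have : (G.m Fa x z : ℤ) ≤ 1 := by exact_mod_cast h3
          linarith
        · linarith
      have h4 := sum_le_sum h1
      rw [sum_const, nsmul_eq_mul] at h4
      have h5 : ((G.I Fa z).card : ℤ) ≤ ∑ B ∈ G.I Fa z, (G.d z B : ℤ) := by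
        have : ∑ B ∈ G.I Fa z, (1 : ℤ) ≤ ∑ B ∈ G.I Fa z, (G.d z B : ℤ) := by
          apply sum_le_sum
          intro B hB
          exact_mod_cast d_pos37 (mem_I76.1 hB).2
        rw [sum_const, nsmul_eq_mul, mul_one] at this
        exact this
      have h6 := hlow hl
      nlinarith [mul_nonneg (sub_nonneg.2 hk') (sub_nonneg.2 h5),
        mul_nonneg (sub_nonneg.2 hk') (sub_nonneg.2 hk')]
    · linarith

end CG

end Pool.Agent.Lib.MP_e95c01_co.N
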