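import Pool.Agent.Lib.MP_e95c01_co.N.Ident76

/-!
# The charges
-/

namespace Pool.Agent.Lib.MP_e95c01_co.N

open Finset

variable {V : Type} [Fintype V] [DecidableEq V]

namespace CG

variable {G : CG V} {Fa : Finset (Finset V)}

theorem mem_nR76 {z x : V} : x ∈ G.nR Fa z ↔ x ∈ G.nb z ∧ x ∈ R Fa := by
  simp [nR]

/-- a neighbour inside a member of the family -/
theorem I_of_nb76 {z x : V} {B : Finset V} (hz : z ∈ R Fa) (hB : B ∈ Fa) (hx : x ∈ G.nb z)
    (hxB : x ∈ B) : B ∈ G.I Fa z :=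
  mem_I76.2 ⟨hB, mem_N76.2 ⟨mem_R76.1 hz B hB, x, hxB, G.sym _ _ hx⟩⟩

theorem nb_Co76 {z x : V} {B : Finset V} (hz : z ∈ G.Co B) (hx : x ∈ G.nb z) : x ∉ B := by
  intro hxB
  exact (mem_Co76.1 hz).2 (mem_N76.2 ⟨(mem_Co76.1 hz).1, x, hxB, G.sym _ _ hx⟩)

/-- every vertex of `N B` has a neighbour on the other side -/
theorem d_Co_pos76 {B : Finset V} (hB : G.Frag B) {z : V} (hz : z ∈ G.N B) :
    1 ≤ G.d z (G.Co B) := by
  by_contra h0
  have h1 : G.nb z ∩ G.Co B = ∅ := by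
    rw [← Finset.card_eq_zero]
    unfold d at h0
    omega
  have h2 := G.conn (G.Co B) ((G.N B).erase z) hB.2.2 (by
    rw [Finset.disjoint_left]
    intro v hv hv'
    exact (mem_Co76.1 hv).2 (Finset.mem_of_mem_erase hv')) (by
    intro u hu v hv
    rw [mem_union, mem_erase]
    have h3 : v ∉ B := nb_Co76 hu hv
    by_cases h4 : v ∈ G.N B
    · right
      refine ⟨?_, h4⟩
      rintro rfl
      have h5 : u ∈ G.nb v ∩ G.Co B := mem_inter.2 ⟨G.sym _ _ hv, hu⟩
      rw [h1] at h5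
      exact absurd h5 (Finset.notMem_empty _)
    · left
      exact mem_Co76.2 ⟨h3, h4⟩) (by
    obtain ⟨b, hb⟩ := hB.1
    refine ⟨b, ?_⟩
    rw [mem_union, not_or]
    exact ⟨fun h3 => (mem_Co76.1 h3).1 hb,
      fun h3 => (mem_N76.1 (Finset.mem_of_mem_erase h3)).1 hb⟩)
  have h3 := hB.2.1
  rw [Finset.card_erase_of_mem hz] at h2
  omega

theorem d_pos76 {B : Finset V} {z : V} (hz : z ∈ G.N B) : 1 ≤ G.d z B := by
  obtain ⟨_, u, hu, hzu⟩ := mem_N76.1 hz
  unfold d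
  rw [Nat.succ_le_iff, Finset.card_pos]
  exact ⟨u, mem_inter.2 ⟨G.sym _ _ hzu, hu⟩⟩

/-- the covering vertex of an edge at `z` is in `R` -/
theorem low_nR76 {z w x : V} (hz : z ∈ R Fa) (hzw : z ∈ G.nb w)
    (hx : ∀ B ∈ G.I Fa z, x ∈ G.Co B) (hxw : x ∈ G.nb w) : w ∈ G.nR Fa z := by
  have h1 : w ∈ G.nb z := G.sym _ _ hzw
  rw [mem_nR76]
  refine ⟨h1, ?_⟩
  rw [mem_R76]
  intro B hB hwB
  have h2 := I_of_nb76 hz hB h1 hwB
  have h3 := mem_Co76.1 (hx B h2)
  exact h3.2 (mem_N76.2 ⟨h3.1, w, hwB, hxw⟩)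

theorem g_zero76 : g 0 = 1 := by simp [g]

theorem sum_g76 (z : V) : ∑ x ∈ (G.nR Fa z).filter (fun v => G.Low v), g (G.m Fa x z) =
    ((((G.nR Fa z).filter fun x => G.Low x ∧ G.m Fa x z ≤ 1).card : ℕ) : ℤ) := by
  have h1 : ((G.nR Fa z).filter fun x => G.Low x ∧ G.m Fa x z ≤ 1) =
      ((G.nR Fa z).filter fun x => G.Low x).filter fun x => G.m Fa x z ≤ 1 := by
    rw [Finset.filter_filter]
  rw [h1, Finset.card_filter]
  push_cast
  rfl

/-- if `|I z| ≤ 1` every low neighbour in `R` gives one -/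
theorem sum_g_one76 {z : V} (hI : (G.I Fa z).card ≤ 1) :
    ∑ x ∈ (G.nR Fa z).filter (fun v => G.Low v), g (G.m Fa x z) = (G.s Fa z : ℤ) := by
  have h1 : ∀ x ∈ (G.nR Fa z).filter (fun v => G.Low v), g (G.m Fa x z) = 1 := by
    intro x _
    have h2 : G.m Fa x z ≤ 1 := (Finset.card_le_card Finset.inter_subset_right).trans hI
    simp [g, h2]
  rw [Finset.sum_congr rfl h1, s]
  simp

theorem s_ge_one76 {z w : V} (h1 : w ∈ G.nR Fa z) (h2 : G.Low w) : 1 ≤ G.s Fa z := by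
  rw [s, Nat.succ_le_iff, Finset.card_pos]
  exact ⟨w, mem_filter.2 ⟨h1, h2⟩⟩

theorem nR_card76 (h : G.Reg Fa) {z : V} (hz : z ∈ R Fa) (hlow : G.Low z) :
    (G.nR Fa z).card + (G.I Fa z).card ≤ 6 := by
  have h1 := nb_split76 h hz
  have h2 : ((G.I Fa z).card : ℤ) ≤ ∑ B ∈ G.I Fa z, (G.d z B : ℤ) := by
    have h3 : ((G.I Fa z).card : ℤ) = ∑ B ∈ G.I Fa z, (1 : ℤ) := by simp
    rw [h3]
    apply Finset.sum_le_sum
    intro B hB
    have h4 := d_pos76 (mem_I76.1 hB).2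
    exact_mod_cast h4
  have h5 : (G.nb z).card = 6 := hlow
  rw [h5] at h1
  omega

theorem charge0_76 (h : G.Reg Fa) (hc : G.CovR Fa) {z : V} (hz : z ∈ R Fa)
    (hI : G.I Fa z = ∅) : G.ch Fa z = (G.s Fa z : ℤ) - 2 ∧ 2 ≤ G.s Fa z := by
  have hm : ∀ x, G.m Fa x z = 0 := by
    intro x
    rw [m, hI, Finset.inter_empty, Finset.card_empty]
  have hs := sum_g_one76 (G := G) (Fa := Fa) (z := z) (by rw [hI]; simp)
  constructor
  · rw [ch, hs, hI]
    split_ifs with h2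
    · have h3 : ∀ x ∈ G.nR Fa z, (2 - (G.m Fa x z : ℤ) - g (G.m Fa x z)) = 1 := by
        intro x _
        rw [hm, g_zero76]
        norm_num
      rw [Finset.sum_congr rfl h3]
      have h4 := nb_split76 h hz
      rw [hI, Finset.sum_empty, add_zero] at h4
      have h5 : (G.nb z).card = 6 := h2
      rw [h5] at h4
      simp only [Finset.sum_const, nsmul_eq_mul, mul_one, Finset.card_empty]
      push_cast at h4 ⊢
      linarith
    · simp only [Finset.card_empty]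
      push_cast
      ring
  · have hne : (G.nb z).Nonempty := by
      rw [← Finset.card_pos]
      have := G.deg z
      omega
    obtain ⟨x, hx⟩ := hne
    have key : ∀ x ∈ G.nb z, ∃ w, G.Low w ∧ w ∈ G.nR Fa z ∧ x ∈ G.nb w := by
      intro x hx
      obtain ⟨w, h1, h2, h3⟩ := hc.c0 z hz hI x hx
      refine ⟨w, h1, low_nR76 hz h2 ?_ h3, h3⟩
      intro B hB
      rw [hI] at hB
      exact absurd hB (Finset.notMem_empty _)
    obtain ⟨w, h1, h2, _⟩ := key x hx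
    obtain ⟨w', h1', h2', h3'⟩ := key w (mem_nR76.1 h2).1
    have hne : w ≠ w' := by
      rintro rfl
      exact G.irr _ h3'
    rw [s]
    have h4 : ({w, w'} : Finset V) ⊆ (G.nR Fa z).filter fun v => G.Low v := by
      intro v hv
      rw [mem_insert, mem_singleton] at hv
      rw [mem_filter]
      rcases hv with rfl | rfl
      · exact ⟨h2, h1⟩
      · exact ⟨h2', h1'⟩
    have h5 := Finset.card_le_card h4
    rwa [Finset.card_pair hne] at h5

theorem charge1_76 (h : G.Reg Fa) (hc : G.CovR Fa) {z : V} (hz : z ∈ R Fa) {B : Finset V}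
    (hI : G.I Fa z = {B}) : 1 ≤ G.s Fa z ∧ 1 ≤ G.d z (G.Co B) ∧
    (¬ G.Low z → G.ch Fa z = (G.s Fa z : ℤ) - 1) ∧
    (G.Low z → G.ch Fa z = (G.d z (G.Co B) : ℤ) + (G.s Fa z : ℤ) - 4) := by
  have hB : B ∈ G.I Fa z := by rw [hI]; exact mem_singleton_self _
  have hBF := (mem_I76.1 hB).1
  have hBN := (mem_I76.1 hB).2
  have hd : 1 ≤ G.d z (G.Co B) := d_Co_pos76 (h.frag B hBF) hBN
  have hs := sum_g_one76 (G := G) (Fa := Fa) (z := z) (by rw [hI]; simp)
  refine ⟨?_, hd, ?_, ?_⟩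
  · have h1 : (G.nb z ∩ G.Co B).Nonempty := by
      rw [← Finset.card_pos]
      exact hd
    obtain ⟨x, hx⟩ := h1
    obtain ⟨w, h1, h2, h3⟩ := hc.c1 z hz B hI x hx
    refine s_ge_one76 (low_nR76 hz h2 ?_ h3) h1
    intro B' hB'
    rw [hI, mem_singleton] at hB'
    subst hB'
    exact (mem_inter.1 hx).2
  · intro hlow
    rw [ch, hs, hI, if_neg hlow, if_neg hlow, Finset.card_singleton]
    push_cast
    ring
  · intro hlow
    rw [ch, hs, hI, if_pos hlow, if_pos hlow, Finset.card_singleton]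
    have h3 : ∀ x ∈ G.nR Fa z, (2 - (G.m Fa x z : ℤ) - g (G.m Fa x z)) =
        if x ∈ G.Co B then 1 else 0 := by
      intro x hx
      have hxR := (mem_nR76.1 hx).2
      have h4 : G.m Fa x z = if x ∈ G.N B then 1 else 0 := by
        rw [m, hI]
        split_ifs with h5
        · rw [Finset.inter_singleton_of_mem (mem_I76.2 ⟨hBF, h5⟩), Finset.card_singleton]
        · rw [Finset.inter_singleton_of_notMem (fun h6 => h5 (mem_I76.1 h6).2),
            Finset.card_empty]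
      rw [h4]
      by_cases h5 : x ∈ G.N B
      · have h6 : x ∉ G.Co B := fun h7 => (mem_Co76.1 h7).2 h5
        simp [h5, h6, g]
      · have h6 : x ∈ G.Co B := mem_Co76.2 ⟨mem_R76.1 hxR B hBF, h5⟩
        simp [h5, h6, g]
    rw [Finset.sum_congr rfl h3, ← Finset.sum_filter, Finset.sum_const, nsmul_eq_mul, mul_one]
    have h4 : (G.nR Fa z).filter (fun x => x ∈ G.Co B) = G.nb z ∩ G.Co B := by
      ext x
      rw [mem_filter, mem_nR76, mem_inter]
      constructor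
      · rintro ⟨⟨a, _⟩, b⟩
        exact ⟨a, b⟩
      · rintro ⟨a, b⟩
        refine ⟨⟨a, ?_⟩, b⟩
        rw [mem_R76]
        intro B' hB' hxB'
        have h5 := I_of_nb76 hz hB' a hxB'
        rw [hI, mem_singleton] at h5
        subst h5
        exact (mem_Co76.1 b).1 hxB'
    rw [h4, d]
    push_cast
    ring

theorem charge2_76 (h : G.Reg Fa) {z : V} (hz : z ∈ R Fa) (hI : 2 ≤ (G.I Fa z).card) :
    ((((G.nR Fa z).filter fun x => G.Low x ∧ G.m Fa x z ≤ 1).card : ℕ) : ℤ) ≤ G.ch Fa z := by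
  rw [ch, sum_g76]
  suffices h0 : 0 ≤ (((G.I Fa z).card : ℤ) - 2) * (if G.Low z then 4 else 1) +
      (if G.Low z then ∑ x ∈ G.nR Fa z, (2 - (G.m Fa x z : ℤ) - g (G.m Fa x z)) else 0) by
    linarith
  have hk : (0 : ℤ) ≤ ((G.I Fa z).card : ℤ) - 2 := by
    have : (2 : ℤ) ≤ ((G.I Fa z).card : ℤ) := by exact_mod_cast hI
    linarith
  by_cases hlow : G.Low z
  · rw [if_pos hlow, if_pos hlow]
    have h1 : ∀ x ∈ G.nR Fa z, -(((G.I Fa z).card : ℤ) - 2) ≤
        (2 - (G.m Fa x z : ℤ) - g (G.m Fa x z)) := by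
      intro x _
      have h2 : G.m Fa x z ≤ (G.I Fa z).card := Finset.card_le_card Finset.inter_subset_right
      have h3 : (G.m Fa x z : ℤ) ≤ ((G.I Fa z).card : ℤ) := by exact_mod_cast h2
      by_cases h4 : G.m Fa x z ≤ 1
      · have h5 : (G.m Fa x z : ℤ) ≤ 1 := by exact_mod_cast h4
        simp only [g, if_pos h4]
        linarith
      · simp only [g, if_neg h4]
        linarith
    have h2 := Finset.card_nsmul_le_sum _ _ _ h1
    rw [nsmul_eq_mul] at h2
    have h3 := nR_card76 h hz hlow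
    have h4 : ((G.nR Fa z).card : ℤ) ≤ 4 := by
      have : (G.nR Fa z).card ≤ 4 := by omega
      exact_mod_cast this
    nlinarith
  · rw [if_neg hlow, if_neg hlow]
    linarith

end CG

theorem CG.stCharge_76 (G : CG V) : G.StCharge := by
  intro Fa h hc z hz
  exact ⟨fun hI => CG.charge0_76 h hc hz hI, fun B hI => CG.charge1_76 h hc hz hI,
    fun hI => CG.charge2_76 h hz hI⟩

end Pool.Agent.Lib.MP_e95c01_co.N
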