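import Mathlib

/-!
# 6-connected graphs without fragments of order 2: definitions and statements
-/

namespace Pool.Agent.Lib.MP_e95c01_co.N

open Finset

/-- a finite 6-connected graph, given by its neighbour sets -/
structure CG (V : Type) [Fintype V] [DecidableEq V] where
  nb : V → Finset V
  irr : ∀ v, v ∉ nb v
  sym : ∀ u v, v ∈ nb u → u ∈ nb v
  deg : ∀ v, 6 ≤ (nb v).card
  conn : ∀ S T : Finset V, S.Nonempty → Disjoint S T → (∀ u ∈ S, nb u ⊆ S ∪ T) →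
    (∃ v, v ∉ S ∪ T) → 6 ≤ T.card

variable {V : Type} [Fintype V] [DecidableEq V] (G : CG V)

namespace CG

/-- neighbourhood of a set -/
def N (S : Finset V) : Finset V := (S.biUnion G.nb) \ S

/-- the opposite side: everything outside `S` and `N S` -/
def Co (S : Finset V) : Finset V := (S ∪ G.N S)ᶜ

/-- fragment -/
def Frag (S : Finset V) : Prop := S.Nonempty ∧ (G.N S).card = 6 ∧ (G.Co S).Nonempty

/-- big fragment: at least three vertices on both sides -/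
def Big (S : Finset V) : Prop := G.Frag S ∧ 3 ≤ S.card ∧ 3 ≤ (G.Co S).card

/-- vertex of degree 6 -/
abbrev Low (v : V) : Prop := (G.nb v).card = 6

/-- `x` and `y` have a common neighbour of degree 6 -/
def Cov (x y : V) : Prop := ∃ w, G.Low w ∧ x ∈ G.nb w ∧ y ∈ G.nb w

/-- `x` and `y` lie in `N E` for a fragment `E` of at most two vertices -/
def SCov (x y : V) : Prop := ∃ E, G.Frag E ∧ E.card ≤ 2 ∧ x ∈ G.N E ∧ y ∈ G.N E

/-- criticality: every edge lies in a 6-cut -/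
def Crit : Prop := ∀ x y, y ∈ G.nb x → ∃ E, G.Frag E ∧ x ∈ G.N E ∧ y ∈ G.N E

/-- no fragment of order 2 -/
def NoTwo : Prop := ∀ E, G.Frag E → E.card ≠ 2

/-- number of neighbours of `v` in `S` -/
def d (v : V) (S : Finset V) : ℕ := (G.nb v ∩ S).card

/-- number of lows in `S` -/
def l (S : Finset V) : ℕ := (S.filter fun v => G.Low v).card

/-- the functional -/
def P (S : Finset V) : ℤ :=
  6 * (G.l S : ℤ) - 2 * (S.card : ℤ) - 6 +
    ∑ w ∈ (G.N S).filter (fun v => G.Low v), (3 + (G.d w S : ℤ) - (G.d w (G.Co S) : ℤ))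

/-! ### families of pairwise non-adjacent fragments -/

/-- a family of pairwise disjoint and non-adjacent fragments -/
structure Reg (Fa : Finset (Finset V)) : Prop where
  frag : ∀ B ∈ Fa, G.Frag B
  dis : ∀ B ∈ Fa, ∀ B' ∈ Fa, B ≠ B' → Disjoint B B' ∧ Disjoint (G.N B) B'

/-- the vertices outside of the fragments of the family -/
def R (Fa : Finset (Finset V)) : Finset V := (Fa.biUnion id)ᶜ

/-- the members of the family whose neighbourhood contains `z` -/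
def I (Fa : Finset (Finset V)) (z : V) : Finset (Finset V) := Fa.filter fun B => z ∈ G.N B

/-- neighbours in `R` -/
def nR (Fa : Finset (Finset V)) (z : V) : Finset V := G.nb z ∩ R Fa

/-- number of low neighbours in `R` -/
def s (Fa : Finset (Finset V)) (z : V) : ℕ := ((G.nR Fa z).filter fun v => G.Low v).card

/-- number of members containing both `x` and `z` in their neighbourhoods -/
def m (Fa : Finset (Finset V)) (x z : V) : ℕ := (G.I Fa x ∩ G.I Fa z).card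

/-- what a low vertex gives to a neighbour -/
def g (j : ℕ) : ℤ := if j ≤ 1 then 1 else 0

/-- the charge of a vertex of `R` after the first rule -/
def ch (Fa : Finset (Finset V)) (z : V) : ℤ :=
  (((G.I Fa z).card : ℤ) - 2) * (if G.Low z then 4 else 1) +
    (if G.Low z then ∑ x ∈ G.nR Fa z, (2 - (G.m Fa x z : ℤ) - g (G.m Fa x z)) else 0) +
    ∑ x ∈ (G.nR Fa z).filter (fun v => G.Low v), g (G.m Fa x z)

/-- the edges that have to be low-covered in `R` -/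
structure CovR (Fa : Finset (Finset V)) : Prop where
  c0 : ∀ z ∈ R Fa, G.I Fa z = ∅ → ∀ x ∈ G.nb z, G.Cov z x
  c1 : ∀ z ∈ R Fa, ∀ B, G.I Fa z = {B} → ∀ x ∈ G.nb z ∩ G.Co B, G.Cov z x

/-- vertices of `R` in `N B` and in no other neighbourhood of the family -/
def K (Fa : Finset (Finset V)) (B : Finset V) : Finset V := (R Fa).filter fun z => G.I Fa z = {B}

/-- the only vertices with a negative charge: low, `I z = {B}`, two neighbours in `Co B`, one low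
neighbour in `R` -/
def N3 (Fa : Finset (Finset V)) (z : V) : Prop :=
  z ∈ R Fa ∧ G.Low z ∧ ∃ B, G.I Fa z = {B} ∧ G.d z (G.Co B) = 2 ∧ G.s Fa z = 1

open Classical in
/-- the vertices that a low vertex pays -/
noncomputable def Q (Fa : Finset (Finset V)) (y : V) : Finset V :=
  (G.nR Fa y).filter fun z => G.N3 Fa z

open Classical in
/-- the final charge -/
noncomputable def e (Fa : Finset (Finset V)) (z : V) : ℤ :=
  G.ch Fa z + (if G.N3 Fa z then 1 else 0) - (if G.Low z then ((G.Q Fa z).card : ℤ) else 0)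

/-! ## Statements -/

/-- M1a -/
def StN6 : Prop := ∀ S : Finset V, S.Nonempty → (G.Co S).Nonempty → 6 ≤ (G.N S).card

/-- M1b: submodularity -/
def StSubmod : Prop := ∀ A B : Finset V,
  (G.N (A ∩ B)).card + (G.N (A ∪ B)).card ≤ (G.N A).card + (G.N B).card

/-- M1c: the opposite side of a fragment -/
def StCo : Prop := ∀ F : Finset V, G.Frag F →
  G.Frag (G.Co F) ∧ G.N (G.Co F) = G.N F ∧ G.Co (G.Co F) = F

/-- M1d -/
def StPsum : Prop := ∀ F : Finset V, G.Frag F →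
  G.P F + G.P (G.Co F) = 6 * (G.l univ : ℤ) - 2 * (Fintype.card V : ℤ)

/-- M1e: union of intersecting fragments inside `F` -/
def StUnion : Prop := ∀ F A B : Finset V, G.Frag F → G.Frag A → G.Frag B → A ⊆ F → B ⊆ F →
  (A ∩ B).Nonempty → G.Frag (A ∪ B) ∧ G.Frag (A ∩ B)

/-- M2: structure lemma -/
def StStruct : Prop := G.Crit → ∀ F : Finset V, G.Big F → ∀ z ∈ F, ∀ v ∈ G.nb z, ¬ G.SCov z v →
  (∃ B, G.Big B ∧ B ⊂ F ∧ z ∈ G.N B ∧ v ∈ G.N B) ∨ (F.card = 3 ∧ v ∈ F)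

/-- M3a: the family inside `U` -/
def StFamU : Prop := ∀ F : Finset V, G.Big F → ∀ U : Finset V, U ⊆ F →
  ∃ Fa : Finset (Finset V),
    (∀ B ∈ Fa, G.Big B ∧ B ⊆ U) ∧
    (∀ B ∈ Fa, ∀ B' ∈ Fa, B ≠ B' → Disjoint B B' ∧ Disjoint (G.N B) B') ∧
    (∀ B, G.Big B → B ⊆ U → ∀ z ∈ F, (∀ A ∈ Fa, z ∉ A) → z ∈ G.N B → ∀ v ∈ G.nb z, v ∈ G.N B →
      ¬ G.SCov z v → ∃ A ∈ Fa, z ∈ G.N A ∧ (v ∈ A ∨ v ∈ G.N A)) ∧
    (∀ B ∈ Fa, ∀ Z : Finset V, Z.Nonempty → Z ⊆ U → Z ⊆ G.N B →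
      (∀ z ∈ Z, ∀ A ∈ Fa, A ≠ B → z ∉ G.N A) → Z.card < (G.N Z ∩ G.Co B).card)

/-- M3b: the family of proper subfragments of `F` -/
def StFam : Prop := G.Crit → ∀ F : Finset V, G.Big F → 4 ≤ F.card → ∃ Fa : Finset (Finset V),
    (∀ B ∈ Fa, G.Big B ∧ B ⊂ F) ∧
    (∀ B ∈ Fa, ∀ B' ∈ Fa, B ≠ B' → Disjoint B B' ∧ Disjoint (G.N B) B') ∧
    (∀ z ∈ F, (∀ A ∈ Fa, z ∉ A) → ∀ v ∈ G.nb z, ¬ G.SCov z v →
      ∃ A ∈ Fa, z ∈ G.N A ∧ (v ∈ A ∨ v ∈ G.N A)) ∧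
    (∀ B ∈ Fa, ∀ Z : Finset V, Z.Nonempty → Z ⊆ F → Z ⊆ G.N B →
      (∀ z ∈ Z, ∀ A ∈ Fa, A ≠ B → z ∉ G.N A) →
      Z.card < (G.N Z ∩ G.Co B).card ∨ (Fa = {B} ∧ Z = F \ B)) ∧
    (Fa.Nonempty → ∀ Z : Finset V, Z.Nonempty → Z ⊆ G.N F → (∀ z ∈ Z, ∀ A ∈ Fa, z ∉ G.N A) →
      Z.card < (G.N Z ∩ F).card ∨ ∃ B, Fa = {B} ∧ G.N Z ∩ F = F \ B ∧ (F \ B).card = Z.card) ∧
    (Fa = ∅ → ∀ B, G.Big B → ¬ B ⊂ F)

/-- M4: identity -/
def StIdent : Prop := ∀ Fa : Finset (Finset V), G.Reg Fa →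
  6 * (G.l univ : ℤ) - 2 * (Fintype.card V : ℤ) - ∑ B ∈ Fa, G.P B = ∑ z ∈ R Fa, G.ch Fa z

/-- M5: the charges -/
def StCharge : Prop := ∀ Fa : Finset (Finset V), G.Reg Fa → G.CovR Fa → ∀ z ∈ R Fa,
  (G.I Fa z = ∅ → G.ch Fa z = (G.s Fa z : ℤ) - 2 ∧ 2 ≤ G.s Fa z) ∧
  (∀ B, G.I Fa z = {B} → 1 ≤ G.s Fa z ∧ 1 ≤ G.d z (G.Co B) ∧
    (¬ G.Low z → G.ch Fa z = (G.s Fa z : ℤ) - 1) ∧
    (G.Low z → G.ch Fa z = (G.d z (G.Co B) : ℤ) + (G.s Fa z : ℤ) - 4)) ∧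
  (2 ≤ (G.I Fa z).card →
    ((((G.nR Fa z).filter fun x => G.Low x ∧ G.m Fa x z ≤ 1).card : ℕ) : ℤ) ≤ G.ch Fa z)

/-- M6: payments -/
def StPay : Prop := ∀ Fa : Finset (Finset V), G.Reg Fa → G.CovR Fa →
  ∑ z ∈ R Fa, G.ch Fa z = ∑ z ∈ R Fa, G.e Fa z ∧
  (∀ z ∈ R Fa, ¬ G.Low z → G.e Fa z = G.ch Fa z ∧ 0 ≤ G.e Fa z) ∧
  (∀ z ∈ R Fa, G.Low z → (∀ B, G.I Fa z = {B} → (G.Q Fa z).card + 2 ≤ G.d z (G.Co B)) →
    0 ≤ G.e Fa z) ∧
  (∀ z ∈ R Fa, ∀ B, G.I Fa z = {B} → G.Low z → ∀ x ∈ G.Q Fa z,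
    G.I Fa x = {B} ∧ G.nb x ∩ G.Co B ⊆ G.nb z ∩ G.Co B)

/-- M7: discharging with expansion -/
def StDisch : Prop := ∀ Fa : Finset (Finset V), G.Reg Fa → G.CovR Fa →
  (∀ B ∈ Fa, ∀ Z : Finset V, Z.Nonempty → Z ⊆ G.K Fa B → Z.card < (G.N Z ∩ G.Co B).card) →
  0 ≤ ∑ z ∈ R Fa, G.ch Fa z

/-- M8: thin strips -/
def StThin : Prop := ∀ A B : Finset V, A ≠ B → G.Reg {A, B} → G.CovR {A, B} →
  R {A, B} ⊆ G.N A ∪ G.N B →
  (∀ Z : Finset V, Z.Nonempty → Z ⊂ G.N A \ G.N B → Z.card < (G.N Z ∩ (G.N B \ G.N A)).card) →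
  (∀ Z : Finset V, Z.Nonempty → Z ⊂ G.N B \ G.N A → Z.card < (G.N Z ∩ (G.N A \ G.N B)).card) →
  0 ≤ ∑ z ∈ R {A, B}, G.ch {A, B} z

/-- M9: base, at least four vertices -/
def StBase : Prop := ∀ F : Finset V, G.Big F → 4 ≤ F.card →
  (∀ z ∈ F, ∀ v ∈ G.nb z, G.Cov z v) →
  (∀ Z : Finset V, Z.Nonempty → Z ⊆ G.N F → (F \ G.N Z).Nonempty →
    Z.card < (G.N Z ∩ F).card ∨ (Z.card = (G.N Z ∩ F).card ∧ (F \ G.N Z).card = 1)) →
  0 ≤ G.P F

/-- M10: fragments with three vertices -/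
def StThree : Prop := G.NoTwo → ∀ F : Finset V, G.Big F → F.card = 3 →
  (∀ z ∈ F, ∀ v ∈ G.nb z, v ∉ F → G.Cov z v) → 0 ≤ G.P F

/-- M11: main lemma -/
def StMain : Prop := G.Crit → G.NoTwo → ∀ F : Finset V, G.Big F → 0 ≤ G.P F

/-- M12: the theorem for `CG` -/
def StN2 : Prop := G.Crit → G.NoTwo → Fintype.card V ≤ 3 * G.l univ

end CG

end Pool.Agent.Lib.MP_e95c01_co.N
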