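import Pool.Agent.Lib.MP_e95c01_co.N.FamU37

/-!
# The family of proper big subfragments of `F`
-/

namespace Pool.Agent.Lib.MP_e95c01_co.N

open Finset

variable {V : Type} [Fintype V] [DecidableEq V]

namespace CG

/-- every vertex of `N F` has a neighbour in `F` -/
theorem nbr_in37 {G : CG V} {F : Finset V} {v : V} (hv : v ∈ G.N F) :
    ∃ u ∈ F, u ∈ G.nb v := by
  obtain ⟨-, u, hu, h⟩ := mem_N37.1 hv
  exact ⟨u, hu, G.sym _ _ h⟩

theorem N_add37 {G : CG V} (B Z : Finset V) :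
    G.N (B ∪ Z) ⊆ (G.N B \ Z) ∪ (G.N Z ∩ G.Co B) := by
  intro w hw
  rw [mem_N37] at hw
  obtain ⟨h1, u, hu', hwu⟩ := hw
  rw [mem_union, not_or] at h1
  by_cases hwB : w ∈ G.N B
  · exact mem_union_left _ (mem_sdiff.2 ⟨hwB, h1.2⟩)
  · refine mem_union_right _ (mem_inter.2 ⟨?_, mem_Co37.2 ⟨h1.1, hwB⟩⟩)
    rcases mem_union.1 hu' with hu' | hu'
    · exact absurd (mem_N37.2 ⟨h1.1, u, hu', hwu⟩) hwB
    · exact mem_N37.2 ⟨h1.2, u, hu', hwu⟩

theorem N_sub37 {G : CG V} {F Z : Finset V} (hZ : Z ⊆ G.N F) :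
    G.N (F \ G.N Z) ⊆ (G.N F \ Z) ∪ (G.N Z ∩ F) := by
  intro w hw
  rw [mem_N37] at hw
  obtain ⟨h1, u, hu, hwu⟩ := hw
  rw [mem_sdiff] at hu
  by_cases hF : w ∈ F
  · refine mem_union_right _ (mem_inter.2 ⟨?_, hF⟩)
    by_contra h2
    exact h1 (mem_sdiff.2 ⟨hF, h2⟩)
  · refine mem_union_left _ (mem_sdiff.2 ⟨mem_N37.2 ⟨hF, u, hu.1, hwu⟩, ?_⟩)
    intro hwZ
    apply hu.2
    rw [mem_N37]
    exact ⟨fun h => (mem_N37.1 (hZ h)).1 hu.1, w, hwZ, G.sym _ _ hwu⟩

theorem stFam_37 (G : CG V) (h6 : G.StN6) (hu : G.StUnion) (hst : G.StStruct)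
    (hfu : G.StFamU) : G.StFam := by
  classical
  intro hcr F hF h4
  by_cases hex : ∃ B, G.Big B ∧ B ⊂ F
  swap
  · refine ⟨∅, by simp, by simp, ?_, by simp, by simp, ?_⟩
    · intro z hz _ v hv hns
      rcases hst hcr F hF z hz v hv hns with ⟨B, hB, hBF, -⟩ | ⟨h, -⟩
      · exact absurd ⟨B, hB, hBF⟩ hex
      · omega
    · intro _ B hB hBF
      exact hex ⟨B, hB, hBF⟩
  obtain ⟨B1, hB1m, hmax⟩ := exists_max_image
    ((univ : Finset (Finset V)).filter fun B => G.Big B ∧ B ⊂ F) (fun B => B.card)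
    (by obtain ⟨B, h⟩ := hex; exact ⟨B, by simpa using h⟩)
  simp only [mem_filter, mem_univ, true_and] at hB1m hmax
  obtain ⟨hB1, hB1F⟩ := hB1m
  set U1 := F ∩ G.Co B1 with hU1
  have hU1F : U1 ⊆ F := inter_subset_left
  have hU1C : U1 ⊆ G.Co B1 := inter_subset_right
  obtain ⟨Fa, f1, f2, f3, f4⟩ := hfu F hF U1 hU1F
  have hco : ∀ B ∈ Fa, B ⊆ G.Co B1 := fun B hB => (f1 B hB).2.trans hU1C
  have nadj : ∀ B ∈ Fa, Disjoint B1 B ∧ Disjoint (G.N B1) B ∧ Disjoint (G.N B) B1 := by
    intro B hB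
    refine ⟨?_, ?_, ?_⟩
    · rw [disjoint_right]
      intro v hv
      exact (mem_Co37.1 (hco B hB hv)).1
    · rw [disjoint_right]
      intro v hv
      exact (mem_Co37.1 (hco B hB hv)).2
    · rw [disjoint_left]
      intro v hv hv1
      rw [mem_N37] at hv
      obtain ⟨-, u, hu, hvu⟩ := hv
      exact (mem_Co37'.1 (hco B hB hu)).2 v hv1 (G.sym _ _ hvu)
  have hne1 : ∀ B ∈ Fa, B1 ≠ B := by
    intro B hB
    rintro rfl
    obtain ⟨b, hb⟩ := hB1.1.1
    exact (mem_Co37.1 (hco _ hB hb)).1 hb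
  have hprop : ∀ B ∈ Fa, B ⊂ F := by
    intro B hB
    refine ⟨(f1 B hB).2.trans hU1F, fun h => ?_⟩
    obtain ⟨b, hb⟩ := hB1.1.1
    exact (disjoint_left.1 (nadj B hB).1) hb (h (hB1F.1 hb))
  -- a big subfragment containing `B1` is `B1` or `F`
  have hmx : ∀ A, G.Big A → B1 ⊆ A → A ⊆ F → A = B1 ∨ A = F := by
    intro A hA h1 h2
    by_cases h : A = F
    · exact Or.inr h
    · left
      have h3 := hmax A ⟨hA, lt_of_le_of_ne h2 h⟩
      exact (eq_of_subset_of_card_le h1 h3).symm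
  refine ⟨insert B1 Fa, ?_, ?_, ?_, ?_, ?_, ?_⟩
  · intro B hB
    rcases mem_insert.1 hB with rfl | hB
    · exact ⟨hB1, hB1F⟩
    · exact ⟨(f1 B hB).1, hprop B hB⟩
  · intro B hB B' hB' hne
    rcases mem_insert.1 hB with h1 | h1
    · rcases mem_insert.1 hB' with h2 | h2
      · exact absurd (h1.trans h2.symm) hne
      · rw [h1]
        exact ⟨(nadj B' h2).1, (nadj B' h2).2.1⟩
    · rcases mem_insert.1 hB' with h2 | h2
      · rw [h2]
        exact ⟨(nadj B h1).1.symm, (nadj B h1).2.2⟩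
      · exact f2 B h1 B' h2 hne
  · intro z hz hzA v hv hns
    have hzB1 : z ∉ B1 := hzA B1 (mem_insert_self _ _)
    rcases hst hcr F hF z hz v hv hns with ⟨B, hB, hBF, hzB, hvB⟩ | ⟨h, -⟩
    swap
    · omega
    by_cases hi : (B ∩ B1).Nonempty
    · have h1 := hu F B B1 hF.1 hB.1 hB1.1 hBF.1 hB1F.1 hi
      have h2 : G.Big (B ∪ B1) := big_of37 h6 hF (union_subset hBF.1 hB1F.1)
        (hB.2.1.trans (card_le_card subset_union_left)) h1.1.2.1.le
      rcases hmx _ h2 subset_union_right (union_subset hBF.1 hB1F.1) with h3 | h3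
      · have h5 : B ⊆ B1 := by rw [← h3]; exact subset_union_left
        refine ⟨B1, mem_insert_self _ _, ?_, ?_⟩
        · obtain ⟨-, u, hu', hzu⟩ := mem_N37.1 hzB
          exact mem_N37.2 ⟨hzB1, u, h5 hu', hzu⟩
        · by_cases hv1 : v ∈ B1
          · exact Or.inl hv1
          · obtain ⟨-, u, hu', hvu⟩ := mem_N37.1 hvB
            exact Or.inr (mem_N37.2 ⟨hv1, u, h5 hu', hvu⟩)
      · exfalso
        rw [← h3, mem_union] at hz
        rcases hz with h | h
        · exact (mem_N37.1 hzB).1 h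
        · exact hzB1 h
    · have hd : Disjoint B1 B := by
        rw [disjoint_iff_inter_eq_empty, inter_comm]
        exact not_nonempty_iff_eq_empty.1 hi
      have hcr := cross37 h6 hF hB1 hB hB1F.1 hBF.1 hd
      by_cases he : (B \ G.N B1).Nonempty
      · obtain ⟨hfr, hsub⟩ := hcr.2 he
        by_cases hv1 : v ∈ B1
        · refine ⟨B1, mem_insert_self _ _, mem_N37.2 ⟨hzB1, v, hv1, G.sym _ _ hv⟩, Or.inl hv1⟩
        · have hzn : z ∈ G.N (B \ G.N B1) := hsub (mem_sdiff.2 ⟨hzB, hzB1⟩)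
          have hvn : v ∈ G.N (B \ G.N B1) := hsub (mem_sdiff.2 ⟨hvB, hv1⟩)
          have h3 : 3 ≤ (B \ G.N B1).card := by
            by_contra h
            exact hns ⟨B \ G.N B1, hfr, by omega, hzn, hvn⟩
          have hbig : G.Big (B \ G.N B1) :=
            big_of37 h6 hF (sdiff_subset.trans hBF.1) h3 hfr.2.1.le
          have hsU : B \ G.N B1 ⊆ U1 := by
            intro w hw
            rw [mem_sdiff] at hw
            refine mem_inter.2 ⟨hBF.1 hw.1, mem_Co37.2 ⟨?_, hw.2⟩⟩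
            exact (disjoint_right.1 hd) hw.1
          obtain ⟨A, hA, h⟩ := f3 _ hbig hsU z hz
            (fun A hA => hzA A (mem_insert_of_mem hA)) hzn v hv hvn hns
          exact ⟨A, mem_insert_of_mem hA, h⟩
      · exfalso
        have h1 := hcr.1 (not_nonempty_iff_eq_empty.1 he)
        have h2 : G.Big (B1 ∪ B) := big_of37 h6 hF (union_subset hB1F.1 hBF.1)
          (hB1.2.1.trans (card_le_card subset_union_left)) h1
        rcases hmx _ h2 subset_union_left (union_subset hB1F.1 hBF.1) with h3 | h3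
        · obtain ⟨b, hb⟩ := hB.1.1
          have : b ∈ B1 := by rw [← h3]; exact mem_union_right _ hb
          exact (disjoint_left.1 hd) this hb
        · rw [← h3, mem_union] at hz
          rcases hz with h | h
          · exact hzB1 h
          · exact (mem_N37.1 hzB).1 h
  · intro B hB Z hZ hZF hZB hZA
    rcases mem_insert.1 hB with h0 | hB
    · rw [h0] at hZB hZA ⊢
      by_contra hcon
      push Not at hcon
      obtain ⟨hc1, hc2⟩ := hcon
      have hdZ : Disjoint B1 Z := by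
        rw [disjoint_right]
        intro v hv
        exact (mem_N37.1 (hZB hv)).1
      have h2 : (G.N (B1 ∪ Z)).card ≤ 6 := by
        have h3 := (card_le_card (N_add37 (G := G) B1 Z)).trans (card_union_le _ _)
        have h4 : (G.N B1 \ Z).card + Z.card = 6 := by
          rw [← hB1.1.2.1]
          exact card_sdiff_add_card_eq_card hZB
        omega
      have h5 : G.Big (B1 ∪ Z) := big_of37 h6 hF (union_subset hB1F.1 hZF)
        (hB1.2.1.trans (card_le_card subset_union_left)) h2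
      rcases hmx _ h5 subset_union_left (union_subset hB1F.1 hZF) with h3 | h3
      · obtain ⟨b, hb⟩ := hZ
        have : b ∈ B1 := by rw [← h3]; exact mem_union_right _ hb
        exact (disjoint_left.1 hdZ) this hb
      · have hZe : Z = F \ B1 := by
          rw [← h3, union_sdiff_left]
          exact (sdiff_eq_self_of_disjoint hdZ.symm).symm
        have hFa : Fa = ∅ := by
          rw [eq_empty_iff_forall_notMem]
          intro A hA
          obtain ⟨a, ha⟩ := (f1 A hA).1.1.1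
          have h7 : a ∈ Z := by
            rw [hZe, mem_sdiff]
            exact ⟨(hprop A hA).1 ha, (disjoint_right.1 (nadj A hA).1) ha⟩
          exact (mem_Co37.1 (hco A hA ha)).2 (hZB h7)
        exact hc2 (by rw [hFa, insert_empty_eq]) hZe
    · left
      apply f4 B hB Z hZ ?_ hZB ?_
      · intro z hz
        refine mem_inter.2 ⟨hZF hz, mem_Co37.2 ⟨?_, ?_⟩⟩
        · exact (disjoint_left.1 (nadj B hB).2.2) (hZB hz)
        · exact hZA z hz B1 (mem_insert_self _ _) (hne1 B hB)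
      · intro z hz A hA hAB
        exact hZA z hz A (mem_insert_of_mem hA) hAB
  · intro _ Z hZ hZF hZA
    by_contra hcon
    push Not at hcon
    obtain ⟨hc1, hc2⟩ := hcon
    have hB1s : ∀ A ∈ insert B1 Fa, A ⊆ F → A ⊆ F \ G.N Z := by
      intro A hA hAF a ha
      rw [mem_sdiff]
      refine ⟨hAF ha, fun h => ?_⟩
      obtain ⟨-, u, hu, hau⟩ := mem_N37.1 h
      apply hZA u hu A hA
      rw [mem_N37]
      refine ⟨fun h => ?_, a, ha, G.sym _ _ hau⟩
      exact (mem_N37.1 (hZF hu)).1 (hAF h)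
    have hb1 := hB1s B1 (mem_insert_self _ _) hB1F.1
    have hcard : (G.N (F \ G.N Z)).card ≤ (G.N F \ Z).card + (G.N Z ∩ F).card :=
      (card_le_card (N_sub37 (G := G) hZF)).trans (card_union_le _ _)
    have h4 : (G.N F \ Z).card + Z.card = 6 := by
      rw [← hF.1.2.1]
      exact card_sdiff_add_card_eq_card hZF
    have hbig : G.Big (F \ G.N Z) := big_of37 h6 hF sdiff_subset
      (hB1.2.1.trans (card_le_card hb1)) (by omega)
    have h6' : 6 ≤ (G.N (F \ G.N Z)).card := hbig.1.2.1.ge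
    have hne : F \ G.N Z ≠ F := by
      intro h
      obtain ⟨z, hz⟩ := hZ
      obtain ⟨u, hu, huz⟩ := nbr_in37 (hZF hz)
      have h1 : u ∈ F \ G.N Z := by rw [h]; exact hu
      rw [mem_sdiff] at h1
      exact h1.2 (mem_N37.2 ⟨fun h => (mem_N37.1 (hZF h)).1 hu, z, hz, huz⟩)
    rcases hmx _ hbig hb1 sdiff_subset with h3 | h3
    · have h5 : G.N Z ∩ F = F \ B1 := by
        ext w
        rw [← h3, mem_inter, mem_sdiff, mem_sdiff]
        tauto
      have hFa : Fa = ∅ := by
        rw [eq_empty_iff_forall_notMem]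
        intro A hA
        obtain ⟨a, ha⟩ := (f1 A hA).1.1.1
        have h7 := hB1s A (mem_insert_of_mem hA) (hprop A hA).1 ha
        rw [h3] at h7
        exact (disjoint_left.1 (nadj A hA).1) h7 ha
      refine hc2 B1 (by rw [hFa, insert_empty_eq]) h5 ?_
      rw [← h5]
      omega
    · exact hne h3
  · intro h
    exact absurd h (insert_ne_empty _ _)

end CG

end Pool.Agent.Lib.MP_e95c01_co.N
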