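import Pool.Agent.Lib.MP_e95c01_co.N.Defs37

/-!
# The family of big fragments inside `U`
-/

namespace Pool.Agent.Lib.MP_e95c01_co.N

open Finset

variable {V : Type} [Fintype V] [DecidableEq V]

namespace CG

theorem mem_N37 {G : CG V} {S : Finset V} {v : V} :
    v ∈ G.N S ↔ v ∉ S ∧ ∃ u ∈ S, v ∈ G.nb u := by
  rw [N, mem_sdiff, mem_biUnion, and_comm]

theorem mem_Co37 {G : CG V} {S : Finset V} {v : V} :
    v ∈ G.Co S ↔ v ∉ S ∧ v ∉ G.N S := by
  rw [Co, mem_compl, mem_union, not_or]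

theorem mem_Co37' {G : CG V} {S : Finset V} {v : V} :
    v ∈ G.Co S ↔ v ∉ S ∧ ∀ u ∈ S, v ∉ G.nb u := by
  rw [mem_Co37, mem_N37]
  constructor
  · rintro ⟨h1, h2⟩
    exact ⟨h1, fun u hu hv => h2 ⟨h1, u, hu, hv⟩⟩
  · rintro ⟨h1, h2⟩
    exact ⟨h1, fun h => by obtain ⟨-, u, hu, hv⟩ := h; exact h2 u hu hv⟩

theorem Co_anti37 {G : CG V} {S F : Finset V} (h : S ⊆ F) : G.Co F ⊆ G.Co S := by
  intro v hv
  rw [mem_Co37'] at hv ⊢
  exact ⟨fun h1 => hv.1 (h h1), fun u hu => hv.2 u (h hu)⟩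

theorem frag_of37 {G : CG V} (h6 : G.StN6) {S F : Finset V} (hF : G.Big F) (h : S ⊆ F)
    (hne : S.Nonempty) (hc : (G.N S).card ≤ 6) : G.Frag S := by
  have h1 : (G.Co S).Nonempty := hF.1.2.2.mono (Co_anti37 h)
  exact ⟨hne, le_antisymm hc (h6 S hne h1), h1⟩

theorem big_of37 {G : CG V} (h6 : G.StN6) {S F : Finset V} (hF : G.Big F) (h : S ⊆ F)
    (hne : 3 ≤ S.card) (hc : (G.N S).card ≤ 6) : G.Big S := by
  have h0 : S.Nonempty := by
    rw [← Finset.card_pos]; omega
  exact ⟨frag_of37 h6 hF h h0 hc, hne, hF.2.2.trans (card_le_card (Co_anti37 h))⟩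

theorem N_sdiff37 {G : CG V} (A B : Finset V) (hd : Disjoint A B) :
    G.N (B \ G.N A) ⊆ (G.N B \ A) ∪ (B ∩ G.N A) := by
  intro w hw
  rw [mem_N37] at hw
  obtain ⟨h1, u, hu, hwu⟩ := hw
  rw [mem_sdiff] at hu
  by_cases hB : w ∈ B
  · refine mem_union_right _ (mem_inter.2 ⟨hB, ?_⟩)
    by_contra h2
    exact h1 (mem_sdiff.2 ⟨hB, h2⟩)
  · refine mem_union_left _ (mem_sdiff.2 ⟨mem_N37.2 ⟨hB, u, hu.1, hwu⟩, ?_⟩)
    intro hA
    apply hu.2
    rw [mem_N37]
    exact ⟨fun h3 => (disjoint_left.1 hd) h3 hu.1, w, hA, G.sym _ _ hwu⟩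

theorem N_union37 {G : CG V} (A B : Finset V) :
    G.N (A ∪ B) ⊆ (G.N B \ A) ∪ (G.N A \ B) := by
  intro w hw
  rw [mem_N37] at hw
  obtain ⟨h1, u, hu, hwu⟩ := hw
  rw [mem_union, not_or] at h1
  rw [mem_union] at hu
  rw [mem_union, mem_sdiff, mem_sdiff, mem_N37, mem_N37]
  rcases hu with hu | hu
  · exact Or.inr ⟨⟨h1.1, u, hu, hwu⟩, h1.2⟩
  · exact Or.inl ⟨⟨h1.2, u, hu, hwu⟩, h1.1⟩

/-- crossing of two disjoint big fragments inside `F` -/
theorem cross37 {G : CG V} (h6 : G.StN6) {F A B : Finset V} (hF : G.Big F) (hA : G.Big A)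
    (hB : G.Big B) (hAF : A ⊆ F) (hBF : B ⊆ F) (hd : Disjoint A B) :
    ((B \ G.N A = ∅) → (G.N (A ∪ B)).card ≤ 6) ∧
    ((B \ G.N A).Nonempty → G.Frag (B \ G.N A) ∧ G.N B \ A ⊆ G.N (B \ G.N A)) := by
  have x1 : (G.N B \ A).card + (A ∩ G.N B).card = 6 := by
    have := card_sdiff_add_card_inter (G.N B) A
    rw [inter_comm (G.N B) A, hB.1.2.1] at this
    exact this
  have y1 : (G.N A \ B).card + (B ∩ G.N A).card = 6 := by
    have := card_sdiff_add_card_inter (G.N A) B
    rw [inter_comm (G.N A) B, hA.1.2.1] at this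
    exact this
  have u1 : (G.N (A ∪ B)).card ≤ (G.N B \ A).card + (G.N A \ B).card :=
    (card_le_card (N_union37 A B)).trans (card_union_le _ _)
  have hABF : A ∪ B ⊆ F := union_subset hAF hBF
  have u2 : 6 ≤ (G.N (A ∪ B)).card :=
    h6 _ (hA.1.1.mono subset_union_left) (hF.1.2.2.mono (Co_anti37 hABF))
  have xy : (A \ G.N B).Nonempty → (B ∩ G.N A).card ≤ (A ∩ G.N B).card := by
    intro h
    have h1 : (G.N (A \ G.N B)).card ≤ (G.N A \ B).card + (A ∩ G.N B).card :=
      (card_le_card (N_sdiff37 B A hd.symm)).trans (card_union_le _ _)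
    have h2 : 6 ≤ (G.N (A \ G.N B)).card :=
      h6 _ h (hF.1.2.2.mono (Co_anti37 (sdiff_subset.trans hAF)))
    omega
  have xA : ¬ (A \ G.N B).Nonempty → 3 ≤ (A ∩ G.N B).card := by
    intro h
    rw [not_nonempty_iff_eq_empty, sdiff_eq_empty_iff_subset] at h
    rw [inter_eq_left.2 h]
    exact hA.2.1
  constructor
  · intro h
    rw [sdiff_eq_empty_iff_subset] at h
    have h1 : 3 ≤ (B ∩ G.N A).card := by
      rw [inter_eq_left.2 h]; exact hB.2.1
    by_cases h2 : (A \ G.N B).Nonempty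
    · have := xy h2
      omega
    · have := xA h2
      omega
  · intro h
    have h1 : (G.N (B \ G.N A)).card ≤ (G.N B \ A).card + (B ∩ G.N A).card :=
      (card_le_card (N_sdiff37 A B hd)).trans (card_union_le _ _)
    have h2 : 6 ≤ (G.N (B \ G.N A)).card :=
      h6 _ h (hF.1.2.2.mono (Co_anti37 (sdiff_subset.trans hBF)))
    have h3 : (B ∩ G.N A).card ≤ (A ∩ G.N B).card := by
      by_cases h4 : (A \ G.N B).Nonempty
      · exact xy h4
      · have := xA h4
        omega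
    have h5 : (G.N (B \ G.N A)).card ≤ 6 := by omega
    refine ⟨frag_of37 h6 hF (sdiff_subset.trans hBF) h h5, ?_⟩
    have h6' : G.N (B \ G.N A) = (G.N B \ A) ∪ (B ∩ G.N A) := by
      apply eq_of_subset_of_card_le (N_sdiff37 A B hd)
      have := card_union_le (G.N B \ A) (B ∩ G.N A)
      omega
    rw [h6']
    exact subset_union_left

theorem stFamU_37 (G : CG V) (h6 : G.StN6) (hu : G.StUnion) : G.StFamU := by
  classical
  intro F hF U
  induction hn : U.card using Nat.strong_induction_on generalizing U with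
  | _ n ih =>
  intro hUF
  subst hn
  by_cases hex : ∃ B, G.Big B ∧ B ⊆ U
  swap
  · refine ⟨∅, by simp, by simp, ?_, by simp⟩
    intro B hB hBU
    exact absurd ⟨B, hB, hBU⟩ hex
  -- a maximal big subset
  obtain ⟨B1, hB1m, hmax⟩ := exists_max_image
    ((univ : Finset (Finset V)).filter fun B => G.Big B ∧ B ⊆ U) (fun B => B.card)
    (by obtain ⟨B, h⟩ := hex; exact ⟨B, by simpa using h⟩)
  simp only [mem_filter, mem_univ, true_and] at hB1m hmax
  obtain ⟨hB1, hB1U⟩ := hB1m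
  have hB1F : B1 ⊆ F := hB1U.trans hUF
  set U1 := U ∩ G.Co B1 with hU1
  have hU1U : U1 ⊆ U := inter_subset_left
  have hU1C : U1 ⊆ G.Co B1 := inter_subset_right
  have hlt : U1.card < U.card := by
    apply card_lt_card
    refine ⟨hU1U, fun h => ?_⟩
    obtain ⟨b, hb⟩ := hB1.1.1
    have := hU1C (h (hB1U hb))
    rw [mem_Co37] at this
    exact this.1 hb
  obtain ⟨Fa, f1, f2, f3, f4⟩ := ih U1.card hlt U1 rfl (hU1U.trans hUF)
  -- members of `Fa` are opposite to `B1`
  have hco : ∀ B ∈ Fa, B ⊆ G.Co B1 := fun B hB => (f1 B hB).2.trans hU1C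
  have nadj : ∀ B ∈ Fa, Disjoint B1 B ∧ Disjoint (G.N B1) B ∧ Disjoint (G.N B) B1 := by
    intro B hB
    refine ⟨?_, ?_, ?_⟩
    · rw [disjoint_right]
      intro v hv
      exact (mem_Co37.1 (hco B hB hv)).1
    · rw [disjoint_right]
      intro v hv
      exact (mem_Co37.1 (hco B hB hv)).2
    · rw [disjoint_left]
      intro v hv hv1
      rw [mem_N37] at hv
      obtain ⟨-, u, hu, hvu⟩ := hv
      exact (mem_Co37'.1 (hco B hB hu)).2 v hv1 (G.sym _ _ hvu)
  refine ⟨insert B1 Fa, ?_, ?_, ?_, ?_⟩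
  · intro B hB
    rcases mem_insert.1 hB with rfl | hB
    · exact ⟨hB1, hB1U⟩
    · exact ⟨(f1 B hB).1, (f1 B hB).2.trans hU1U⟩
  · intro B hB B' hB' hne
    rcases mem_insert.1 hB with h1 | h1
    · rcases mem_insert.1 hB' with h2 | h2
      · exact absurd (h1.trans h2.symm) hne
      · rw [h1]
        exact ⟨(nadj B' h2).1, (nadj B' h2).2.1⟩
    · rcases mem_insert.1 hB' with h2 | h2
      · rw [h2]
        exact ⟨(nadj B h1).1.symm, (nadj B h1).2.2⟩
      · exact f2 B h1 B' h2 hne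
  · intro B hB hBU z hz hzA hzB v hv hvB hns
    have hzB1 : z ∉ B1 := hzA B1 (mem_insert_self _ _)
    by_cases hi : (B ∩ B1).Nonempty
    · -- union
      have h1 := hu F B B1 hF.1 hB.1 hB1.1 (hBU.trans hUF) hB1F hi
      have h2 : G.Big (B ∪ B1) := big_of37 h6 hF (union_subset (hBU.trans hUF) hB1F)
        (hB.2.1.trans (card_le_card subset_union_left)) h1.1.2.1.le
      have h3 := hmax (B ∪ B1) ⟨h2, union_subset hBU hB1U⟩
      have h4 : B1 = B ∪ B1 := eq_of_subset_of_card_le subset_union_right h3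
      have h5 : B ⊆ B1 := by rw [h4]; exact subset_union_left
      refine ⟨B1, mem_insert_self _ _, ?_, ?_⟩
      · obtain ⟨-, u, hu', hzu⟩ := mem_N37.1 hzB
        exact mem_N37.2 ⟨hzB1, u, h5 hu', hzu⟩
      · by_cases hv1 : v ∈ B1
        · exact Or.inl hv1
        · obtain ⟨-, u, hu', hvu⟩ := mem_N37.1 hvB
          exact Or.inr (mem_N37.2 ⟨hv1, u, h5 hu', hvu⟩)
    · have hd : Disjoint B1 B := by
        rw [disjoint_iff_inter_eq_empty, inter_comm]
        exact not_nonempty_iff_eq_empty.1 hi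
      have hcr := cross37 h6 hF hB1 hB hB1F (hBU.trans hUF) hd
      by_cases he : (B \ G.N B1).Nonempty
      · obtain ⟨hfr, hsub⟩ := hcr.2 he
        by_cases hv1 : v ∈ B1
        · refine ⟨B1, mem_insert_self _ _, mem_N37.2 ⟨hzB1, v, hv1, G.sym _ _ hv⟩, Or.inl hv1⟩
        · have hzn : z ∈ G.N (B \ G.N B1) := hsub (mem_sdiff.2 ⟨hzB, hzB1⟩)
          have hvn : v ∈ G.N (B \ G.N B1) := hsub (mem_sdiff.2 ⟨hvB, hv1⟩)
          have h3 : 3 ≤ (B \ G.N B1).card := by
            by_contra h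
            exact hns ⟨B \ G.N B1, hfr, by omega, hzn, hvn⟩
          have hbig : G.Big (B \ G.N B1) :=
            big_of37 h6 hF (sdiff_subset.trans (hBU.trans hUF)) h3 hfr.2.1.le
          have hsU : B \ G.N B1 ⊆ U1 := by
            intro w hw
            rw [mem_sdiff] at hw
            refine mem_inter.2 ⟨hBU hw.1, mem_Co37.2 ⟨?_, hw.2⟩⟩
            exact (disjoint_right.1 hd) hw.1
          obtain ⟨A, hA, h⟩ := f3 _ hbig hsU z hz
            (fun A hA => hzA A (mem_insert_of_mem hA)) hzn v hv hvn hns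
          exact ⟨A, mem_insert_of_mem hA, h⟩
      · exfalso
        have h1 := hcr.1 (not_nonempty_iff_eq_empty.1 he)
        have h2 : G.Big (B1 ∪ B) := big_of37 h6 hF (union_subset hB1F (hBU.trans hUF))
          (hB1.2.1.trans (card_le_card subset_union_left)) h1
        have h3 := hmax (B1 ∪ B) ⟨h2, union_subset hB1U hBU⟩
        rw [card_union_of_disjoint hd] at h3
        have := hB.2.1
        omega
  · intro B hB Z hZ hZU hZB hZA
    rcases mem_insert.1 hB with rfl | hB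
    · by_contra hcon
      push Not at hcon
      have hdZ : Disjoint B Z := by
        rw [disjoint_right]
        intro v hv
        exact (mem_N37.1 (hZB hv)).1
      have h1 : G.N (B ∪ Z) ⊆ (G.N B \ Z) ∪ (G.N Z ∩ G.Co B) := by
        intro w hw
        rw [mem_N37] at hw
        obtain ⟨h1, u, hu', hwu⟩ := hw
        rw [mem_union, not_or] at h1
        by_cases hwB : w ∈ G.N B
        · exact mem_union_left _ (mem_sdiff.2 ⟨hwB, h1.2⟩)
        · refine mem_union_right _ (mem_inter.2 ⟨?_, mem_Co37.2 ⟨h1.1, hwB⟩⟩)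
          rcases mem_union.1 hu' with hu' | hu'
          · exact absurd (mem_N37.2 ⟨h1.1, u, hu', hwu⟩) hwB
          · exact mem_N37.2 ⟨h1.2, u, hu', hwu⟩
      have h2 : (G.N (B ∪ Z)).card ≤ 6 := by
        have h3 := (card_le_card h1).trans (card_union_le _ _)
        have h4 : (G.N B \ Z).card + Z.card = 6 := by
          rw [← hB1.1.2.1]
          exact card_sdiff_add_card_eq_card hZB
        omega
      have h5 : G.Big (B ∪ Z) := big_of37 h6 hF (union_subset hB1F (hZU.trans hUF))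
        (hB1.2.1.trans (card_le_card subset_union_left)) h2
      have h6 := hmax (B ∪ Z) ⟨h5, union_subset hB1U hZU⟩
      rw [card_union_of_disjoint hdZ] at h6
      have := hZ.card_pos
      omega
    · have hne : B1 ≠ B := by
        rintro rfl
        obtain ⟨b, hb⟩ := hB1.1.1
        exact (mem_Co37.1 (hco _ hB hb)).1 hb
      apply f4 B hB Z hZ ?_ hZB ?_
      · intro z hz
        refine mem_inter.2 ⟨hZU hz, mem_Co37.2 ⟨?_, ?_⟩⟩
        · exact (disjoint_left.1 (nadj B hB).2.2) (hZB hz)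
        · exact hZA z hz B1 (mem_insert_self _ _) hne
      · intro z hz A hA hAB
        exact hZA z hz A (mem_insert_of_mem hA) hAB

end CG

end Pool.Agent.Lib.MP_e95c01_co.N
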