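import Pool.Agent.Lib.MP_e95c01_co.N.Defs37

/-!
# M9: the base, at least four vertices
-/

namespace Pool.Agent.Lib.MP_e95c01_co.N

open Finset

variable {V : Type} [Fintype V] [DecidableEq V] (G : CG V)

namespace CG

theorem mem_N_36 (S : Finset V) (v : V) : v ∈ G.N S ↔ (∃ u ∈ S, v ∈ G.nb u) ∧ v ∉ S := by
  unfold N
  rw [mem_sdiff, mem_biUnion]

theorem mem_Co_36 (S : Finset V) (v : V) : v ∈ G.Co S ↔ v ∉ S ∧ v ∉ G.N S := by
  unfold Co
  rw [mem_compl, mem_union, not_or]

theorem ne_of_nb_36 {u v : V} (h : v ∈ G.nb u) : u ≠ v := by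
  rintro rfl
  exact G.irr _ h

theorem e_lower_36 (Fa : Finset (Finset V)) (z : V) :
    G.ch Fa z - ((G.Q Fa z).card : ℤ) ≤ G.e Fa z := by
  unfold e
  split_ifs <;> omega

theorem stBase_36 (hpay : G.StPay) (hcharge : G.StCharge) (hident : G.StIdent)
    (hpsum : G.StPsum) (hco : G.StCo) : G.StBase := by
  classical
  intro F hF hF4 hcov hexp
  obtain ⟨hFr, -, -⟩ := hF
  obtain ⟨hB0, hNB0, hCoB0⟩ := hco F hFr
  set B0 := G.Co F with hB0def
  -- basic facts
  have hFN : ∀ v, v ∈ F → v ∉ G.N F := fun v hv h => ((G.mem_N_36 F v).1 h).2 hv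
  have hR : ∀ z, z ∈ R ({B0} : Finset (Finset V)) ↔ z ∈ F ∨ z ∈ G.N F := by
    intro z
    unfold R
    rw [mem_compl, singleton_biUnion, id, hB0def, mem_Co_36]
    tauto
  have hI1 : ∀ z, z ∈ G.N F → G.I {B0} z = {B0} := by
    intro z hz
    unfold I
    rw [filter_singleton, hNB0, if_pos hz]
  have hI0 : ∀ z, z ∉ G.N F → G.I {B0} z = ∅ := by
    intro z hz
    unfold I
    rw [filter_singleton, hNB0, if_neg hz]
  have hReg : G.Reg {B0} := by
    constructor
    · intro B hB
      rw [mem_singleton] at hB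
      subst hB
      exact hB0
    · intro B hB B' hB' hne
      rw [mem_singleton] at hB hB'
      exact absurd (hB.trans hB'.symm) hne
  have hCov : G.CovR {B0} := by
    constructor
    · intro z hz hIz x hx
      rw [hR] at hz
      rcases hz with hz | hz
      · exact hcov z hz x hx
      · rw [hI1 z hz] at hIz
        exact absurd hIz (singleton_ne_empty _)
    · intro z hz B hIz x hx
      rw [hR] at hz
      rcases hz with hz | hz
      · exact hcov z hz x (mem_inter.1 hx).1
      · rw [hI1 z hz] at hIz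
        have hBe : B0 = B := singleton_injective hIz
        subst hBe
        rw [mem_inter, hCoB0] at hx
        obtain ⟨w, hw, h1, h2⟩ := hcov x hx.2 z (G.sym _ _ hx.1)
        exact ⟨w, hw, h2, h1⟩
  have hid := hident {B0} hReg
  rw [sum_singleton, ← hpsum F hFr] at hid
  have hPe : G.P F = ∑ z ∈ R ({B0} : Finset (Finset V)), G.e {B0} z := by
    rw [← (hpay _ hReg hCov).1, ← hid]
    ring
  rw [hPe]
  obtain ⟨-, hnl, hlow, hQ⟩ := hpay _ hReg hCov
  have hch := hcharge _ hReg hCov
  -- nonnegative on F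
  have hposF : ∀ z ∈ F, 0 ≤ G.e {B0} z := by
    intro z hz
    by_cases hl : G.Low z
    · apply hlow z ((hR z).2 (Or.inl hz)) hl
      intro B hB
      rw [hI0 z (hFN z hz)] at hB
      exact absurd hB.symm (singleton_ne_empty _)
    · exact (hnl z ((hR z).2 (Or.inl hz)) hl).2
  -- the bad vertices
  have hbad : ∀ y ∈ G.N F, G.e {B0} y < 0 → G.Low y ∧ (G.Q {B0} y).card = 2 ∧ G.s {B0} y = 2 ∧
      G.d y F = 3 ∧ F.card = 4 ∧ -1 ≤ G.e {B0} y := by
    intro y hy hneg
    have hyR : y ∈ R ({B0} : Finset (Finset V)) := (hR y).2 (Or.inr hy)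
    have hl : G.Low y := by
      by_contra hl
      have := (hnl y hyR hl).2
      omega
    have hQy := hQ y hyR B0 (hI1 y hy) hl
    have hchy := ((hch y hyR).2.1 B0 (hI1 y hy)).2.2.2 hl
    rw [hCoB0] at hchy hQy
    have hQs : (G.Q {B0} y).card ≤ G.s {B0} y := by
      unfold Q s
      apply card_le_card
      intro x hx
      rw [mem_filter] at hx ⊢
      exact ⟨hx.1, hx.2.2.1⟩
    have hle := G.e_lower_36 {B0} y
    set q := (G.Q {B0} y).card with hq
    -- the set Z
    have hynQ : y ∉ G.Q {B0} y := by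
      intro h
      unfold Q nR at h
      exact G.irr y (mem_inter.1 (mem_filter.1 h).1).1
    have hZsub : insert y (G.Q {B0} y) ⊆ G.N F := by
      intro x hx
      rw [mem_insert] at hx
      rcases hx with rfl | hx
      · exact hy
      · by_contra hxn
        have := (hQy x hx).1
        rw [hI0 x hxn] at this
        exact absurd this.symm (singleton_ne_empty _)
    have hZN : G.N (insert y (G.Q {B0} y)) ∩ F = G.nb y ∩ F := by
      ext v
      rw [mem_inter, mem_inter, mem_N_36]
      constructor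
      · rintro ⟨⟨⟨u, hu, huv⟩, -⟩, hvF⟩
        refine ⟨?_, hvF⟩
        rw [mem_insert] at hu
        rcases hu with rfl | hu
        · exact huv
        · exact (mem_inter.1 ((hQy u hu).2 (mem_inter.2 ⟨huv, hvF⟩))).1
      · rintro ⟨h1, h2⟩
        refine ⟨⟨⟨y, mem_insert_self _ _, h1⟩, ?_⟩, h2⟩
        intro h
        exact hFN v h2 (hZsub h)
    have hdy : (G.N (insert y (G.Q {B0} y)) ∩ F).card = G.d y F := by
      rw [hZN]
      rfl
    have hcZ : (insert y (G.Q {B0} y)).card = q + 1 := card_insert_of_notMem hynQ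
    by_cases hne : (F \ G.N (insert y (G.Q {B0} y))).Nonempty
    · rcases hexp _ ⟨y, mem_insert_self _ _⟩ hZsub hne with h | ⟨h, h'⟩
      · rw [hdy, hcZ] at h
        exfalso
        have := hlow y hyR hl (by
          intro B hB
          rw [hI1 y hy] at hB
          have hBe : B0 = B := singleton_injective hB
          rw [← hBe, hCoB0, ← hq]
          omega)
        omega
      · rw [hdy, hcZ] at h
        have hFc : F.card = G.d y F + 1 := by
          have := card_sdiff_add_card_inter F (G.N (insert y (G.Q {B0} y)))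
          rw [inter_comm, hdy, h'] at this
          omega
        have : q = 2 := by omega
        refine ⟨hl, this, ?_, ?_, ?_, ?_⟩ <;> omega
    · exfalso
      rw [not_nonempty_iff_eq_empty, sdiff_eq_empty_iff_subset] at hne
      have : G.d y F = F.card := by
        rw [← hdy, inter_eq_right.2 hne]
      omega
  by_cases hex : ∃ y ∈ G.N F, G.e {B0} y < 0
  · obtain ⟨y, hy, hneg⟩ := hex
    obtain ⟨hl, hq2, hs2, hd3, hc4, hge⟩ := hbad y hy hneg
    have hyR : y ∈ R ({B0} : Finset (Finset V)) := (hR y).2 (Or.inr hy)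
    have hQy := hQ y hyR B0 (hI1 y hy) hl
    rw [hCoB0] at hQy
    obtain ⟨z1, z2, hz12, hQe⟩ := card_eq_two.1 hq2
    have hQmem : ∀ z ∈ G.Q {B0} y, z ∈ G.nb y ∧ z ∈ G.N F ∧ G.Low z ∧ G.d z F = 2 := by
      intro z hz
      have h0 := hz
      unfold Q at h0
      rw [mem_filter] at h0
      obtain ⟨h1, h2, h3, B, h4, h5, h6⟩ := h0
      have h7 := (hQy z hz).1
      rw [h7] at h4
      have hBe : B0 = B := singleton_injective h4
      rw [← hBe, hCoB0] at h5
      refine ⟨(mem_inter.1 h1).1, ?_, h3, h5⟩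
      by_contra hn
      rw [hI0 z hn] at h7
      exact absurd h7.symm (singleton_ne_empty _)
    have hz1 : z1 ∈ G.Q {B0} y := by rw [hQe]; simp
    have hz2 : z2 ∈ G.Q {B0} y := by rw [hQe]; simp
    obtain ⟨h1nb, h1N, h1l, h1d⟩ := hQmem z1 hz1
    obtain ⟨h2nb, h2N, h2l, h2d⟩ := hQmem z2 hz2
    have h1sub := (hQy z1 hz1).2
    have h2sub := (hQy z2 hz2).2
    -- low neighbours of y
    have hsQ : G.Q {B0} y = (G.nR {B0} y).filter fun v => G.Low v := by
      apply eq_of_subset_of_card_le
      · intro x hx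
        unfold Q at hx
        rw [mem_filter] at hx ⊢
        exact ⟨hx.1, hx.2.2.1⟩
      · change G.s {B0} y ≤ _
        omega
    have hnonlow : ∀ v ∈ G.nb y ∩ F, ¬ G.Low v := by
      intro v hv hlv
      rw [mem_inter] at hv
      have : v ∈ G.Q {B0} y := by
        rw [hsQ, mem_filter]
        refine ⟨?_, hlv⟩
        unfold nR
        rw [mem_inter]
        exact ⟨hv.1, (hR v).2 (Or.inl hv.2)⟩
      exact hFN v hv.2 (hQmem v this).2.1
    -- the vertex x
    have hcard1 : (F \ G.nb y).card = 1 := by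
      have := card_sdiff_add_card_inter F (G.nb y)
      rw [inter_comm] at this
      change _ + G.d y F = _ at this
      omega
    obtain ⟨x, hx⟩ := card_eq_one.1 hcard1
    have hxF : x ∈ F ∧ x ∉ G.nb y := by
      rw [← mem_sdiff, hx]
      exact mem_singleton_self x
    have hxz1 : x ∉ G.nb z1 := fun h => hxF.2 (mem_inter.1 (h1sub (mem_inter.2 ⟨h, hxF.1⟩))).1
    have hxz2 : x ∉ G.nb z2 := fun h => hxF.2 (mem_inter.1 (h2sub (mem_inter.2 ⟨h, hxF.1⟩))).1
    have hyz1 : y ≠ z1 := G.ne_of_nb_36 h1nb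
    have hyz2 : y ≠ z2 := G.ne_of_nb_36 h2nb
    have hxne : ∀ t ∈ G.N F, x ≠ t := by
      rintro t ht rfl
      exact hFN _ hxF.1 ht
    have hnbsub : G.nb x ⊆ (F ∪ G.N F) \ {x, y, z1, z2} := by
      intro v hv
      rw [mem_sdiff]
      constructor
      · rw [mem_union]
        by_cases hvF : v ∈ F
        · exact Or.inl hvF
        · exact Or.inr ((G.mem_N_36 F v).2 ⟨⟨x, hxF.1, hv⟩, hvF⟩)
      · simp only [mem_insert, mem_singleton]
        rintro (rfl | rfl | rfl | rfl)
        · exact G.irr _ hv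
        · exact hxF.2 (G.sym _ _ hv)
        · exact hxz1 (G.sym _ _ hv)
        · exact hxz2 (G.sym _ _ hv)
    have hcardU : ((F ∪ G.N F) \ {x, y, z1, z2}).card = 6 := by
      have hsub : ({x, y, z1, z2} : Finset V) ⊆ F ∪ G.N F := by
        intro v hv
        simp only [mem_insert, mem_singleton] at hv
        rw [mem_union]
        rcases hv with rfl | rfl | rfl | rfl
        · exact Or.inl hxF.1
        · exact Or.inr hy
        · exact Or.inr h1N
        · exact Or.inr h2N
      have hdisj : Disjoint F (G.N F) := disjoint_left.2 hFN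
      rw [card_sdiff_of_subset hsub, card_union_of_disjoint hdisj, hc4, hFr.2.1]
      have : ({x, y, z1, z2} : Finset V).card = 4 := by
        rw [card_insert_of_notMem, card_insert_of_notMem, card_pair hz12]
        · simp only [mem_insert, mem_singleton, not_or]
          exact ⟨hyz1, hyz2⟩
        · simp only [mem_insert, mem_singleton, not_or]
          exact ⟨hxne y hy, hxne z1 h1N, hxne z2 h2N⟩
      omega
    have hnbx : G.nb x = (F ∪ G.N F) \ {x, y, z1, z2} := by
      apply eq_of_subset_of_card_le hnbsub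
      rw [hcardU]
      exact G.deg x
    have hxlow : G.Low x := by
      change (G.nb x).card = 6
      rw [hnbx, hcardU]
    -- the vertex v
    have hv : ((G.nb z1 ∩ F) ∩ (G.nb z2 ∩ F)).Nonempty := by
      rw [← card_pos]
      have h1 : ((G.nb z1 ∩ F) ∪ (G.nb z2 ∩ F)).card ≤ 3 := by
        have := card_le_card (union_subset h1sub h2sub)
        change _ ≤ G.d y F at this
        omega
      have h2 := card_union_add_card_inter (G.nb z1 ∩ F) (G.nb z2 ∩ F)
      have h3 : (G.nb z1 ∩ F).card = 2 := h1d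
      have h4 : (G.nb z2 ∩ F).card = 2 := h2d
      omega
    obtain ⟨v, hv⟩ := hv
    rw [mem_inter, mem_inter, mem_inter] at hv
    obtain ⟨⟨hv1, hvF⟩, hv2, -⟩ := hv
    have hvy : v ∈ G.nb y := (mem_inter.1 (h1sub (mem_inter.2 ⟨hv1, hvF⟩))).1
    have hvnl : ¬ G.Low v := hnonlow v (mem_inter.2 ⟨hvy, hvF⟩)
    have hvx : v ∈ G.nb x := by
      rw [hnbx, mem_sdiff]
      refine ⟨mem_union.2 (Or.inl hvF), ?_⟩
      simp only [mem_insert, mem_singleton]
      rintro (rfl | rfl | rfl | rfl)
      · exact hxF.2 hvy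
      · exact hFN _ hvF hy
      · exact hFN _ hvF h1N
      · exact hFN _ hvF h2N
    have hvR : v ∈ R ({B0} : Finset (Finset V)) := (hR v).2 (Or.inl hvF)
    have hsv : 4 ≤ G.s {B0} v := by
      have hcc : ({x, y, z1, z2} : Finset V).card = 4 := by
        rw [card_insert_of_notMem, card_insert_of_notMem, card_pair hz12]
        · simp only [mem_insert, mem_singleton, not_or]
          exact ⟨hyz1, hyz2⟩
        · simp only [mem_insert, mem_singleton, not_or]
          exact ⟨hxne y hy, hxne z1 h1N, hxne z2 h2N⟩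
      rw [← hcc]
      unfold s
      apply card_le_card
      intro u hu
      rw [mem_filter]
      unfold nR
      rw [mem_inter, hR]
      simp only [mem_insert, mem_singleton] at hu
      rcases hu with rfl | rfl | rfl | rfl
      · exact ⟨⟨G.sym _ _ hvx, Or.inl hxF.1⟩, hxlow⟩
      · exact ⟨⟨G.sym _ _ hvy, Or.inr hy⟩, hl⟩
      · exact ⟨⟨G.sym _ _ hv1, Or.inr h1N⟩, h1l⟩
      · exact ⟨⟨G.sym _ _ hv2, Or.inr h2N⟩, h2l⟩
    have hev : 2 ≤ G.e {B0} v := by
      rw [(hnl v hvR hvnl).1, ((hch v hvR).1 (hI0 v (hFN v hvF))).1]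
      omega
    -- uniqueness
    have huniq : ∀ t ∈ G.N F, G.e {B0} t < 0 → t = y := by
      intro t ht htneg
      obtain ⟨tl, tq2, ts2, td3, -, -⟩ := hbad t ht htneg
      by_contra hty
      -- t is adjacent to x, hence x is nonlow or t has a vertex
      have htz1 : t ≠ z1 := by
        rintro rfl
        omega
      have htz2 : t ≠ z2 := by
        rintro rfl
        omega
      have htx : t ∈ G.nb x := by
        rw [hnbx, mem_sdiff]
        refine ⟨mem_union.2 (Or.inr ht), ?_⟩
        simp only [mem_insert, mem_singleton, not_or]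
        exact ⟨(hxne t ht).symm, hty, htz1, htz2⟩
      -- x is a low neighbour of t in F, but the two low neighbours of t in R are in N F
      have htR : t ∈ R ({B0} : Finset (Finset V)) := (hR t).2 (Or.inr ht)
      have hQt := hQ t htR B0 (hI1 t ht) tl
      have hsQt : G.Q {B0} t = (G.nR {B0} t).filter fun v => G.Low v := by
        apply eq_of_subset_of_card_le
        · intro x hx
          unfold Q at hx
          rw [mem_filter] at hx ⊢
          exact ⟨hx.1, hx.2.2.1⟩
        · change G.s {B0} t ≤ _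
          omega
      have hxQ : x ∈ G.Q {B0} t := by
        rw [hsQt, mem_filter]
        refine ⟨?_, hxlow⟩
        unfold nR
        rw [mem_inter]
        exact ⟨G.sym _ _ htx, (hR x).2 (Or.inl hxF.1)⟩
      have := (hQt x hxQ).1
      rw [hI0 x (hFN x hxF.1)] at this
      exact absurd this.symm (singleton_ne_empty _)
    have hvny : v ≠ y := by
      rintro rfl
      exact hFN _ hvF hy
    rw [← add_sum_erase _ _ hyR, ← add_sum_erase _ _ (mem_erase.2 ⟨hvny, hvR⟩)]
    have hrest : 0 ≤ ∑ z ∈ ((R ({B0} : Finset (Finset V))).erase y).erase v, G.e {B0} z := by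
      apply sum_nonneg
      intro z hz
      rw [mem_erase, mem_erase, hR] at hz
      obtain ⟨-, hzy, hz | hz⟩ := hz
      · exact hposF z hz
      · by_contra hneg'
        exact hzy (huniq z hz (not_le.1 hneg'))
    omega
  · apply sum_nonneg
    intro z hz
    rw [hR] at hz
    rcases hz with hz | hz
    · exact hposF z hz
    · by_contra hneg
      exact hex ⟨z, hz, not_le.1 hneg⟩

end CG

end Pool.Agent.Lib.MP_e95c01_co.N
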