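import Pool.Agent.Lib.MP_e95c01_co.N.StBase36

/-!
# M6: payments
-/

namespace Pool.Agent.Lib.MP_e95c01_co.N

open Finset

variable {V : Type} [Fintype V] [DecidableEq V] (G : CG V)

namespace CG

theorem mem_R_36 (Fa : Finset (Finset V)) (z : V) : z ∈ R Fa ↔ ∀ B ∈ Fa, z ∉ B := by
  unfold R
  rw [mem_compl, mem_biUnion]
  simp only [id, not_exists, not_and]

theorem mem_I_36 (Fa : Finset (Finset V)) (z : V) (B : Finset V) :
    B ∈ G.I Fa z ↔ B ∈ Fa ∧ z ∈ G.N B := by
  unfold I
  rw [mem_filter]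

/-- the common neighbour of an edge from `K B` to `Co B` lies in `R` -/
theorem host_36 (Fa : Finset (Finset V)) (z : V) (hz : z ∈ R Fa) (B : Finset V)
    (hB : G.I Fa z = {B}) (x : V) (hx : x ∈ G.Co B) (w : V) (hwz : z ∈ G.nb w)
    (hwx : x ∈ G.nb w) : w ∈ R Fa := by
  rw [mem_R_36] at hz ⊢
  intro B' hB' hwB'
  by_cases h : B' = B
  · subst h
    rw [mem_Co_36] at hx
    exact hx.2 ((G.mem_N_36 _ x).2 ⟨⟨w, hwB', hwx⟩, hx.1⟩)
  · apply h
    have : B' ∈ G.I Fa z := (G.mem_I_36 Fa z B').2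
      ⟨hB', (G.mem_N_36 _ z).2 ⟨⟨w, hwB', hwz⟩, hz B' hB'⟩⟩
    rw [hB] at this
    exact mem_singleton.1 this

/-- the unique low neighbour of an `N3` vertex -/
theorem N3_host_36 (Fa : Finset (Finset V)) (hC : G.CovR Fa) (x y : V) (hx : G.N3 Fa x)
    (hy : y ∈ R Fa) (hly : G.Low y) (hxy : x ∈ G.nb y) :
    ∃ B, G.I Fa x = {B} ∧ G.d x (G.Co B) = 2 ∧ B ∈ G.I Fa y ∧
      G.nb x ∩ G.Co B ⊆ G.nb y ∩ G.Co B := by
  obtain ⟨hxR, hlx, B, hB, hd, hs⟩ := hx
  have huniq : ∀ w, w ∈ G.nb x → w ∈ R Fa → G.Low w → w = y := by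
    intro w hw hwR hwl
    have h1 : w ∈ (G.nR Fa x).filter fun v => G.Low v := by
      rw [mem_filter]
      exact ⟨mem_inter.2 ⟨hw, hwR⟩, hwl⟩
    have h2 : y ∈ (G.nR Fa x).filter fun v => G.Low v := by
      rw [mem_filter]
      exact ⟨mem_inter.2 ⟨G.sym _ _ hxy, hy⟩, hly⟩
    exact card_le_one.1 (le_of_eq hs) w h1 y h2
  have hsub : G.nb x ∩ G.Co B ⊆ G.nb y ∩ G.Co B := by
    intro x1 hx1
    obtain ⟨w, hwl, hwx, hwx1⟩ := hC.c1 x hxR B hB x1 hx1
    have hwR := G.host_36 Fa x hxR B hB x1 (mem_inter.1 hx1).2 w hwx hwx1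
    have := huniq w (G.sym _ _ hwx) hwR hwl
    subst this
    exact mem_inter.2 ⟨hwx1, (mem_inter.1 hx1).2⟩
  refine ⟨B, hB, hd, ?_, hsub⟩
  have hBI : B ∈ G.I Fa x := by
    rw [hB]
    exact mem_singleton_self B
  rw [mem_I_36] at hBI ⊢
  refine ⟨hBI.1, ?_⟩
  by_contra hyN
  have hyCo : y ∈ G.Co B := (G.mem_Co_36 B y).2 ⟨(mem_R_36 Fa y).1 hy B hBI.1, hyN⟩
  exact G.irr y (mem_inter.1 (hsub (mem_inter.2 ⟨G.sym _ _ hxy, hyCo⟩))).1

theorem stPay_36 (hcharge : G.StCharge) : G.StPay := by
  classical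
  intro Fa hR hC
  have hch := hcharge Fa hR hC
  have hQmem : ∀ y x, x ∈ G.Q Fa y ↔ x ∈ G.nb y ∧ x ∈ R Fa ∧ G.N3 Fa x := by
    intro y x
    unfold Q nR
    rw [mem_filter, mem_inter]
    tauto
  have hQs : ∀ y, (G.Q Fa y).card ≤ G.s Fa y := by
    intro y
    apply card_le_card
    intro x hx
    rw [hQmem] at hx
    rw [mem_filter]
    exact ⟨mem_inter.2 ⟨hx.1, hx.2.1⟩, hx.2.2.2.1⟩
  refine ⟨?_, ?_, ?_, ?_⟩
  · -- the sum
    unfold e
    rw [sum_sub_distrib, sum_add_distrib]
    have h1 : ∑ z ∈ R Fa, (if G.N3 Fa z then (1 : ℤ) else 0) =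
        ∑ z ∈ R Fa, (if G.Low z then ((G.Q Fa z).card : ℤ) else 0) := by
      have h2 : ∀ z ∈ R Fa, (if G.N3 Fa z then (1 : ℤ) else 0) =
          ∑ y ∈ R Fa, (if G.Low y ∧ z ∈ G.nb y ∧ G.N3 Fa z then (1 : ℤ) else 0) := by
        intro z hz
        by_cases hn : G.N3 Fa z
        · rw [if_pos hn]
          have hs : G.s Fa z = 1 := by
            obtain ⟨-, -, B, -, -, hs⟩ := hn
            exact hs
          have h3 : ((R Fa).filter fun y => G.Low y ∧ z ∈ G.nb y ∧ G.N3 Fa z) =
              (G.nR Fa z).filter fun v => G.Low v := by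
            ext y
            unfold nR
            rw [mem_filter, mem_filter, mem_inter]
            constructor
            · rintro ⟨a, b, c, -⟩
              exact ⟨⟨G.sym _ _ c, a⟩, b⟩
            · rintro ⟨⟨a, b⟩, c⟩
              exact ⟨b, c, G.sym _ _ a, hn⟩
          rw [← sum_filter, h3, sum_const, nsmul_eq_mul, mul_one]
          have : ((G.nR Fa z).filter fun v => G.Low v).card = 1 := hs
          rw [this]
          rfl
        · rw [if_neg hn]
          symm
          apply sum_eq_zero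
          intro y _
          rw [if_neg]
          rintro ⟨-, -, h⟩
          exact hn h
      have h4 : ∀ y ∈ R Fa, (if G.Low y then ((G.Q Fa y).card : ℤ) else 0) =
          ∑ z ∈ R Fa, (if G.Low y ∧ z ∈ G.nb y ∧ G.N3 Fa z then (1 : ℤ) else 0) := by
        intro y hy
        by_cases hl : G.Low y
        · rw [if_pos hl, ← sum_filter, sum_const, nsmul_eq_mul, mul_one]
          congr 2
          ext z
          rw [hQmem, mem_filter]
          tauto
        · rw [if_neg hl]
          symm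
          apply sum_eq_zero
          intro z _
          rw [if_neg]
          rintro ⟨h, -⟩
          exact hl h
      rw [sum_congr rfl h2, sum_congr rfl h4, sum_comm]
    rw [h1]
    ring
  · -- nonlow vertices
    intro z hz hl
    have he : G.e Fa z = G.ch Fa z := by
      unfold e
      rw [if_neg hl, if_neg]
      · ring
      · rintro ⟨-, h, -⟩
        exact hl h
    refine ⟨he, ?_⟩
    rw [he]
    obtain ⟨c0, c1, c2⟩ := hch z hz
    rcases Nat.lt_or_ge (G.I Fa z).card 2 with h | h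
    · rcases Nat.lt_or_ge (G.I Fa z).card 1 with h' | h'
      · have : G.I Fa z = ∅ := card_eq_zero.1 (by omega)
        have := c0 this
        omega
      · obtain ⟨B, hB⟩ := card_eq_one.1 (show (G.I Fa z).card = 1 by omega)
        have := c1 B hB
        have h3 := this.2.2.1 hl
        omega
    · have := c2 h
      omega
  · -- low vertices
    intro z hz hl hB
    have hle := G.e_lower_36 Fa z
    obtain ⟨c0, c1, c2⟩ := hch z hz
    rcases Nat.lt_or_ge (G.I Fa z).card 2 with h | h
    · rcases Nat.lt_or_ge (G.I Fa z).card 1 with h' | h'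
      · have hI : G.I Fa z = ∅ := card_eq_zero.1 (by omega)
        have hc := c0 hI
        have hQ : (G.Q Fa z).card = 0 := by
          rw [card_eq_zero, ← not_nonempty_iff_eq_empty]
          rintro ⟨x, hx⟩
          rw [hQmem] at hx
          obtain ⟨B, -, -, hBI, -⟩ := G.N3_host_36 Fa hC x z hx.2.2 hz hl hx.1
          rw [hI] at hBI
          exact notMem_empty _ hBI
        omega
      · obtain ⟨B, hBz⟩ := card_eq_one.1 (show (G.I Fa z).card = 1 by omega)
        obtain ⟨hs1, hd1, -, hlch⟩ := c1 B hBz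
        have hch' := hlch hl
        have hq2 := hB B hBz
        have hqs := hQs z
        by_cases hneg : G.d z (G.Co B) = 2 ∧ G.s Fa z = 1
        · -- N3
          have hN3 : G.N3 Fa z := ⟨hz, hl, B, hBz, hneg.1, hneg.2⟩
          unfold e
          rw [if_pos hN3, if_pos hl]
          omega
        · by_cases hq1 : (G.Q Fa z).card = 1 ∧ G.s Fa z = 1
          · -- impossible
            exfalso
            obtain ⟨x, hxQ⟩ := card_eq_one.1 hq1.1
            have hx : x ∈ G.Q Fa z := by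
              rw [hxQ]
              exact mem_singleton_self x
            rw [hQmem] at hx
            obtain ⟨B', hB', hdx, hBI, hsub⟩ := G.N3_host_36 Fa hC x z hx.2.2 hz hl hx.1
            rw [hBz, mem_singleton] at hBI
            subst hBI
            have hlt : (G.nb x ∩ G.Co B').card < (G.nb z ∩ G.Co B').card := by
              have a : (G.nb x ∩ G.Co B').card = 2 := hdx
              have b : (G.Q Fa z).card + 2 ≤ (G.nb z ∩ G.Co B').card := hq2
              omega
            obtain ⟨x3, hx3, hx3n⟩ := exists_mem_notMem_of_card_lt_card hlt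
            obtain ⟨w, hwl, hwz, hwx3⟩ := hC.c1 z hz B' hBz x3 hx3
            have hwR := G.host_36 Fa z hz B' hBz x3 (mem_inter.1 hx3).2 w hwz hwx3
            have h1 : w ∈ (G.nR Fa z).filter fun v => G.Low v := by
              rw [mem_filter]
              exact ⟨mem_inter.2 ⟨G.sym _ _ hwz, hwR⟩, hwl⟩
            have h2 : x ∈ (G.nR Fa z).filter fun v => G.Low v := by
              rw [mem_filter]
              exact ⟨mem_inter.2 ⟨hx.1, hx.2.1⟩, hx.2.2.2.1⟩
            have h3 : w = x := card_le_one.1 (le_of_eq hq1.2) w h1 x h2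
            subst h3
            exact hx3n (mem_inter.2 ⟨hwx3, (mem_inter.1 hx3).2⟩)
          · omega
    · have h3 := c2 h
      have h4 : (G.Q Fa z).card ≤
          ((G.nR Fa z).filter fun x => G.Low x ∧ G.m Fa x z ≤ 1).card := by
        apply card_le_card
        intro x hx
        rw [hQmem] at hx
        rw [mem_filter]
        refine ⟨mem_inter.2 ⟨hx.1, hx.2.1⟩, hx.2.2.2.1, ?_⟩
        obtain ⟨B, hB', -⟩ := hx.2.2.2.2
        unfold m
        calc (G.I Fa x ∩ G.I Fa z).card ≤ (G.I Fa x).card := card_le_card inter_subset_left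
          _ = 1 := by rw [hB', card_singleton]
      omega
  · intro z hz B hB hl x hx
    rw [hQmem] at hx
    obtain ⟨B', hB', -, hBI, hsub⟩ := G.N3_host_36 Fa hC x z hx.2.2 hz hl hx.1
    rw [hB, mem_singleton] at hBI
    subst hBI
    exact ⟨hB', hsub⟩

end CG

end Pool.Agent.Lib.MP_e95c01_co.N
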