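import Pool.Agent.Lib.MP_e95c01_co.N.Defs37

/-!
# M2: the structure lemma (corner counting)
-/

namespace Pool.Agent.Lib.MP_e95c01_co.N

open Finset

variable {V : Type} [Fintype V] [DecidableEq V] (G : CG V)

namespace CG

namespace Struct53

theorem mem_N {S : Finset V} {x : V} : x ∈ G.N S ↔ (∃ u ∈ S, x ∈ G.nb u) ∧ x ∉ S := by
  simp [N]

theorem mem_Co {S : Finset V} {x : V} : x ∈ G.Co S ↔ x ∉ S ∧ x ∉ G.N S := by
  simp [Co]

theorem nb_mem {S : Finset V} {u x : V} (hu : u ∈ S) (hx : x ∈ G.nb u) : x ∈ S ∨ x ∈ G.N S := by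
  by_cases h : x ∈ S
  · exact Or.inl h
  · exact Or.inr ((mem_N G).2 ⟨⟨u, hu, hx⟩, h⟩)

/-- The neighbourhood of an intersection. -/
theorem N_inter (S T : Finset V) :
    G.N (S ∩ T) ⊆ (G.N S ∩ T) ∪ (G.N S ∩ G.N T) ∪ (S ∩ G.N T) := by
  intro x hx
  obtain ⟨⟨u, hu, hxu⟩, hn⟩ := (mem_N G).1 hx
  rw [mem_inter] at hu hn
  have h1 := nb_mem G hu.1 hxu
  have h2 := nb_mem G hu.2 hxu
  simp only [mem_union, mem_inter]
  tauto

theorem card_part (X S : Finset V) :
    X.card = (X ∩ S).card + (X ∩ G.N S).card + (X ∩ G.Co S).card := by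
  have e : X = (X ∩ S) ∪ (X ∩ G.N S) ∪ (X ∩ G.Co S) := by
    ext x
    simp only [mem_union, mem_inter, mem_Co]
    tauto
  have d1 : Disjoint (X ∩ S) (X ∩ G.N S) := by
    rw [disjoint_left]
    intro x h1 h2
    rw [mem_inter] at h1 h2
    exact ((mem_N G).1 h2.2).2 h1.2
  have d2 : Disjoint ((X ∩ S) ∪ (X ∩ G.N S)) (X ∩ G.Co S) := by
    rw [disjoint_left]
    intro x h1 h2
    simp only [mem_union, mem_inter, mem_Co] at h1 h2
    tauto
  conv_lhs => rw [e]
  rw [card_union_of_disjoint d2, card_union_of_disjoint d1]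

/-- The corner inequality and the fragment in the case of equality; `E` may be replaced by the
opposite side. -/
theorem corner (h6 : G.StN6) {F E : Finset V} (hF : G.Big F) {z v : V} (hzF : z ∈ F)
    (hv : v ∈ G.nb z) (hzE : z ∈ G.N E) (hvE : v ∈ G.N E) (hS : ¬ G.SCov z v) :
    ((F ∩ E).Nonempty → 6 ≤ (G.N F ∩ E).card + (G.N F ∩ G.N E).card + (F ∩ G.N E).card) ∧
    ((F ∩ E).Nonempty → (G.N F ∩ E).card + (G.N F ∩ G.N E).card + (F ∩ G.N E).card = 6 →
      ∃ B, G.Big B ∧ B ⊂ F ∧ z ∈ G.N B ∧ v ∈ G.N B) := by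
  have hsub := N_inter G F E
  have hcard : (G.N (F ∩ E)).card ≤
      (G.N F ∩ E).card + (G.N F ∩ G.N E).card + (F ∩ G.N E).card :=
    (card_le_card hsub).trans ((card_union_le _ _).trans
      (Nat.add_le_add_right (card_union_le _ _) _))
  have hCo : G.Co F ⊆ G.Co (F ∩ E) := by
    intro x hx
    rw [mem_Co] at hx ⊢
    refine ⟨fun h => hx.1 (mem_inter.1 h).1, fun h => ?_⟩
    obtain ⟨⟨u, hu, hxu⟩, hn⟩ := (mem_N G).1 h
    rcases nb_mem G (mem_inter.1 hu).1 hxu with h1 | h1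
    · exact hx.1 h1
    · exact hx.2 h1
  have hCoN : (G.Co (F ∩ E)).Nonempty := hF.1.2.2.mono hCo
  refine ⟨fun hne => (h6 _ hne hCoN).trans hcard, fun hne he => ?_⟩
  have hN6 := h6 _ hne hCoN
  have hNcard : (G.N (F ∩ E)).card = 6 := by omega
  have hun : ((G.N F ∩ E) ∪ (G.N F ∩ G.N E) ∪ (F ∩ G.N E)).card ≤ 6 := by
    have := (card_union_le (G.N F ∩ E ∪ G.N F ∩ G.N E) (F ∩ G.N E)).trans
      (Nat.add_le_add_right (card_union_le _ _) _)
    omega
  have heq : G.N (F ∩ E) = (G.N F ∩ E) ∪ (G.N F ∩ G.N E) ∪ (F ∩ G.N E) :=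
    eq_of_subset_of_card_le hsub (by omega)
  have hz : z ∈ G.N (F ∩ E) := by
    rw [heq]
    exact mem_union_right _ (mem_inter.2 ⟨hzF, hzE⟩)
  have hvN : v ∈ G.N (F ∩ E) := by
    rw [heq]
    rcases nb_mem G hzF hv with h1 | h1
    · exact mem_union_right _ (mem_inter.2 ⟨h1, hvE⟩)
    · exact mem_union_left _ (mem_union_right _ (mem_inter.2 ⟨h1, hvE⟩))
  have hfrag : G.Frag (F ∩ E) := ⟨hne, hNcard, hCoN⟩
  have h3 : 3 ≤ (F ∩ E).card := by
    by_contra h
    exact hS ⟨_, hfrag, by omega, hz, hvN⟩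
  refine ⟨F ∩ E, ⟨hfrag, h3, hF.2.2.trans (card_le_card hCo)⟩, ?_, hz, hvN⟩
  refine ⟨inter_subset_left, fun h => ?_⟩
  exact ((mem_N G).1 hz).2 (h hzF)

end Struct53

open Struct53 in
theorem stStruct_53 (h6 : G.StN6) (hCo : G.StCo) : G.StStruct := by
  intro hC F hF z hzF v hv hS
  obtain ⟨E, hE, hzE, hvE⟩ := hC z v hv
  obtain ⟨hE', hNE', hCE'⟩ := hCo E hE
  have c1 : 3 ≤ E.card := by
    by_contra h
    exact hS ⟨E, hE, by omega, hzE, hvE⟩
  have c2 : 3 ≤ (G.Co E).card := by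
    by_contra h
    exact hS ⟨G.Co E, hE', by omega, by rw [hNE']; exact hzE, by rw [hNE']; exact hvE⟩
  obtain ⟨hF', hNF', hCF'⟩ := hCo F hF.1
  have k1 := corner G h6 hF hzF hv hzE hvE hS
  have k2 := corner G h6 (E := G.Co E) hF hzF hv (by rw [hNE']; exact hzE)
    (by rw [hNE']; exact hvE) hS
  rw [hNE'] at k2
  -- the corners on the other side
  have k3 : ∀ X : Finset V, (G.Co F ∩ X).Nonempty →
      6 ≤ (G.N F ∩ X).card + (G.N F ∩ G.N X).card + (G.Co F ∩ G.N X).card := by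
    intro X hne
    have hsub := N_inter G (G.Co F) X
    rw [hNF'] at hsub
    have hC2 : F ⊆ G.Co (G.Co F ∩ X) := by
      intro x hx
      rw [mem_Co]
      refine ⟨fun h => ((mem_Co G).1 (mem_inter.1 h).1).1 hx, fun h => ?_⟩
      obtain ⟨⟨u, hu, hxu⟩, hn⟩ := (mem_N G).1 h
      have h1 := (mem_Co G).1 (mem_inter.1 hu).1
      have h2 := nb_mem G hx (G.sym _ _ hxu)
      tauto
    have := h6 _ hne (hF.1.1.mono hC2)
    exact this.trans ((card_le_card hsub).trans ((card_union_le _ _).trans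
      (Nat.add_le_add_right (card_union_le _ _) _)))
  have k4 := k3 E
  have k5 := k3 (G.Co E)
  rw [hNE'] at k5
  have p1 := card_part G (G.N F) E
  have p2 := card_part G F E
  have p3 := card_part G (G.Co F) E
  have p4 : (G.N E).card = (F ∩ G.N E).card + (G.N F ∩ G.N E).card + (G.Co F ∩ G.N E).card := by
    have := card_part G (G.N E) F
    rw [inter_comm (G.N E) F, inter_comm (G.N E) (G.N F), inter_comm (G.N E) (G.Co F)] at this
    exact this
  have p5 : E.card = (F ∩ E).card + (G.N F ∩ E).card + (G.Co F ∩ E).card := by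
    have := card_part G E F
    rw [inter_comm E F, inter_comm E (G.N F), inter_comm E (G.Co F)] at this
    exact this
  have p6 : (G.Co E).card =
      (F ∩ G.Co E).card + (G.N F ∩ G.Co E).card + (G.Co F ∩ G.Co E).card := by
    have := card_part G (G.Co E) F
    rw [inter_comm (G.Co E) F, inter_comm (G.Co E) (G.N F),
      inter_comm (G.Co E) (G.Co F)] at this
    exact this
  have q1 := hF.1.2.1
  have q2 := hE.2.1
  have q3 := hF.2.1
  have q4 := hF.2.2
  simp only [← card_pos] at k1 k2 k4 k5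
  by_cases u1 : 0 < (F ∩ E).card ∧
      (G.N F ∩ E).card + (G.N F ∩ G.N E).card + (F ∩ G.N E).card = 6
  · exact Or.inl (k1.2 u1.1 u1.2)
  by_cases u2 : 0 < (F ∩ G.Co E).card ∧
      (G.N F ∩ G.Co E).card + (G.N F ∩ G.N E).card + (F ∩ G.N E).card = 6
  · exact Or.inl (k2.2 u2.1 u2.2)
  have k1' := k1.1
  have k2' := k2.1
  have main : F.card = 3 ∧ (G.N F ∩ G.N E).card = 0 := by
    clear k1 k2
    constructor <;> omega
  refine Or.inr ⟨main.1, ?_⟩
  rcases nb_mem G hzF hv with h1 | h1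
  · exact h1
  · exfalso
    have h2 : v ∈ G.N F ∩ G.N E := mem_inter.2 ⟨h1, hvE⟩
    rw [card_eq_zero] at main
    rw [main.2] at h2
    exact absurd h2 (notMem_empty v)

end CG

end Pool.Agent.Lib.MP_e95c01_co.N
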