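import Pool.Agent.Lib.MP_e95c01_co.N.StBase36

/-!
# M10: fragments with three vertices
-/

namespace Pool.Agent.Lib.MP_e95c01_co.N

open Finset

variable {V : Type} [Fintype V] [DecidableEq V] (G : CG V)

namespace CG

theorem dc_36 (A B : Finset V) :
    ∑ w ∈ A, (G.nb w ∩ B).card = ∑ b ∈ B, (G.nb b ∩ A).card := by
  have h := sum_card_bipartiteAbove_eq_sum_card_bipartiteBelow (s := A) (t := B)
    (fun a b => b ∈ G.nb a)
  have h1 : ∀ a ∈ A, (G.nb a ∩ B).card = (bipartiteAbove (fun a b => b ∈ G.nb a) B a).card := by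
    intro a _
    congr 1
    ext x
    simp only [bipartiteAbove, mem_inter, mem_filter]
    tauto
  have h2 : ∀ b ∈ B, (G.nb b ∩ A).card = (bipartiteBelow (fun a b => b ∈ G.nb a) A b).card := by
    intro b _
    congr 1
    ext x
    simp only [bipartiteBelow, mem_inter, mem_filter]
    constructor
    · rintro ⟨h, h'⟩
      exact ⟨h', G.sym _ _ h⟩
    · rintro ⟨h, h'⟩
      exact ⟨G.sym _ _ h', h⟩
  rw [sum_congr rfl h1, sum_congr rfl h2, h]

theorem card_part_36 (F : Finset V) (X : Finset V) :
    (X ∩ F).card + (X ∩ G.N F).card + (X ∩ G.Co F).card = X.card := by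
  have hd1 : Disjoint (X ∩ F) (X ∩ G.N F) := by
    rw [disjoint_left]
    intro v h1 h2
    exact ((G.mem_N_36 F v).1 (mem_inter.1 h2).2).2 (mem_inter.1 h1).2
  have hd2 : Disjoint ((X ∩ F) ∪ (X ∩ G.N F)) (X ∩ G.Co F) := by
    rw [disjoint_left]
    intro v h1 h2
    have := (G.mem_Co_36 F v).1 (mem_inter.1 h2).2
    rcases mem_union.1 h1 with h | h
    · exact this.1 (mem_inter.1 h).2
    · exact this.2 (mem_inter.1 h).2
  rw [← card_union_of_disjoint hd1, ← card_union_of_disjoint hd2]
  congr 1
  ext v
  simp only [mem_union, mem_inter, mem_Co_36]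
  tauto

/-- the functional in terms of the degrees in `N F` -/
theorem P_eq_36 (F : Finset V) :
    G.P F = 6 * (G.l F : ℤ) - 2 * (F.card : ℤ) - 6 +
      ∑ w ∈ (G.N F).filter (fun v => G.Low v),
        (2 * ((G.nb w ∩ F).card : ℤ) + ((G.nb w ∩ G.N F).card : ℤ) - 3) := by
  unfold P
  congr 1
  apply sum_congr rfl
  intro w hw
  have hl : (G.nb w).card = 6 := (mem_filter.1 hw).2
  have := G.card_part_36 F (G.nb w)
  unfold d
  omega

theorem stThree_36 (h6 : G.StN6) : G.StThree := by
  classical
  intro hno F hF hF3 hcov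
  obtain ⟨⟨hne, hN6, hCo⟩, -, -⟩ := hF
  have hFN : ∀ v, v ∈ F → v ∉ G.N F := fun v hv h => ((G.mem_N_36 F v).1 h).2 hv
  have hnbF : ∀ z ∈ F, ∀ v ∈ G.nb z, v ∈ F ∨ v ∈ G.N F := by
    intro z hz v hv
    by_cases h : v ∈ F
    · exact Or.inl h
    · exact Or.inr ((G.mem_N_36 F v).2 ⟨⟨z, hz, hv⟩, h⟩)
  -- two neighbours in F
  have hd : ∀ t ∈ G.N F, 2 ≤ (G.nb t ∩ F).card := by
    intro t ht
    by_contra hlt
    have hpos : 0 < (G.nb t ∩ F).card := by
      rw [card_pos]
      obtain ⟨⟨u, hu, hut⟩, -⟩ := (G.mem_N_36 F t).1 ht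
      exact ⟨u, mem_inter.2 ⟨G.sym _ _ hut, hu⟩⟩
    have h1 : (G.nb t ∩ F).card = 1 := by omega
    have h2 : (F \ G.nb t).card = 2 := by
      have := card_sdiff_add_card_inter F (G.nb t)
      rw [inter_comm] at this
      omega
    have hEne : (F \ G.nb t).Nonempty := by
      rw [← card_pos]
      omega
    -- its neighbourhood
    have hsub : G.N (F \ G.nb t) ⊆ (G.N F).erase t ∪ (G.nb t ∩ F) := by
      intro v hv
      obtain ⟨⟨u, hu, huv⟩, hvn⟩ := (G.mem_N_36 _ v).1 hv
      rw [mem_sdiff] at hu hvn
      rw [mem_union, mem_erase, mem_inter]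
      rcases hnbF u hu.1 v huv with h | h
      · right
        refine ⟨?_, h⟩
        by_contra hvt
        exact hvn ⟨h, hvt⟩
      · left
        refine ⟨?_, h⟩
        rintro rfl
        exact hu.2 (G.sym _ _ huv)
    have hle : (G.N (F \ G.nb t)).card ≤ 6 := by
      have a1 := card_le_card hsub
      have a2 := card_union_le ((G.N F).erase t) (G.nb t ∩ F)
      rw [card_erase_of_mem ht] at a2
      omega
    have hCoE : (G.Co (F \ G.nb t)).Nonempty := by
      obtain ⟨v, hv⟩ := hCo
      rw [mem_Co_36] at hv
      refine ⟨v, (G.mem_Co_36 _ v).2 ⟨?_, ?_⟩⟩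
      · intro h
        exact hv.1 (mem_sdiff.1 h).1
      · intro h
        rcases mem_union.1 (hsub h) with h' | h'
        · exact hv.2 (mem_erase.1 h').2
        · exact hv.1 (mem_inter.1 h').2
    have hge := h6 _ hEne hCoE
    exact hno _ ⟨hEne, le_antisymm hle hge, hCoE⟩ h2
  rw [P_eq_36, hF3]
  set L := (G.N F).filter (fun v => G.Low v) with hLdef
  have hLmem : ∀ w, w ∈ L ↔ w ∈ G.N F ∧ G.Low w := fun w => by rw [hLdef, mem_filter]
  -- the terms are positive
  have hterm : ∀ w ∈ L, (1 : ℤ) + ((G.nb w ∩ G.N F).card : ℤ) ≤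
      2 * ((G.nb w ∩ F).card : ℤ) + ((G.nb w ∩ G.N F).card : ℤ) - 3 := by
    intro w hw
    have := hd w ((hLmem w).1 hw).1
    omega
  -- covering
  have hcv : ∀ z ∈ F, ∀ t ∈ G.N F, t ∈ G.nb z →
      (∃ w ∈ L, w ∈ G.nb z ∧ w ∈ G.nb t) ∨ (∃ w ∈ F, G.Low w ∧ w ≠ z) := by
    intro z hz t ht htz
    obtain ⟨w, hw, hwz, hwt⟩ := hcov z hz t htz (fun h => hFN t h ht)
    rcases hnbF z hz w (G.sym _ _ hwz) with h | h
    · right
      refine ⟨w, h, hw, ?_⟩
      rintro rfl
      exact G.irr _ hwz
    · left
      exact ⟨w, (hLmem w).2 ⟨h, hw⟩, G.sym _ _ hwz, G.sym _ _ hwt⟩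
  -- z in F sees at least four vertices of N F
  have h4 : ∀ z ∈ F, (G.nb z).card ≤ (G.nb z ∩ G.N F).card + 2 := by
    intro z hz
    have h := G.card_part_36 F (G.nb z)
    have h0 : (G.nb z ∩ G.Co F).card = 0 := by
      rw [card_eq_zero, ← not_nonempty_iff_eq_empty]
      rintro ⟨v, hv⟩
      rw [mem_inter, mem_Co_36] at hv
      rcases hnbF z hz v hv.1 with h | h
      · exact hv.2.1 h
      · exact hv.2.2 h
    have h2 : (G.nb z ∩ F).card ≤ 2 := by
      have : G.nb z ∩ F ⊆ F.erase z := by
        intro v hv
        rw [mem_inter] at hv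
        rw [mem_erase]
        refine ⟨?_, hv.2⟩
        rintro rfl
        exact G.irr _ hv.1
      have := card_le_card this
      rw [card_erase_of_mem hz] at this
      omega
    omega
  rcases Nat.lt_or_ge 1 (G.l F) with hl2 | hl1
  · -- at least two lows
    have : (0 : ℤ) ≤ ∑ w ∈ L, (2 * ((G.nb w ∩ F).card : ℤ) + ((G.nb w ∩ G.N F).card : ℤ) - 3) := by
      apply sum_nonneg
      intro w hw
      have := hterm w hw
      omega
    omega
  · rcases Nat.lt_or_ge 0 (G.l F) with hl0 | hl0
    · -- exactly one low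
      have hl : (F.filter fun v => G.Low v).card = 1 := by
        change G.l F = 1
        omega
      obtain ⟨u, hu⟩ := card_eq_one.1 hl
      have huF : u ∈ F ∧ G.Low u := by
        rw [← mem_filter (p := fun v => G.Low v), hu]
        exact mem_singleton_self u
      have honly : ∀ w ∈ F, G.Low w → w = u := by
        intro w hw hlw
        have : w ∈ F.filter fun v => G.Low v := mem_filter.2 ⟨hw, hlw⟩
        rw [hu] at this
        exact mem_singleton.1 this
      have hcu : ∀ t ∈ G.N F, t ∈ G.nb u → ∃ w ∈ L ∩ G.nb u, w ∈ G.nb t := by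
        intro t ht htu
        rcases hcv u huF.1 t ht htu with ⟨w, h1, h2, h3⟩ | ⟨w, h1, h2, h3⟩
        · exact ⟨w, mem_inter.2 ⟨h1, h2⟩, h3⟩
        · exact absurd (honly w h1 h2) h3
      have hu4 : 4 ≤ (G.nb u ∩ G.N F).card := by
        have := h4 u huF.1
        have h5 : (G.nb u).card = 6 := huF.2
        omega
      -- at least two lows in L_u
      have hLu2 : 2 ≤ (L ∩ G.nb u).card := by
        have hn : (G.nb u ∩ G.N F).Nonempty := by
          rw [← card_pos]
          omega
        obtain ⟨t, ht⟩ := hn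
        rw [mem_inter] at ht
        obtain ⟨w, hw, -⟩ := hcu t ht.2 ht.1
        obtain ⟨w', hw', hww'⟩ := hcu w ((hLmem w).1 (mem_inter.1 hw).1).1 (mem_inter.1 hw).2
        have hne' : w ≠ w' := G.ne_of_nb_36 hww'
        have : ({w, w'} : Finset V) ⊆ L ∩ G.nb u := by
          intro x hx
          rw [mem_insert, mem_singleton] at hx
          rcases hx with rfl | rfl
          · exact hw
          · exact hw'
        have := card_le_card this
        rw [card_pair hne'] at this
        exact this
      have hsum1 : (4 : ℕ) ≤ ∑ w ∈ L ∩ G.nb u, (G.nb w ∩ G.N F).card := by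
        rw [dc_36]
        calc 4 ≤ (G.nb u ∩ G.N F).card := hu4
          _ = ∑ t ∈ G.nb u ∩ G.N F, 1 := by rw [sum_const, smul_eq_mul, mul_one]
          _ ≤ ∑ t ∈ G.nb u ∩ G.N F, (G.nb t ∩ (L ∩ G.nb u)).card := by
            apply sum_le_sum
            intro t ht
            rw [mem_inter] at ht
            obtain ⟨w, hw, hwt⟩ := hcu t ht.2 ht.1
            exact card_pos.2 ⟨w, mem_inter.2 ⟨hwt, hw⟩⟩
          _ ≤ ∑ t ∈ G.N F, (G.nb t ∩ (L ∩ G.nb u)).card :=
            sum_le_sum_of_subset inter_subset_right
      have hsum2 : (6 : ℤ) ≤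
          ∑ w ∈ L, (2 * ((G.nb w ∩ F).card : ℤ) + ((G.nb w ∩ G.N F).card : ℤ) - 3) := by
        calc (6 : ℤ) ≤ ∑ w ∈ L ∩ G.nb u, ((1 : ℤ) + ((G.nb w ∩ G.N F).card : ℤ)) := by
              rw [sum_add_distrib, sum_const, nsmul_eq_mul, mul_one]
              have : ((4 : ℕ) : ℤ) ≤ ((∑ w ∈ L ∩ G.nb u, (G.nb w ∩ G.N F).card : ℕ) : ℤ) := by
                exact_mod_cast hsum1
              push_cast at this
              omega
          _ ≤ ∑ w ∈ L ∩ G.nb u,
              (2 * ((G.nb w ∩ F).card : ℤ) + ((G.nb w ∩ G.N F).card : ℤ) - 3) := by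
            apply sum_le_sum
            intro w hw
            exact hterm w (mem_inter.1 hw).1
          _ ≤ _ := by
            apply sum_le_sum_of_subset_of_nonneg inter_subset_left
            intro w hw _
            have := hterm w hw
            omega
      have : (G.l F : ℤ) = 1 := by exact_mod_cast hl
      omega
    · -- no low in F
      have hl : G.l F = 0 := by omega
      have hnl : ∀ w ∈ F, ¬ G.Low w := by
        intro w hw hlw
        have : w ∈ F.filter fun v => G.Low v := mem_filter.2 ⟨hw, hlw⟩
        have h0 : (F.filter fun v => G.Low v).card = 0 := hl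
        rw [card_eq_zero] at h0
        rw [h0] at this
        exact notMem_empty _ this
      have hcL : ∀ z ∈ F, ∀ t ∈ G.N F, t ∈ G.nb z → ∃ w ∈ L, w ∈ G.nb z ∧ w ∈ G.nb t := by
        intro z hz t ht htz
        rcases hcv z hz t ht htz with h | ⟨w, h1, h2, -⟩
        · exact h
        · exact absurd h2 (hnl w h1)
      -- z misses at most one vertex of N F
      have hmiss : ∀ z ∈ F, ∀ t ∈ G.N F, ∀ t' ∈ G.N F, t ≠ t' → t ∉ G.nb z → t' ∈ G.nb z := by
        intro z hz t ht t' ht' hne' htz
        by_contra htz'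
        have h5 : 5 ≤ (G.nb z ∩ G.N F).card := by
          have a := h4 z hz
          have b := G.deg z
          have c : (G.nb z).card ≠ 6 := hnl z hz
          omega
        have : G.nb z ∩ G.N F ⊆ ((G.N F).erase t).erase t' := by
          intro v hv
          rw [mem_inter] at hv
          rw [mem_erase, mem_erase]
          refine ⟨?_, ?_, hv.2⟩
          · rintro rfl
            exact htz' hv.1
          · rintro rfl
            exact htz hv.1
        have := card_le_card this
        rw [card_erase_of_mem (mem_erase.2 ⟨hne'.symm, ht'⟩), card_erase_of_mem ht] at this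
        omega
      -- every vertex of N F has a neighbour in L
      have hD1 : ∀ t ∈ G.N F, 1 ≤ (G.nb t ∩ L).card := by
        intro t ht
        obtain ⟨⟨z, hz, hzt⟩, -⟩ := (G.mem_N_36 F t).1 ht
        obtain ⟨w, hw, -, hwt⟩ := hcL z hz t ht hzt
        exact card_pos.2 ⟨w, mem_inter.2 ⟨hwt, hw⟩⟩
      -- neighbours of a missing vertex have two neighbours in L
      have hD2 : ∀ w ∈ L, (G.nb w ∩ F).card ≤ 2 → ∀ t ∈ G.N F, t ∈ G.nb w →
          2 ≤ (G.nb t ∩ L).card := by
        intro w hw hw2 t ht htw
        have hwT := ((hLmem w).1 hw).1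
        have : ∃ z ∈ F, w ∉ G.nb z := by
          by_contra hall
          push Not at hall
          have : F ⊆ G.nb w ∩ F := by
            intro z hz
            exact mem_inter.2 ⟨G.sym _ _ (hall z hz), hz⟩
          have := card_le_card this
          omega
        obtain ⟨z, hz, hzw⟩ := this
        have htne : w ≠ t := G.ne_of_nb_36 htw
        have hzt := hmiss z hz w hwT t ht htne hzw
        obtain ⟨w', hw', hw'z, hw't⟩ := hcL z hz t ht hzt
        have hne' : w ≠ w' := by
          rintro rfl
          exact hzw hw'z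
        have : ({w, w'} : Finset V) ⊆ G.nb t ∩ L := by
          intro x hx
          rw [mem_insert, mem_singleton] at hx
          rcases hx with rfl | rfl
          · exact mem_inter.2 ⟨G.sym _ _ htw, hw⟩
          · exact mem_inter.2 ⟨hw't, hw'⟩
        have := card_le_card this
        rw [card_pair hne'] at this
        exact this
      have hsplit : ∑ w ∈ L, (2 * ((G.nb w ∩ F).card : ℤ) + ((G.nb w ∩ G.N F).card : ℤ) - 3) =
          2 * ((∑ w ∈ L, (G.nb w ∩ F).card : ℕ) : ℤ) +
            ((∑ w ∈ L, (G.nb w ∩ G.N F).card : ℕ) : ℤ) - 3 * (L.card : ℤ) := by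
        push_cast
        rw [sum_sub_distrib, sum_add_distrib, ← mul_sum, sum_const, nsmul_eq_mul]
        ring
      rw [hsplit]
      have hDeq := G.dc_36 L (G.N F)
      have hD6 : 6 ≤ ∑ t ∈ G.N F, (G.nb t ∩ L).card := by
        calc 6 = ∑ t ∈ G.N F, 1 := by rw [sum_const, smul_eq_mul, mul_one, hN6]
          _ ≤ _ := sum_le_sum hD1
      have hE : 3 * L.card ≤ (∑ w ∈ L, (G.nb w ∩ F).card) + 3 := by
        rw [dc_36]
        have : ∀ z ∈ F, L.card ≤ (G.nb z ∩ L).card + 1 := by
          intro z hz
          have h1 : (L \ G.nb z).card ≤ 1 := by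
            rw [card_le_one]
            intro a ha b hb
            rw [mem_sdiff] at ha hb
            by_contra hab
            exact hb.2 (hmiss z hz a ((hLmem a).1 ha.1).1 b ((hLmem b).1 hb.1).1 hab ha.2)
          have := card_sdiff_add_card_inter L (G.nb z)
          rw [inter_comm] at this
          omega
        have h := sum_le_sum this
        rw [sum_const, sum_add_distrib, sum_const, hF3, smul_eq_mul, smul_eq_mul] at h
        omega
      have hE2 : ∀ w ∈ L, (G.nb w ∩ F).card ≤ 3 := by
        intro w _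
        have := card_le_card (inter_subset_right (s₁ := G.nb w) (s₂ := F))
        omega
      -- two elements of L
      have hLne : L.Nonempty := by
        have hn : (G.N F).Nonempty := by
          rw [← card_pos]
          omega
        obtain ⟨t, ht⟩ := hn
        have := hD1 t ht
        obtain ⟨w, hw⟩ := card_pos.1 this
        exact ⟨w, (mem_inter.1 hw).2⟩
      -- every element of L has an L-neighbour
      have hLn : ∀ w ∈ L, ∃ w' ∈ L, w' ∈ G.nb w := by
        intro w hw
        obtain ⟨w', hw'⟩ := card_pos.1 (hD1 w ((hLmem w).1 hw).1)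
        exact ⟨w', (mem_inter.1 hw').2, (mem_inter.1 hw').1⟩
      -- if some vertex of L misses a vertex of F
      have hM : ∀ w ∈ L, (G.nb w ∩ F).card ≤ 2 → 3 ≤ L.card ∧
          7 ≤ ∑ t ∈ G.N F, (G.nb t ∩ L).card := by
        intro w hw hw2
        obtain ⟨w', hw', hww'⟩ := hLn w hw
        have hw'T := ((hLmem w').1 hw').1
        have h2 := hD2 w hw hw2 w' hw'T hww'
        constructor
        · have : G.nb w' ∩ L ⊆ L.erase w' := by
            intro x hx
            rw [mem_inter] at hx
            rw [mem_erase]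
            refine ⟨?_, hx.2⟩
            rintro rfl
            exact G.irr _ hx.1
          have := card_le_card this
          rw [card_erase_of_mem hw'] at this
          omega
        · rw [← add_sum_erase _ _ hw'T]
          have : 5 ≤ ∑ t ∈ (G.N F).erase w', (G.nb t ∩ L).card := by
            calc 5 = ∑ t ∈ (G.N F).erase w', 1 := by
                  rw [sum_const, smul_eq_mul, mul_one, card_erase_of_mem hw'T, hN6]
              _ ≤ _ := sum_le_sum fun t ht => hD1 t (mem_erase.1 ht).2
          omega
      -- case distinction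
      by_cases hall : ∀ w ∈ L, 3 ≤ (G.nb w ∩ F).card
      · -- no missing vertex
        have hEe : 3 * L.card ≤ ∑ w ∈ L, (G.nb w ∩ F).card := by
          have := sum_le_sum hall
          rw [sum_const, smul_eq_mul] at this
          omega
        have hL2 : 2 ≤ L.card := by
          obtain ⟨w, hw⟩ := hLne
          obtain ⟨w', hw', hww'⟩ := hLn w hw
          have hne' : w ≠ w' := G.ne_of_nb_36 hww'
          have : ({w, w'} : Finset V) ⊆ L := by
            intro x hx
            rw [mem_insert, mem_singleton] at hx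
            rcases hx with rfl | rfl
            · exact hw
            · exact hw'
          have := card_le_card this
          rw [card_pair hne'] at this
          exact this
        omega
      · push Not at hall
        obtain ⟨w, hw, hw2⟩ := hall
        obtain ⟨hL3, hD7⟩ := hM w hw (by omega)
        rcases Nat.lt_or_ge 3 L.card with hL4 | hL4
        · omega
        · have hLc : L.card = 3 := by omega
          by_cases hE7 : 7 ≤ ∑ w ∈ L, (G.nb w ∩ F).card
          · omega
          · -- all three miss a vertex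
            have hE6 : ∑ w ∈ L, (G.nb w ∩ F).card = 6 := by omega
            have hall2 : ∀ v ∈ L, (G.nb v ∩ F).card ≤ 2 := by
              intro v hv
              by_contra hv3
              have : 2 * (L.erase v).card ≤ ∑ w ∈ L.erase v, (G.nb w ∩ F).card := by
                have := sum_le_sum (s := L.erase v) (f := fun _ => 2)
                  (g := fun w => (G.nb w ∩ F).card)
                  (fun t ht => hd t ((hLmem t).1 (mem_erase.1 ht).2).1)
                rw [sum_const, smul_eq_mul] at this
                omega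
              rw [card_erase_of_mem hv] at this
              rw [← add_sum_erase _ _ hv] at hE6
              omega
            have hD12 : 12 ≤ ∑ t ∈ G.N F, (G.nb t ∩ L).card := by
              calc 12 = ∑ t ∈ G.N F, 2 := by rw [sum_const, smul_eq_mul, hN6]
                _ ≤ _ := by
                  apply sum_le_sum
                  intro t ht
                  obtain ⟨v, hv⟩ := card_pos.1 (hD1 t ht)
                  rw [mem_inter] at hv
                  exact hD2 v hv.2 (hall2 v hv.2) t ht (G.sym _ _ hv.1)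
            omega

end CG

end Pool.Agent.Lib.MP_e95c01_co.N
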