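import Pool.Agent.Lib.MP_e95c01_co.N.StPay36
import Pool.Agent.Lib.MP_e95c01_co.N.StThree36

/-!
# M8: thin strips
-/

namespace Pool.Agent.Lib.MP_e95c01_co.N

open Finset

variable {V : Type} [Fintype V] [DecidableEq V] (G : CG V)

namespace CG

/-- the data of a strip -/
structure Strip36 (A B : Finset V) : Prop where
  ne : A ≠ B
  reg : G.Reg {A, B}
  cov : G.CovR {A, B}
  sub : R {A, B} ⊆ G.N A ∪ G.N B

variable {G}

theorem Strip36.symm {A B : Finset V} (h : G.Strip36 A B) : G.Strip36 B A := by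
  have hp : ({B, A} : Finset (Finset V)) = {A, B} := pair_comm B A
  exact ⟨h.ne.symm, by rw [hp]; exact h.reg, by rw [hp]; exact h.cov,
    by rw [hp, union_comm]; exact h.sub⟩

theorem Strip36.disj {A B : Finset V} (h : G.Strip36 A B) (z : V) (hz : z ∈ G.N A) : z ∉ B := by
  have h1 : A ∈ ({A, B} : Finset (Finset V)) := by simp
  have h2 : B ∈ ({A, B} : Finset (Finset V)) := by simp
  exact disjoint_left.1 (h.reg.dis A h1 B h2 h.ne).2 hz

theorem Strip36.mem_R {A B : Finset V} (z : V) :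
    z ∈ R ({A, B} : Finset (Finset V)) ↔ z ∉ A ∧ z ∉ B := by
  rw [mem_R_36]
  simp

theorem Strip36.memI {A B : Finset V} (z : V) (C : Finset V) :
    C ∈ G.I {A, B} z ↔ (C = A ∨ C = B) ∧ z ∈ G.N C := by
  rw [mem_I_36]
  simp

theorem Strip36.NA_R {A B : Finset V} (h : G.Strip36 A B) (z : V) (hz : z ∈ G.N A) :
    z ∈ R ({A, B} : Finset (Finset V)) := by
  rw [Strip36.mem_R]
  exact ⟨((G.mem_N_36 A z).1 hz).2, h.disj z hz⟩

theorem Strip36.NB_R {A B : Finset V} (h : G.Strip36 A B) (z : V) (hz : z ∈ G.N B) :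
    z ∈ R ({A, B} : Finset (Finset V)) := by
  rw [Strip36.mem_R]
  exact ⟨h.symm.disj z hz, ((G.mem_N_36 B z).1 hz).2⟩

theorem Strip36.IY {A B : Finset V} (z : V) (hz : z ∈ G.N A \ G.N B) :
    G.I {A, B} z = {A} := by
  rw [mem_sdiff] at hz
  ext C
  rw [Strip36.memI, mem_singleton]
  constructor
  · rintro ⟨rfl | rfl, h⟩
    · rfl
    · exact absurd h hz.2
  · rintro rfl
    exact ⟨Or.inl rfl, hz.1⟩

theorem Strip36.IS {A B : Finset V} (z : V) (hz : z ∈ G.N B \ G.N A) :
    G.I {A, B} z = {B} := by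
  rw [mem_sdiff] at hz
  ext C
  rw [Strip36.memI, mem_singleton]
  constructor
  · rintro ⟨rfl | rfl, h⟩
    · exact absurd h hz.2
    · rfl
  · rintro rfl
    exact ⟨Or.inr rfl, hz.1⟩

theorem Strip36.IK {A B : Finset V} (z : V) (hz : z ∈ G.N A ∩ G.N B) :
    G.I {A, B} z = {A, B} := by
  rw [mem_inter] at hz
  ext C
  rw [Strip36.memI, mem_insert, mem_singleton]
  constructor
  · rintro ⟨h, -⟩
    exact h
  · rintro (rfl | rfl)
    · exact ⟨Or.inl rfl, hz.1⟩
    · exact ⟨Or.inr rfl, hz.2⟩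

theorem Strip36.co {A B : Finset V} (h : G.Strip36 A B) (z : V) (hz : z ∈ G.N A \ G.N B) :
    G.nb z ∩ G.Co A = G.nb z ∩ (G.N B \ G.N A) := by
  rw [mem_sdiff] at hz
  ext v
  rw [mem_inter, mem_inter, mem_Co_36, mem_sdiff]
  constructor
  · rintro ⟨h1, h2, h3⟩
    refine ⟨h1, ?_, h3⟩
    have hvB : v ∉ B := by
      intro hv
      exact hz.2 ((G.mem_N_36 B z).2 ⟨⟨v, hv, G.sym _ _ h1⟩, h.disj z hz.1⟩)
    rcases mem_union.1 (h.sub ((Strip36.mem_R v).2 ⟨h2, hvB⟩)) with h4 | h4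
    · exact absurd h4 h3
    · exact h4
  · rintro ⟨h1, h2, h3⟩
    exact ⟨h1, h.symm.disj v h2, h3⟩

theorem Strip36.R_eq {A B : Finset V} (h : G.Strip36 A B) :
    R ({A, B} : Finset (Finset V)) =
      ((G.N A \ G.N B) ∪ (G.N B \ G.N A)) ∪ (G.N A ∩ G.N B) := by
  ext v
  constructor
  · intro hv
    have := h.sub hv
    rw [mem_union] at this
    simp only [mem_union, mem_inter, mem_sdiff]
    by_cases h1 : v ∈ G.N A <;> by_cases h2 : v ∈ G.N B <;> simp_all
  · intro hv
    simp only [mem_union, mem_inter, mem_sdiff] at hv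
    rcases hv with (hv | hv) | hv
    · exact h.NA_R v hv.1
    · exact h.NB_R v hv.1
    · exact h.NA_R v hv.1

theorem Strip36.sum {A B : Finset V} (h : G.Strip36 A B) (f : V → ℤ) :
    ∑ z ∈ R ({A, B} : Finset (Finset V)), f z =
      ∑ z ∈ G.N A \ G.N B, f z + ∑ z ∈ G.N B \ G.N A, f z + ∑ z ∈ G.N A ∩ G.N B, f z := by
  rw [h.R_eq, sum_union, sum_union]
  · rw [disjoint_left]
    intro v h1 h2
    exact (mem_sdiff.1 h2).2 (mem_sdiff.1 h1).1
  · rw [disjoint_left]
    intro v h1 h2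
    rw [mem_inter] at h2
    rcases mem_union.1 h1 with h3 | h3
    · exact (mem_sdiff.1 h3).2 h2.2
    · exact (mem_sdiff.1 h3).2 h2.1

theorem Strip36.card_eq {A B : Finset V} (h : G.Strip36 A B) :
    (G.N A \ G.N B).card = (G.N B \ G.N A).card := by
  have h1 := (h.reg.frag A (by simp)).2.1
  have h2 := (h.reg.frag B (by simp)).2.1
  have h3 := card_sdiff_add_card_inter (G.N A) (G.N B)
  have h4 := card_sdiff_add_card_inter (G.N B) (G.N A)
  rw [inter_comm] at h4
  omega

theorem Strip36.chK {A B : Finset V} (h : G.Strip36 A B) (hcharge : G.StCharge) (z : V)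
    (hz : z ∈ G.N A ∩ G.N B) : 0 ≤ G.ch {A, B} z ∧ (∀ u, G.Low u → z ∈ G.nb u →
      u ∈ G.N A \ G.N B ∨ u ∈ G.N B \ G.N A → 1 ≤ G.ch {A, B} z) ∧
      (∀ u u', u ≠ u' → G.Low u → G.Low u' → z ∈ G.nb u → z ∈ G.nb u' →
      (u ∈ G.N A \ G.N B ∨ u ∈ G.N B \ G.N A) → (u' ∈ G.N A \ G.N B ∨ u' ∈ G.N B \ G.N A) →
      2 ≤ G.ch {A, B} z) := by
  have hzR := h.NA_R z (mem_inter.1 hz).1
  have hc := (hcharge _ h.reg h.cov z hzR).2.2 (by
    rw [Strip36.IK z hz, card_pair h.ne])
  have hm : ∀ u, G.Low u → z ∈ G.nb u → u ∈ G.N A \ G.N B ∨ u ∈ G.N B \ G.N A →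
      u ∈ (G.nR {A, B} z).filter fun x => G.Low x ∧ G.m {A, B} x z ≤ 1 := by
    intro u hu hzu huK
    rw [mem_filter]
    refine ⟨?_, hu, ?_⟩
    · unfold nR
      rw [mem_inter]
      refine ⟨G.sym _ _ hzu, ?_⟩
      rcases huK with h1 | h1
      · exact h.NA_R u (mem_sdiff.1 h1).1
      · exact h.NB_R u (mem_sdiff.1 h1).1
    · unfold m
      calc (G.I {A, B} u ∩ G.I {A, B} z).card ≤ (G.I {A, B} u).card :=
            card_le_card inter_subset_left
        _ ≤ 1 := by
          rcases huK with h1 | h1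
          · rw [Strip36.IY u h1, card_singleton]
          · rw [Strip36.IS u h1, card_singleton]
  refine ⟨by omega, ?_, ?_⟩
  · intro u hu hzu huK
    have := card_pos.2 ⟨u, hm u hu hzu huK⟩
    omega
  · intro u u' hne hu hu' hzu hzu' huK huK'
    have hsub : ({u, u'} : Finset V) ⊆
        (G.nR {A, B} z).filter fun x => G.Low x ∧ G.m {A, B} x z ≤ 1 := by
      intro x hx
      rw [mem_insert, mem_singleton] at hx
      rcases hx with rfl | rfl
      · exact hm _ hu hzu huK
      · exact hm _ hu' hzu' huK'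
    have := card_le_card hsub
    rw [card_pair hne] at this
    omega

/-- the exceptional case -/
theorem Strip36.exc {A B : Finset V} (h : G.Strip36 A B) (hcharge : G.StCharge)
    (hpay : G.StPay)
    (hexp : ∀ Z : Finset V, Z.Nonempty → Z ⊂ G.N A \ G.N B →
      Z.card < (G.N Z ∩ (G.N B \ G.N A)).card)
    (ha : 2 ≤ (G.N A \ G.N B).card) (y : V) (hy : y ∈ G.N A \ G.N B)
    (hneg : G.e {A, B} y < 0) : 0 ≤ ∑ z ∈ R {A, B}, G.ch {A, B} z := by
  classical
  have hyR := h.NA_R y (mem_sdiff.1 hy).1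
  obtain ⟨-, hnl, hlow, hQ⟩ := hpay _ h.reg h.cov
  have hch := hcharge _ h.reg h.cov
  have hl : G.Low y := by
    by_contra hl
    have := (hnl y hyR hl).2
    omega
  have hQy := hQ y hyR A (Strip36.IY y hy) hl
  have hQmem : ∀ x, x ∈ G.Q {A, B} y ↔ x ∈ G.nb y ∧ x ∈ R {A, B} ∧ G.N3 {A, B} x := by
    intro x
    unfold Q nR
    rw [mem_filter, mem_inter]
    tauto
  have hynQ : y ∉ G.Q {A, B} y := by
    intro h
    exact G.irr y ((hQmem y).1 h).1
  -- Q is contained in Y
  have hQY : G.Q {A, B} y ⊆ G.N A \ G.N B := by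
    intro x hx
    have hIx := (hQy x hx).1
    rw [mem_sdiff]
    constructor
    · have : A ∈ G.I {A, B} x := by
        rw [hIx]
        exact mem_singleton_self A
      exact ((Strip36.memI x A).1 this).2
    · intro hxB
      have : B ∈ G.I {A, B} x := (Strip36.memI x B).2 ⟨Or.inr rfl, hxB⟩
      rw [hIx] at this
      exact h.ne (mem_singleton.1 this).symm
  have hZY : insert y (G.Q {A, B} y) ⊆ G.N A \ G.N B := by
    intro x hx
    rcases mem_insert.1 hx with rfl | hx
    · exact hy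
    · exact hQY hx
  have hYS : ∀ z ∈ G.N A \ G.N B, z ∉ G.N B \ G.N A := by
    intro z hz hz'
    exact (mem_sdiff.1 hz').2 (mem_sdiff.1 hz).1
  have hNZ : G.N (insert y (G.Q {A, B} y)) ∩ (G.N B \ G.N A) = G.nb y ∩ (G.N B \ G.N A) := by
    ext v
    rw [mem_inter, mem_inter, mem_N_36]
    constructor
    · rintro ⟨⟨⟨u, hu, huv⟩, -⟩, hvS⟩
      refine ⟨?_, hvS⟩
      rcases mem_insert.1 hu with rfl | hu
      · exact huv
      · have h1 := (hQy u hu).2
        rw [h.co u (hQY hu), h.co y hy] at h1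
        exact (mem_inter.1 (h1 (mem_inter.2 ⟨huv, hvS⟩))).1
    · rintro ⟨h1, h2⟩
      refine ⟨⟨⟨y, mem_insert_self _ _, h1⟩, ?_⟩, h2⟩
      intro h3
      exact hYS v (hZY h3) h2
  set q := (G.Q {A, B} y).card with hq
  have hcZ : (insert y (G.Q {A, B} y)).card = q + 1 := card_insert_of_notMem hynQ
  have hdy : G.d y (G.Co A) = (G.nb y ∩ (G.N B \ G.N A)).card := by
    unfold d
    rw [h.co y hy]
  -- Z = Y
  have hZe : insert y (G.Q {A, B} y) = G.N A \ G.N B := by
    by_contra hne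
    have := hexp _ ⟨y, mem_insert_self _ _⟩ (Finset.ssubset_iff_subset_ne.2 ⟨hZY, hne⟩)
    rw [hNZ, hcZ, ← hdy] at this
    have := hlow y hyR hl (by
      intro B' hB'
      rw [Strip36.IY y hy] at hB'
      rw [← singleton_injective hB']
      omega)
    omega
  have hq1 : q + 1 = (G.N A \ G.N B).card := by rw [← hZe, hcZ]
  have hQne : (G.Q {A, B} y).Nonempty := by
    rw [← card_pos]
    omega
  -- N(Q) covers S
  have hQS : G.N B \ G.N A ⊆ G.N (G.Q {A, B} y) := by
    have h1 := hexp _ hQne (by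
      rw [Finset.ssubset_iff_subset_ne]
      refine ⟨hQY, ?_⟩
      intro he
      rw [he] at hynQ
      exact hynQ hy)
    have h2 : G.N (G.Q {A, B} y) ∩ (G.N B \ G.N A) = G.N B \ G.N A := by
      apply eq_of_subset_of_card_le inter_subset_right
      rw [← h.card_eq]
      omega
    rw [← h2]
    exact inter_subset_left
  have hSy : G.N B \ G.N A ⊆ G.nb y := by
    intro v hv
    obtain ⟨⟨u, hu, huv⟩, -⟩ := (G.mem_N_36 _ v).1 (hQS hv)
    have h1 := (hQy u hu).2
    rw [h.co u (hQY hu), h.co y hy] at h1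
    exact (mem_inter.1 (h1 (mem_inter.2 ⟨huv, hv⟩))).1
  -- S is nonlow
  have hSnl : ∀ t ∈ G.N B \ G.N A, ¬ G.Low t := by
    intro t ht htl
    obtain ⟨⟨u, hu, hut⟩, -⟩ := (G.mem_N_36 _ t).1 (hQS ht)
    have hu0 := (hQmem u).1 hu
    obtain ⟨-, -, B', -, -, hs⟩ := hu0.2.2
    have h1 : t ∈ (G.nR {A, B} u).filter fun v => G.Low v := by
      rw [mem_filter]
      exact ⟨mem_inter.2 ⟨hut, h.NB_R t (mem_sdiff.1 ht).1⟩, htl⟩
    have h2 : y ∈ (G.nR {A, B} u).filter fun v => G.Low v := by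
      rw [mem_filter]
      exact ⟨mem_inter.2 ⟨G.sym _ _ hu0.1, hyR⟩, hl⟩
    have h3 : t = y := card_le_one.1 (le_of_eq hs) t h1 y h2
    subst h3
    exact hYS t hy ht
  -- all of Y is low
  have hYl : ∀ z ∈ G.N A \ G.N B, G.Low z := by
    intro z hz
    rw [← hZe] at hz
    rcases mem_insert.1 hz with rfl | hz
    · exact hl
    · exact ((hQmem z).1 hz).2.2.2.1
  -- charges
  have hchy : (2 * (q : ℤ) - 3) ≤ G.ch {A, B} y := by
    have h1 := ((hch y hyR).2.1 A (Strip36.IY y hy)).2.2.2 hl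
    have h2 : G.d y (G.Co A) = q + 1 := by
      rw [hdy, inter_eq_right.2 hSy, ← h.card_eq, hq1]
    have h3 : q ≤ G.s {A, B} y := by
      apply card_le_card
      intro x hx
      rw [hQmem] at hx
      rw [mem_filter]
      exact ⟨mem_inter.2 ⟨hx.1, hx.2.1⟩, hx.2.2.2.1⟩
    omega
  have hchQ : ∀ x ∈ G.Q {A, B} y, G.ch {A, B} x = -1 ∧ (G.nb x ∩ (G.N B \ G.N A)).card = 2 := by
    intro x hx
    have hx0 := (hQmem x).1 hx
    obtain ⟨-, hxl, B', hB', hd2, hs⟩ := hx0.2.2
    rw [Strip36.IY x (hQY hx)] at hB'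
    have hAB : A = B' := singleton_injective hB'
    subst hAB
    have h1 := ((hch x hx0.2.1).2.1 A (Strip36.IY x (hQY hx))).2.2.2 hxl
    refine ⟨by omega, ?_⟩
    rw [← h.co x (hQY hx)]
    exact hd2
  have hYsum : (q : ℤ) - 3 ≤ ∑ z ∈ G.N A \ G.N B, G.ch {A, B} z := by
    rw [← hZe, sum_insert hynQ, sum_congr rfl (fun x hx => (hchQ x hx).1), sum_const,
      nsmul_eq_mul]
    omega
  -- S
  have hcount : ∑ t ∈ G.N B \ G.N A, (G.nb t ∩ (G.N A \ G.N B)).card = 3 * q + 1 := by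
    rw [← dc_36]
    rw [← hZe, sum_insert hynQ, sum_congr rfl (fun x hx => (hchQ x hx).2), sum_const,
      inter_eq_right.2 hSy, ← h.card_eq, ← hq1, smul_eq_mul]
    omega
  have hSsum : 2 * (q : ℤ) ≤ ∑ z ∈ G.N B \ G.N A, G.ch {A, B} z := by
    have h1 : ∀ t ∈ G.N B \ G.N A, ((G.nb t ∩ (G.N A \ G.N B)).card : ℤ) - 1 ≤
        G.ch {A, B} t := by
      intro t ht
      have h2 := ((hch t (h.NB_R t (mem_sdiff.1 ht).1)).2.1 B (Strip36.IS t ht)).2.2.1 (hSnl t ht)
      have h3 : (G.nb t ∩ (G.N A \ G.N B)).card ≤ G.s {A, B} t := by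
        apply card_le_card
        intro x hx
        rw [mem_inter] at hx
        rw [mem_filter]
        exact ⟨mem_inter.2 ⟨hx.1, h.NA_R x (mem_sdiff.1 hx.2).1⟩, hYl x hx.2⟩
      omega
    have h2 := sum_le_sum h1
    rw [sum_sub_distrib, sum_const, nsmul_eq_mul, mul_one, ← h.card_eq, ← hq1] at h2
    have h3 : ∑ t ∈ G.N B \ G.N A, ((G.nb t ∩ (G.N A \ G.N B)).card : ℤ) =
        ((3 * q + 1 : ℕ) : ℤ) := by
      rw [← hcount]
      push_cast
      rfl
    rw [h3] at h2
    push_cast at h2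
    omega
  have hKsum : 0 ≤ ∑ z ∈ G.N A ∩ G.N B, G.ch {A, B} z :=
    sum_nonneg fun z hz => (h.chK hcharge z hz).1
  rw [h.sum]
  omega

/-- one vertex on each side -/
theorem Strip36.one {A B : Finset V} (h : G.Strip36 A B) (hcharge : G.StCharge)
    (ha : (G.N A \ G.N B).card = 1) : 0 ≤ ∑ z ∈ R {A, B}, G.ch {A, B} z := by
  classical
  obtain ⟨z, hz⟩ := card_eq_one.1 ha
  obtain ⟨t, ht⟩ := card_eq_one.1 (h.card_eq.symm.trans ha)
  have hzY : z ∈ G.N A \ G.N B := by
    rw [hz]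
    exact mem_singleton_self z
  have htS : t ∈ G.N B \ G.N A := by
    rw [ht]
    exact mem_singleton_self t
  have hzR := h.NA_R z (mem_sdiff.1 hzY).1
  have htR := h.NB_R t (mem_sdiff.1 htS).1
  have hch := hcharge _ h.reg h.cov
  obtain ⟨hs1, hd1, hznl, hzl⟩ := (hch z hzR).2.1 A (Strip36.IY z hzY)
  obtain ⟨ht1, hdt1, htnl, htl⟩ := (hch t htR).2.1 B (Strip36.IS t htS)
  -- the edge z t
  have hco : G.nb z ∩ G.Co A = G.nb z ∩ {t} := by rw [h.co z hzY, ht]
  have hpair : ({B, A} : Finset (Finset V)) = {A, B} := pair_comm B A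
  have hco' : G.nb t ∩ G.Co B = G.nb t ∩ {z} := by rw [h.symm.co t htS, hz]
  have hzt : t ∈ G.nb z := by
    unfold d at hd1
    obtain ⟨v, hv⟩ := card_pos.1 hd1
    rw [hco, mem_inter, mem_singleton] at hv
    rw [← hv.2]
    exact hv.1
  have hdz : G.d z (G.Co A) = 1 := by
    unfold d
    rw [hco, inter_singleton_of_mem hzt, card_singleton]
  have hdt : G.d t (G.Co B) = 1 := by
    unfold d
    rw [hco', inter_singleton_of_mem (G.sym _ _ hzt), card_singleton]
  have htCo : t ∈ G.nb z ∩ G.Co A := by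
    rw [hco, mem_inter]
    exact ⟨hzt, mem_singleton_self t⟩
  obtain ⟨w, hwl, hwz, hwt⟩ := h.cov.c1 z hzR A (Strip36.IY z hzY) t htCo
  have hwR := G.host_36 _ z hzR A (Strip36.IY z hzY) t (mem_inter.1 htCo).2 w hwz hwt
  have hztne : z ≠ t := G.ne_of_nb_36 hzt
  have hwK : w ∈ G.N A ∩ G.N B := by
    rw [h.R_eq, mem_union, mem_union, hz, ht, mem_singleton, mem_singleton] at hwR
    rcases hwR with (rfl | rfl) | h1
    · exact absurd hwz (G.irr w)
    · exact absurd hwt (G.irr w)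
    · exact h1
  -- the low neighbours in K
  have hszA : G.s {A, B} z = ((G.nb z ∩ (G.N A ∩ G.N B)).filter fun v => G.Low v).card +
      (if G.Low t then 1 else 0) := by
    have h1 : (G.nR {A, B} z).filter (fun v => G.Low v) =
        ((G.nb z ∩ (G.N A ∩ G.N B)).filter fun v => G.Low v) ∪
          (({t} : Finset V).filter fun v => G.Low v) := by
      ext v
      unfold nR
      rw [h.R_eq, hz, ht]
      simp only [mem_filter, mem_union, mem_inter, mem_singleton]
      constructor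
      · rintro ⟨⟨h1, (rfl | rfl) | h2⟩, h3⟩
        · exact absurd h1 (G.irr v)
        · exact Or.inr ⟨rfl, h3⟩
        · exact Or.inl ⟨⟨h1, h2⟩, h3⟩
      · rintro (⟨⟨h1, h2⟩, h3⟩ | ⟨rfl, h3⟩)
        · exact ⟨⟨h1, Or.inr h2⟩, h3⟩
        · exact ⟨⟨hzt, Or.inl (Or.inr rfl)⟩, h3⟩
    unfold s
    rw [h1, card_union_of_disjoint]
    · congr 1
      rw [filter_singleton]
      split_ifs <;> simp
    · rw [disjoint_left]
      intro v h2 h3
      have h4 := (mem_filter.1 h3).1
      rw [mem_singleton] at h4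
      subst h4
      exact (mem_sdiff.1 htS).2 (mem_inter.1 (mem_inter.1 (mem_filter.1 h2).1).2).1
  have hstA : G.s {A, B} t = ((G.nb t ∩ (G.N A ∩ G.N B)).filter fun v => G.Low v).card +
      (if G.Low z then 1 else 0) := by
    have h1 : (G.nR {A, B} t).filter (fun v => G.Low v) =
        ((G.nb t ∩ (G.N A ∩ G.N B)).filter fun v => G.Low v) ∪
          (({z} : Finset V).filter fun v => G.Low v) := by
      ext v
      unfold nR
      rw [h.R_eq, hz, ht]
      simp only [mem_filter, mem_union, mem_inter, mem_singleton]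
      constructor
      · rintro ⟨⟨h1, (rfl | rfl) | h2⟩, h3⟩
        · exact Or.inr ⟨rfl, h3⟩
        · exact absurd h1 (G.irr v)
        · exact Or.inl ⟨⟨h1, h2⟩, h3⟩
      · rintro (⟨⟨h1, h2⟩, h3⟩ | ⟨rfl, h3⟩)
        · exact ⟨⟨h1, Or.inr h2⟩, h3⟩
        · exact ⟨⟨G.sym _ _ hzt, Or.inl (Or.inl rfl)⟩, h3⟩
    unfold s
    rw [h1, card_union_of_disjoint]
    · congr 1
      rw [filter_singleton]
      split_ifs <;> simp
    · rw [disjoint_left]
      intro v h2 h3
      have h4 := (mem_filter.1 h3).1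
      rw [mem_singleton] at h4
      subst h4
      exact (mem_sdiff.1 hzY).2 (mem_inter.1 (mem_inter.1 (mem_filter.1 h2).1).2).2
  have hal : 1 ≤ ((G.nb z ∩ (G.N A ∩ G.N B)).filter fun v => G.Low v).card :=
    card_pos.2 ⟨w, mem_filter.2 ⟨mem_inter.2 ⟨G.sym _ _ hwz, hwK⟩, hwl⟩⟩
  have hbe : 1 ≤ ((G.nb t ∩ (G.N A ∩ G.N B)).filter fun v => G.Low v).card :=
    card_pos.2 ⟨w, mem_filter.2 ⟨mem_inter.2 ⟨G.sym _ _ hwt, hwK⟩, hwl⟩⟩
  -- the sum over K
  have hK : (if G.Low z then (((G.nb z ∩ (G.N A ∩ G.N B)).filter fun v => G.Low v).card : ℤ)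
        else 0) +
      (if G.Low t then (((G.nb t ∩ (G.N A ∩ G.N B)).filter fun v => G.Low v).card : ℤ)
        else 0) ≤ ∑ v ∈ G.N A ∩ G.N B, G.ch {A, B} v := by
    have h1 : ∀ v ∈ G.N A ∩ G.N B,
        (if G.Low z ∧ v ∈ G.nb z ∧ G.Low v then (1 : ℤ) else 0) +
        (if G.Low t ∧ v ∈ G.nb t ∧ G.Low v then (1 : ℤ) else 0) ≤ G.ch {A, B} v := by
      intro v hv
      obtain ⟨k0, k1, k2⟩ := h.chK hcharge v hv
      by_cases h3 : G.Low z ∧ v ∈ G.nb z ∧ G.Low v
      · by_cases h4 : G.Low t ∧ v ∈ G.nb t ∧ G.Low v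
        · rw [if_pos h3, if_pos h4]
          exact k2 z t hztne h3.1 h4.1 h3.2.1 h4.2.1 (Or.inl hzY) (Or.inr htS)
        · rw [if_pos h3, if_neg h4]
          have := k1 z h3.1 h3.2.1 (Or.inl hzY)
          omega
      · by_cases h4 : G.Low t ∧ v ∈ G.nb t ∧ G.Low v
        · rw [if_neg h3, if_pos h4]
          have := k1 t h4.1 h4.2.1 (Or.inr htS)
          omega
        · rw [if_neg h3, if_neg h4]
          omega
    refine le_trans (le_of_eq ?_) (sum_le_sum h1)
    rw [sum_add_distrib]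
    congr 1
    · by_cases hl : G.Low z
      · rw [if_pos hl, ← sum_filter, sum_const, nsmul_eq_mul, mul_one]
        congr 2
        ext v
        simp only [mem_filter, mem_inter]
        tauto
      · rw [if_neg hl]
        symm
        apply sum_eq_zero
        intro v _
        rw [if_neg]
        exact fun h => hl h.1
    · by_cases hl : G.Low t
      · rw [if_pos hl, ← sum_filter, sum_const, nsmul_eq_mul, mul_one]
        congr 2
        ext v
        simp only [mem_filter, mem_inter]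
        tauto
      · rw [if_neg hl]
        symm
        apply sum_eq_zero
        intro v _
        rw [if_neg]
        exact fun h => hl h.1
  rw [h.sum, hz, ht, sum_singleton, sum_singleton]
  by_cases h1 : G.Low z
  · by_cases h2 : G.Low t
    · have e1 := hzl h1
      have e2 := htl h2
      simp only [if_pos h1, if_pos h2] at hK hszA hstA
      omega
    · have e1 := hzl h1
      have e2 := htnl h2
      simp only [if_pos h1, if_neg h2] at hK hszA hstA
      omega
  · by_cases h2 : G.Low t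
    · have e1 := hznl h1
      have e2 := htl h2
      simp only [if_neg h1, if_pos h2] at hK hszA hstA
      omega
    · have e1 := hznl h1
      have e2 := htnl h2
      simp only [if_neg h1, if_neg h2] at hK hszA hstA
      omega

variable (G)

theorem stThin_36 (hcharge : G.StCharge) (hpay : G.StPay) : G.StThin := by
  classical
  intro A B hne hR hC hsub hexp1 hexp2
  have h : G.Strip36 A B := ⟨hne, hR, hC, hsub⟩
  have hpair : ({B, A} : Finset (Finset V)) = {A, B} := pair_comm B A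
  rcases Nat.lt_or_ge (G.N A \ G.N B).card 2 with ha | ha
  · rcases Nat.lt_or_ge (G.N A \ G.N B).card 1 with ha' | ha'
    · -- a = 0
      have h0 : G.N A \ G.N B = ∅ := card_eq_zero.1 (by omega)
      have h1 : G.N B \ G.N A = ∅ := card_eq_zero.1 (by rw [← h.card_eq]; omega)
      rw [h.sum, h0, h1, sum_empty, zero_add, zero_add]
      exact sum_nonneg fun z hz => (h.chK hcharge z hz).1
    · exact h.one hcharge (by omega)
  · by_cases hY : ∃ y ∈ G.N A \ G.N B, G.e {A, B} y < 0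
    · obtain ⟨y, hy, hneg⟩ := hY
      exact h.exc hcharge hpay hexp1 ha y hy hneg
    · by_cases hS : ∃ y ∈ G.N B \ G.N A, G.e {A, B} y < 0
      · obtain ⟨y, hy, hneg⟩ := hS
        rw [← hpair] at hneg ⊢
        exact h.symm.exc hcharge hpay hexp2 (by rw [← h.card_eq]; exact ha) y hy hneg
      · push Not at hY hS
        obtain ⟨hsum, hnl, hlow, -⟩ := hpay _ hR hC
        rw [hsum, h.sum]
        have hK : 0 ≤ ∑ z ∈ G.N A ∩ G.N B, G.e {A, B} z := by
          apply sum_nonneg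
          intro z hz
          have hzR := h.NA_R z (mem_inter.1 hz).1
          by_cases hl : G.Low z
          · apply hlow z hzR hl
            intro C hC'
            exfalso
            have h1 : (G.I {A, B} z).card = 2 := by rw [Strip36.IK z hz, card_pair hne]
            rw [hC', card_singleton] at h1
            omega
          · exact (hnl z hzR hl).2
        have h1 := sum_nonneg hY
        have h2 := sum_nonneg hS
        omega

end CG

end Pool.Agent.Lib.MP_e95c01_co.N
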