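import Pool.Agent.Lib.MP_e95c01_co.N.Basic37
import Pool.Agent.Lib.MP_e95c01_co.N.Charge37
import Pool.Agent.Lib.MP_e95c01_co.N.StStruct53
import Pool.Agent.Lib.MP_e95c01_co.N.StPay36
import Pool.Agent.Lib.MP_e95c01_co.N.StThin36
import Pool.Agent.Lib.MP_e95c01_co.N.StBase36
import Pool.Agent.Lib.MP_e95c01_co.N.StThree36
import Pool.Agent.Lib.MP_e95c01_co.N.Transfer53

/-!
# Assembly
-/

namespace Pool.Agent.Lib.MP_e95c01_co.N

namespace CG

theorem stN2 {V : Type} [Fintype V] [DecidableEq V] (G : CG V) : G.StN2 := by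
  have h6 := G.stN6_37
  have hco := G.stCo_37
  have hu := G.stUnion_37
  have hps := G.stPsum_37
  have hst := G.stStruct_53 h6 hco
  have hfu := G.stFamU_37 h6 hu
  have hfam := G.stFam_37 h6 hu hst hfu
  have hid := G.stIdent_76
  have hch := G.stCharge_37 hco
  have hpay := G.stPay_36 hch
  have hd := G.stDisch_37 hpay
  have hth := G.stThin_36 hch hpay
  have hb := G.stBase_36 hpay hch hid hps hco
  have h3 := G.stThree_36 h6
  exact G.stN2_37 hco hps hid hch (G.stMain_37 h6 hco hps hst hfam hid hd hth hb h3)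

end CG

end Pool.Agent.Lib.MP_e95c01_co.N
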