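import Pool.Agent.Lib.MP_e95c01_co.N.Defs37

/-!
# The additivity identity
-/

namespace Pool.Agent.Lib.MP_e95c01_co.N

open Finset

variable {V : Type} [Fintype V] [DecidableEq V]

namespace CG

variable {G : CG V} {Fa : Finset (Finset V)}

theorem mem_N76 {S : Finset V} {v : V} : v ∈ G.N S ↔ v ∉ S ∧ ∃ u ∈ S, v ∈ G.nb u := by
  simp only [N, mem_sdiff, mem_biUnion]
  exact and_comm

theorem mem_Co76 {S : Finset V} {v : V} : v ∈ G.Co S ↔ v ∉ S ∧ v ∉ G.N S := by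
  simp [Co]

theorem mem_R76 {v : V} : v ∈ R Fa ↔ ∀ B ∈ Fa, v ∉ B := by
  simp [R]

theorem mem_I76 {z : V} {B : Finset V} : B ∈ G.I Fa z ↔ B ∈ Fa ∧ z ∈ G.N B := by
  simp [I]

theorem N_sub_R76 (h : G.Reg Fa) {B : Finset V} (hB : B ∈ Fa) : G.N B ⊆ R Fa := by
  intro v hv
  rw [mem_R76]
  intro B' hB' hv'
  by_cases hE : B = B'
  · subst hE
    exact (mem_N76.1 hv).1 hv'
  · exact (Finset.disjoint_left.1 (h.dis B hB B' hB' hE).2) hv hv'

/-- sums over `V` split into the sum over `R` and the sums over the members -/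
theorem sum_split76 (h : G.Reg Fa) (f : V → ℤ) :
    ∑ v, f v = ∑ v ∈ R Fa, f v + ∑ B ∈ Fa, ∑ v ∈ B, f v := by
  have h1 : ∑ B ∈ Fa, ∑ v ∈ B, f v = ∑ v ∈ Fa.biUnion id, f v := by
    rw [Finset.sum_biUnion]
    · rfl
    · intro B hB B' hB' hne
      exact (h.dis B hB B' hB' hne).1
  rw [h1, R, add_comm, Finset.sum_add_sum_compl]

/-- sums over the neighbourhoods of the members -/
theorem sum_N76 (h : G.Reg Fa) (f : Finset V → V → ℤ) :
    ∑ B ∈ Fa, ∑ v ∈ G.N B, f B v = ∑ v ∈ R Fa, ∑ B ∈ G.I Fa v, f B v := by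
  have h1 : ∀ B ∈ Fa, ∑ v ∈ G.N B, f B v = ∑ v ∈ R Fa, if v ∈ G.N B then f B v else 0 := by
    intro B hB
    rw [← Finset.sum_filter]
    apply Finset.sum_congr _ (fun _ _ => rfl)
    ext v
    rw [mem_filter]
    exact ⟨fun hv => ⟨N_sub_R76 h hB hv, hv⟩, fun hv => hv.2⟩
  rw [Finset.sum_congr rfl h1, Finset.sum_comm]
  apply Finset.sum_congr rfl
  intro v _
  rw [I, Finset.sum_filter]

theorem d_split76 (w : V) (B : Finset V) :
    G.d w B + (G.nb w ∩ G.N B).card + G.d w (G.Co B) = (G.nb w).card := by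
  have h1 : G.nb w = (G.nb w ∩ B) ∪ (G.nb w ∩ G.N B) ∪ (G.nb w ∩ G.Co B) := by
    ext v
    simp only [mem_union, mem_inter, mem_Co76]
    by_cases a : v ∈ B <;> by_cases b : v ∈ G.N B <;> simp [a, b]
  have h2 : Disjoint (G.nb w ∩ B) (G.nb w ∩ G.N B) := by
    rw [Finset.disjoint_left]
    intro v hv hv'
    simp only [mem_inter] at hv hv'
    exact (mem_N76.1 hv'.2).1 hv.2
  have h3 : Disjoint ((G.nb w ∩ B) ∪ (G.nb w ∩ G.N B)) (G.nb w ∩ G.Co B) := by
    rw [Finset.disjoint_left]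
    intro v hv hv'
    simp only [mem_union, mem_inter, mem_Co76] at hv hv'
    rcases hv with hv | hv
    · exact hv'.2.1 hv.2
    · exact hv'.2.2 hv.2
  have h4 := Finset.card_union_of_disjoint h3
  have h5 := Finset.card_union_of_disjoint h2
  rw [← h1, h5] at h4
  unfold d
  omega

theorem d_zero76 {w : V} {B : Finset V} (hw : w ∉ B) (hN : w ∉ G.N B) : G.d w B = 0 := by
  unfold d
  rw [Finset.card_eq_zero, Finset.eq_empty_iff_forall_notMem]
  intro v hv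
  rw [mem_inter] at hv
  exact hN (mem_N76.2 ⟨hw, v, hv.2, G.sym _ _ hv.1⟩)

/-- the neighbours of a vertex of `R` -/
theorem nb_split76 (h : G.Reg Fa) {w : V} (hw : w ∈ R Fa) :
    ((G.nR Fa w).card : ℤ) + ∑ B ∈ G.I Fa w, (G.d w B : ℤ) = ((G.nb w).card : ℤ) := by
  have h1 := sum_split76 h (fun v => if v ∈ G.nb w then (1 : ℤ) else 0)
  have h2 : ∀ S : Finset V, ∑ v ∈ S, (if v ∈ G.nb w then (1 : ℤ) else 0) =
      ((G.nb w ∩ S).card : ℤ) := by
    intro S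
    rw [Finset.sum_ite_mem, Finset.sum_const, nsmul_eq_mul, mul_one, Finset.inter_comm]
  rw [h2, h2, Finset.inter_univ] at h1
  rw [h1]
  congr 1
  rw [Finset.sum_congr rfl (fun B _ => h2 B), I, Finset.sum_filter]
  apply Finset.sum_congr rfl
  intro B hB
  split_ifs with h3
  · rfl
  · have h4 := d_zero76 (G := G) (mem_R76.1 hw B hB) h3
    unfold d at h4
    rw [h4]
    rfl

/-- sum of `m` -/
theorem sum_m76 (h : G.Reg Fa) {w : V} :
    ∑ B ∈ G.I Fa w, ((G.nb w ∩ G.N B).card : ℤ) = ∑ x ∈ G.nR Fa w, (G.m Fa x w : ℤ) := by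
  have h1 : ∀ x ∈ G.nR Fa w, (G.m Fa x w : ℤ) =
      ∑ B ∈ G.I Fa w, if x ∈ G.N B then (1 : ℤ) else 0 := by
    intro x _
    rw [m]
    have h2 : G.I Fa x ∩ G.I Fa w = (G.I Fa w).filter fun B => x ∈ G.N B := by
      ext B
      simp only [mem_inter, mem_I76, mem_filter]
      constructor
      · rintro ⟨⟨_, a⟩, b⟩
        exact ⟨b, a⟩
      · rintro ⟨b, a⟩
        exact ⟨⟨b.1, a⟩, b⟩
    rw [h2, Finset.card_filter]
    push_cast
    rfl
  rw [Finset.sum_congr rfl h1, Finset.sum_comm]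
  apply Finset.sum_congr rfl
  intro B hB
  rw [← Finset.sum_filter, Finset.sum_const, nsmul_eq_mul, mul_one]
  congr 2
  ext x
  simp only [mem_inter, mem_filter, nR]
  constructor
  · rintro ⟨h2, h3⟩
    exact ⟨⟨h2, N_sub_R76 h (mem_I76.1 hB).1 h3⟩, h3⟩
  · rintro ⟨⟨h2, _⟩, h3⟩
    exact ⟨h2, h3⟩

theorem m_comm76 (x z : V) : G.m Fa x z = G.m Fa z x := by
  rw [m, m, Finset.inter_comm]

/-- exchange of the gifts -/
theorem swap76 : ∑ z ∈ R Fa, (if G.Low z then ∑ x ∈ G.nR Fa z, g (G.m Fa x z) else 0) =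
    ∑ z ∈ R Fa, ∑ x ∈ (G.nR Fa z).filter (fun v => G.Low v), g (G.m Fa x z) := by
  rw [← Finset.sum_filter]
  have h0 : ∀ z x, g (G.m Fa x z) = g (G.m Fa z x) := fun z x => by rw [m_comm76]
  rw [Finset.sum_congr rfl fun z _ => Finset.sum_congr rfl fun x _ => h0 z x]
  apply Finset.sum_comm'
  intro x y
  simp only [mem_filter, nR, mem_inter]
  constructor
  · rintro ⟨⟨h1, h2⟩, h3, h4⟩
    exact ⟨⟨⟨G.sym _ _ h3, h1⟩, h2⟩, h4⟩
  · rintro ⟨⟨⟨h1, h2⟩, h3⟩, h4⟩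
    exact ⟨⟨h2, h3⟩, G.sym _ _ h1, h4⟩

end CG

theorem CG.stIdent_76 (G : CG V) : G.StIdent := by
  intro Fa h
  have hc := sum_split76 h (fun _ => (1 : ℤ))
  have hl := sum_split76 h (fun v => if G.Low v then (1 : ℤ) else 0)
  have hcard : ∀ S : Finset V, ∑ v ∈ S, (1 : ℤ) = (S.card : ℤ) := fun S => by simp
  have hlow : ∀ S : Finset V, ∑ v ∈ S, (if G.Low v then (1 : ℤ) else 0) = (G.l S : ℤ) := by
    intro S
    rw [l, Finset.card_filter]
    push_cast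
    rfl
  rw [hcard, hcard, Finset.sum_congr rfl (fun B _ => hcard B), Finset.card_univ] at hc
  rw [hlow, hlow, Finset.sum_congr rfl (fun B _ => hlow B)] at hl
  -- the six neighbours of each member
  have h6 : ∑ B ∈ Fa, (6 : ℤ) = ∑ z ∈ R Fa, ((G.I Fa z).card : ℤ) := by
    have h1 : ∀ B ∈ Fa, (6 : ℤ) = ∑ v ∈ G.N B, (1 : ℤ) := by
      intro B hB
      rw [hcard, (h.frag B hB).2.1]
      rfl
    rw [Finset.sum_congr rfl h1, sum_N76 h (fun _ _ => (1 : ℤ))]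
    apply Finset.sum_congr rfl
    intro z _
    simp
  -- the low terms
  have hw : ∑ B ∈ Fa, ∑ w ∈ (G.N B).filter (fun v => G.Low v),
      (3 + (G.d w B : ℤ) - (G.d w (G.Co B) : ℤ)) =
      ∑ z ∈ R Fa, if G.Low z then ∑ B ∈ G.I Fa z,
        (2 * (G.d z B : ℤ) + ((G.nb z ∩ G.N B).card : ℤ) - 3) else 0 := by
    have h1 : ∀ B ∈ Fa, ∑ w ∈ (G.N B).filter (fun v => G.Low v),
        (3 + (G.d w B : ℤ) - (G.d w (G.Co B) : ℤ)) =
        ∑ w ∈ G.N B, if G.Low w then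
          (2 * (G.d w B : ℤ) + ((G.nb w ∩ G.N B).card : ℤ) - 3) else 0 := by
      intro B _
      rw [Finset.sum_filter]
      apply Finset.sum_congr rfl
      intro w _
      split_ifs with h2
      · have h3 := d_split76 (G := G) w B
        have h4 : (G.nb w).card = 6 := h2
        rw [h4] at h3
        omega
      · rfl
    rw [Finset.sum_congr rfl h1, sum_N76 h]
    apply Finset.sum_congr rfl
    intro z _
    split_ifs with h2
    · rfl
    · simp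
  -- one vertex
  have hz : ∀ z ∈ R Fa, (if G.Low z then ∑ B ∈ G.I Fa z,
      (2 * (G.d z B : ℤ) + ((G.nb z ∩ G.N B).card : ℤ) - 3) else 0) =
      (if G.Low z then 12 - 3 * ((G.I Fa z).card : ℤ) -
        ∑ x ∈ G.nR Fa z, (2 - (G.m Fa x z : ℤ)) else 0) := by
    intro z hzR
    split_ifs with h2
    · have h3 := nb_split76 h hzR
      have h4 := sum_m76 h (w := z)
      have h5 : (G.nb z).card = 6 := h2
      rw [h5] at h3
      rw [Finset.sum_sub_distrib, Finset.sum_add_distrib, ← Finset.mul_sum, h4,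
        Finset.sum_sub_distrib]
      simp only [Finset.sum_const, nsmul_eq_mul]
      push_cast at h3 ⊢
      linarith
    · rfl
  have hP : ∑ B ∈ Fa, G.P B = 6 * ∑ B ∈ Fa, (G.l B : ℤ) - 2 * ∑ B ∈ Fa, (B.card : ℤ) -
      ∑ B ∈ Fa, (6 : ℤ) + ∑ B ∈ Fa, ∑ w ∈ (G.N B).filter (fun v => G.Low v),
        (3 + (G.d w B : ℤ) - (G.d w (G.Co B) : ℤ)) := by
    rw [Finset.mul_sum, Finset.mul_sum, ← Finset.sum_sub_distrib, ← Finset.sum_sub_distrib,
      ← Finset.sum_add_distrib]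
    rfl
  rw [hP, h6, hw, Finset.sum_congr rfl hz, hc, hl]
  have hR : ∑ z ∈ R Fa, G.ch Fa z = ∑ z ∈ R Fa,
      ((((G.I Fa z).card : ℤ) - 2) * (if G.Low z then 4 else 1) +
        (if G.Low z then ∑ x ∈ G.nR Fa z, (2 - (G.m Fa x z : ℤ)) else 0)) := by
    have h1 : ∀ z ∈ R Fa, G.ch Fa z =
        ((((G.I Fa z).card : ℤ) - 2) * (if G.Low z then 4 else 1) +
        (if G.Low z then ∑ x ∈ G.nR Fa z, (2 - (G.m Fa x z : ℤ)) else 0)) -
        (if G.Low z then ∑ x ∈ G.nR Fa z, g (G.m Fa x z) else 0) +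
        ∑ x ∈ (G.nR Fa z).filter (fun v => G.Low v), g (G.m Fa x z) := by
      intro z _
      rw [ch]
      split_ifs with h2
      · rw [Finset.sum_sub_distrib]
        ring
      · ring
    rw [Finset.sum_congr rfl h1, Finset.sum_add_distrib, Finset.sum_sub_distrib, swap76]
    ring
  rw [hR]
  have hl' : (G.l (R Fa) : ℤ) = ∑ z ∈ R Fa, (if G.Low z then (1 : ℤ) else 0) := (hlow _).symm
  have hc' : ((R Fa).card : ℤ) = ∑ z ∈ R Fa, (1 : ℤ) := (hcard _).symm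
  have key : ∑ z ∈ R Fa, ((((G.I Fa z).card : ℤ) - 2) * (if G.Low z then 4 else 1) +
        (if G.Low z then ∑ x ∈ G.nR Fa z, (2 - (G.m Fa x z : ℤ)) else 0)) =
      6 * ∑ z ∈ R Fa, (if G.Low z then (1 : ℤ) else 0) - 2 * ∑ z ∈ R Fa, (1 : ℤ) +
      ∑ z ∈ R Fa, ((G.I Fa z).card : ℤ) - ∑ z ∈ R Fa, (if G.Low z then
        12 - 3 * ((G.I Fa z).card : ℤ) - ∑ x ∈ G.nR Fa z, (2 - (G.m Fa x z : ℤ)) else 0) := by
    rw [Finset.mul_sum, Finset.mul_sum, ← Finset.sum_sub_distrib, ← Finset.sum_add_distrib,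
      ← Finset.sum_sub_distrib]
    apply Finset.sum_congr rfl
    intro z _
    split_ifs with h2
    · ring
    · ring
  rw [key, hl', hc']
  ring

end Pool.Agent.Lib.MP_e95c01_co.N
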