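import Pool.Agent.Lib.MP_e95c01_co.N.Fam37

/-!
# M11: the main lemma and the theorem
-/

namespace Pool.Agent.Lib.MP_e95c01_co.N

open Finset

variable {V : Type} [Fintype V] [DecidableEq V]

namespace CG

theorem cov_of_scov37 {G : CG V} (h2 : G.NoTwo) {x y : V} (h : G.SCov x y) : G.Cov x y := by
  obtain ⟨E, hE, hc, hx, hy⟩ := h
  have h1 : 0 < E.card := hE.1.card_pos
  have h3 := h2 E hE
  have h4 : E.card = 1 := by omega
  obtain ⟨w, rfl⟩ := card_eq_one.1 h4
  have hN : G.N {w} = G.nb w := by
    ext v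
    rw [mem_N37, mem_singleton]
    constructor
    · rintro ⟨-, u, hu, hv⟩
      rw [mem_singleton] at hu
      rwa [hu] at hv
    · intro hv
      refine ⟨?_, w, mem_singleton_self _, hv⟩
      rintro rfl
      exact G.irr _ hv
  rw [hN] at hx hy
  have h5 := hE.2.1
  rw [hN] at h5
  exact ⟨w, h5, hx, hy⟩

theorem cov_symm37 {G : CG V} {x y : V} (h : G.Cov x y) : G.Cov y x := by
  obtain ⟨w, h1, h2, h3⟩ := h
  exact ⟨w, h1, h3, h2⟩

theorem N_subset37 {G : CG V} {A F : Finset V} (h : A ⊆ F) : G.N A ⊆ F ∪ G.N F := by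
  intro v hv
  obtain ⟨-, u, hu, hvu⟩ := mem_N37.1 hv
  by_cases hF : v ∈ F
  · exact mem_union_left _ hF
  · exact mem_union_right _ (mem_N37.2 ⟨hF, u, h hu, hvu⟩)

theorem stMain_37 (G : CG V) (h6 : G.StN6) (hco : G.StCo) (hps : G.StPsum) (hst : G.StStruct)
    (hfam : G.StFam) (hid : G.StIdent) (hd : G.StDisch) (hth : G.StThin) (hb : G.StBase)
    (h3 : G.StThree) : G.StMain := by
  classical
  intro hcr hn2 F
  induction hn : F.card using Nat.strong_induction_on generalizing F with
  | _ n ih =>
  intro hF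
  subst hn
  by_cases hc3 : F.card = 3
  · refine h3 hn2 F hF hc3 ?_
    intro z hz v hv hvF
    by_contra hcov
    rcases hst hcr F hF z hz v hv (fun h => hcov (cov_of_scov37 hn2 h)) with
      ⟨B, hB, hBF, -⟩ | ⟨-, h⟩
    · have h1 := card_lt_card hBF
      have h2 := hB.2.1
      omega
    · exact hvF h
  have h4 : 4 ≤ F.card := by
    have := hF.2.1
    omega
  obtain ⟨Fa, a1, a2, a3, a4, a5, a6⟩ := hfam hcr F hF h4
  by_cases hFa : Fa = ∅
  · refine hb F hF h4 ?_ ?_
    · intro z hz v hv
      by_contra hcov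
      obtain ⟨A, hA, -⟩ := a3 z hz (by simp [hFa]) v hv
        (fun h => hcov (cov_of_scov37 hn2 h))
      simp [hFa] at hA
    · intro Z hZ hZF hne
      have hcard : (G.N (F \ G.N Z)).card ≤ (G.N F \ Z).card + (G.N Z ∩ F).card :=
        (card_le_card (N_sub37 (G := G) hZF)).trans (card_union_le _ _)
      have h7 : (G.N F \ Z).card + Z.card = 6 := by
        rw [← hF.1.2.1]
        exact card_sdiff_add_card_eq_card hZF
      have h8 : 6 ≤ (G.N (F \ G.N Z)).card :=
        h6 _ hne (hF.1.2.2.mono (Co_anti37 sdiff_subset))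
      by_cases h9 : Z.card < (G.N Z ∩ F).card
      · exact Or.inl h9
      right
      refine ⟨by omega, ?_⟩
      have hfr : G.Frag (F \ G.N Z) := frag_of37 h6 hF sdiff_subset hne (by omega)
      have h10 := hn2 _ hfr
      have h11 : ¬ 3 ≤ (F \ G.N Z).card := by
        intro h
        refine a6 hFa _ (big_of37 h6 hF sdiff_subset h hfr.2.1.le) ⟨sdiff_subset, ?_⟩
        intro hsub
        obtain ⟨z, hz⟩ := hZ
        obtain ⟨u, hu, huz⟩ := nbr_in37 (hZF hz)
        have h1 := hsub hu
        rw [mem_sdiff] at h1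
        exact h1.2 (mem_N37.2 ⟨fun h => (mem_N37.1 (hZF h)).1 hu, z, hz, huz⟩)
      have h12 := hne.card_pos
      omega
  -- the family with the opposite side
  have hFane : Fa.Nonempty := nonempty_iff_ne_empty.2 hFa
  obtain ⟨hCf, hCN, hCC⟩ := hco F hF.1
  have hCoF : ∀ A ∈ Fa, Disjoint (G.Co F) A := by
    intro A hA
    rw [disjoint_left]
    intro v hv hvA
    exact (mem_Co37.1 hv).1 ((a1 A hA).2.1 hvA)
  have hCne : ∀ A ∈ Fa, G.Co F ≠ A := by
    intro A hA h
    obtain ⟨v, hv⟩ := (a1 A hA).1.1.1
    exact (disjoint_left.1 (hCoF A hA)) (by rw [h]; exact hv) hv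
  have hCnot : G.Co F ∉ Fa := fun h => hCne _ h rfl
  have hNCo : ∀ A ∈ Fa, Disjoint (G.N A) (G.Co F) := by
    intro A hA
    rw [disjoint_left]
    intro v hv hvC
    rcases mem_union.1 (N_subset37 (a1 A hA).2.1 hv) with h | h
    · exact (mem_Co37.1 hvC).1 h
    · exact (mem_Co37.1 hvC).2 h
  set Fb := insert (G.Co F) Fa with hFb
  have hreg : G.Reg Fb := by
    constructor
    · intro B hB
      rcases mem_insert.1 hB with rfl | hB
      · exact hCf
      · exact (a1 B hB).1.1
    · intro B hB B' hB' hne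
      rcases mem_insert.1 hB with h1 | h1
      · rcases mem_insert.1 hB' with h2 | h2
        · exact absurd (h1.trans h2.symm) hne
        · rw [h1, hCN]
          refine ⟨hCoF B' h2, ?_⟩
          rw [disjoint_left]
          intro v hv hvB
          exact (mem_N37.1 hv).1 ((a1 B' h2).2.1 hvB)
      · rcases mem_insert.1 hB' with h2 | h2
        · rw [h2]
          exact ⟨(hCoF B h1).symm, hNCo B h1⟩
        · exact a2 B h1 B' h2 hne
  have hR : ∀ z, z ∈ R Fb ↔ z ∉ G.Co F ∧ ∀ A ∈ Fa, z ∉ A := by
    intro z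
    rw [R, mem_compl, mem_biUnion]
    constructor
    · intro h
      refine ⟨fun h1 => h ⟨G.Co F, mem_insert_self _ _, h1⟩, fun A hA h1 => ?_⟩
      exact h ⟨A, mem_insert_of_mem hA, h1⟩
    · rintro ⟨h1, h2⟩ ⟨A, hA, h3⟩
      rcases mem_insert.1 hA with rfl | hA
      · exact h1 h3
      · exact h2 A hA h3
  have hIC : ∀ z, G.Co F ∈ G.I Fb z ↔ z ∈ G.N F := by
    intro z
    rw [I, mem_filter, hCN]
    simp [hFb]
  have hIA : ∀ z, ∀ A ∈ Fa, (A ∈ G.I Fb z ↔ z ∈ G.N A) := by
    intro z A hA
    rw [I, mem_filter]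
    simp [hFb, hA]
  have hinF : ∀ z ∈ R Fb, G.Co F ∉ G.I Fb z → z ∈ F := by
    intro z hz h
    rw [hIC] at h
    by_contra hzF
    exact ((hR z).1 hz).1 (mem_Co37.2 ⟨hzF, h⟩)
  have hcov : G.CovR Fb := by
    constructor
    · intro z hz hI x hx
      by_contra hc
      have hzF : z ∈ F := hinF z hz (by rw [hI]; exact notMem_empty _)
      obtain ⟨A, hA, h1, -⟩ := a3 z hzF ((hR z).1 hz).2 x hx
        (fun h => hc (cov_of_scov37 hn2 h))
      have := (hIA z A hA).2 h1
      rw [hI] at this
      exact notMem_empty _ this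
    · intro z hz B hI x hx
      by_contra hc
      obtain ⟨hxz, hxB⟩ := mem_inter.1 hx
      have hBI : B ∈ G.I Fb z := by rw [hI]; exact mem_singleton_self _
      have hBF : B ∈ Fb := (mem_filter.1 hBI).1
      rcases mem_insert.1 hBF with h1 | h1
      · rw [h1, hCC] at hxB
        rw [h1] at hI
        have hxA : ∀ A ∈ Fa, x ∉ A := by
          intro A hA hxA
          have h2 : z ∈ G.N A := mem_N37.2 ⟨((hR z).1 hz).2 A hA, x, hxA, G.sym _ _ hxz⟩
          have h3 := (hIA z A hA).2 h2
          rw [hI, mem_singleton] at h3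
          exact hCne A hA h3.symm
        obtain ⟨A, hA, h2, h3⟩ := a3 x hxB hxA z (G.sym _ _ hxz)
          (fun h => hc (cov_symm37 (cov_of_scov37 hn2 h)))
        rcases h3 with h3 | h3
        · exact ((hR z).1 hz).2 A hA h3
        · have h5 := (hIA z A hA).2 h3
          rw [hI, mem_singleton] at h5
          exact hCne A hA h5.symm
      · have hzF : z ∈ F := by
          apply hinF z hz
          rw [hI, mem_singleton]
          exact hCne B h1
        obtain ⟨A, hA, h2, h3⟩ := a3 z hzF ((hR z).1 hz).2 x hxz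
          (fun h => hc (cov_of_scov37 hn2 h))
        have h5 := (hIA z A hA).2 h2
        rw [hI, mem_singleton] at h5
        rw [h5] at h3
        rcases h3 with h3 | h3
        · exact (mem_Co37.1 hxB).1 h3
        · exact (mem_Co37.1 hxB).2 h3
  have hsum : 0 ≤ ∑ z ∈ R Fb, G.ch Fb z := by
    by_cases hex : ∀ B ∈ Fb, ∀ Z : Finset V, Z.Nonempty → Z ⊆ G.K Fb B →
        Z.card < (G.N Z ∩ G.Co B).card
    · exact hd Fb hreg hcov hex
    push Not at hex
    obtain ⟨B, hB, Z, hZ, hZK, hZc⟩ := hex
    have hK : ∀ z ∈ Z, z ∈ R Fb ∧ G.I Fb z = {B} := fun z hz => by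
      have := hZK hz
      rw [K, mem_filter] at this
      exact this
    -- the exception
    have key : ∃ B1, Fa = {B1} ∧ F \ B1 = G.N B1 ∩ F := by
      rcases mem_insert.1 hB with h1 | h1
      · rw [h1, hCC] at hZc
        have hZF : Z ⊆ G.N F := by
          intro z hz
          rw [← hIC z, (hK z hz).2, h1]
          exact mem_singleton_self _
        have hZA : ∀ z ∈ Z, ∀ A ∈ Fa, z ∉ G.N A := by
          intro z hz A hA h
          have h2 := (hIA z A hA).2 h
          rw [(hK z hz).2, h1, mem_singleton] at h2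
          exact hCne A hA h2.symm
        rcases a5 hFane Z hZ hZF hZA with h2 | ⟨B1, hB1, h2, h3⟩
        · omega
        refine ⟨B1, hB1, ?_⟩
        have hB1m : B1 ∈ Fa := by rw [hB1]; exact mem_singleton_self _
        symm
        apply eq_of_subset_of_card_le
        · intro v hv
          rw [mem_inter] at hv
          exact mem_sdiff.2 ⟨hv.2, (mem_N37.1 hv.1).1⟩
        · rw [h3]
          have h4 : Z ⊆ G.N F \ G.N B1 := fun z hz =>
            mem_sdiff.2 ⟨hZF hz, hZA z hz B1 hB1m⟩
          have h5 := card_le_card h4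
          have h7 : (G.N F \ G.N B1).card + (G.N F ∩ G.N B1).card = 6 := by
            rw [← hF.1.2.1]
            exact card_sdiff_add_card_inter _ _
          have h8 : (G.N B1 ∩ F).card + (G.N F ∩ G.N B1).card = 6 := by
            rw [← (a1 B1 hB1m).1.1.2.1, ← card_union_of_disjoint]
            · congr 1
              ext v
              rw [mem_union, mem_inter, mem_inter]
              constructor
              · rintro (h | h)
                · exact h.1
                · exact h.2
              · intro h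
                rcases mem_union.1 (N_subset37 (a1 B1 hB1m).2.1 h) with h9 | h9
                · exact Or.inl ⟨h, h9⟩
                · exact Or.inr ⟨h9, h⟩
            · rw [disjoint_left]
              intro v hv hv'
              rw [mem_inter] at hv hv'
              exact (mem_N37.1 hv'.1).1 hv.2
          omega
      · have hzF : Z ⊆ F := by
          intro z hz
          apply hinF z (hK z hz).1
          rw [(hK z hz).2, mem_singleton]
          exact hCne B h1
        have hzB : Z ⊆ G.N B := by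
          intro z hz
          rw [← hIA z B h1, (hK z hz).2]
          exact mem_singleton_self _
        have hzA : ∀ z ∈ Z, ∀ A ∈ Fa, A ≠ B → z ∉ G.N A := by
          intro z hz A hA hAB h
          have h2 := (hIA z A hA).2 h
          rw [(hK z hz).2, mem_singleton] at h2
          exact hAB h2
        rcases a4 B h1 Z hZ hzF hzB hzA with h2 | ⟨h2, h3⟩
        · omega
        refine ⟨B, h2, ?_⟩
        ext v
        rw [mem_inter, ← h3]
        constructor
        · intro h
          exact ⟨hzB h, hzF h⟩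
        · rintro ⟨h5, h7⟩
          rw [h3, mem_sdiff]
          exact ⟨h7, (mem_N37.1 h5).1⟩
    obtain ⟨B1, hB1, hthin⟩ := key
    have hB1m : B1 ∈ Fa := by rw [hB1]; exact mem_singleton_self _
    have hFb2 : Fb = {G.Co F, B1} := by rw [hFb, hB1]
    have h7 : (G.N F \ G.N B1).card + (G.N F ∩ G.N B1).card = 6 := by
      rw [← hF.1.2.1]
      exact card_sdiff_add_card_inter _ _
    have h8 : (G.N B1 ∩ F).card + (G.N F ∩ G.N B1).card = 6 := by
      rw [← (a1 B1 hB1m).1.1.2.1, ← card_union_of_disjoint]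
      · congr 1
        ext v
        rw [mem_union, mem_inter, mem_inter]
        constructor
        · rintro (h | h)
          · exact h.1
          · exact h.2
        · intro h
          rcases mem_union.1 (N_subset37 (a1 B1 hB1m).2.1 h) with h9 | h9
          · exact Or.inl ⟨h, h9⟩
          · exact Or.inr ⟨h9, h⟩
      · rw [disjoint_left]
        intro v hv hv'
        rw [mem_inter] at hv hv'
        exact (mem_N37.1 hv'.1).1 hv.2
    have hNB : G.N B1 \ G.N F = G.N B1 ∩ F := by
      ext v
      rw [mem_sdiff, mem_inter]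
      constructor
      · rintro ⟨h, h'⟩
        refine ⟨h, ?_⟩
        rcases mem_union.1 (N_subset37 (a1 B1 hB1m).2.1 h) with h9 | h9
        · exact h9
        · exact absurd h9 h'
      · rintro ⟨h, h'⟩
        exact ⟨h, fun h9 => (mem_N37.1 h9).1 h'⟩
    rw [hFb2] at hreg hcov ⊢
    refine hth (G.Co F) B1 (hCne B1 hB1m) hreg hcov ?_ ?_ ?_
    · intro z hz
      rw [← hFb2, hR] at hz
      rw [hCN, mem_union]
      by_cases hzF : z ∈ F
      · right
        have : z ∈ F \ B1 := mem_sdiff.2 ⟨hzF, hz.2 B1 hB1m⟩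
        rw [hthin] at this
        exact (mem_inter.1 this).1
      · left
        by_contra h
        exact hz.1 (mem_Co37.2 ⟨hzF, h⟩)
    · intro Y hY hYs
      rw [hCN] at hYs ⊢
      rw [hNB]
      have hYF : Y ⊆ G.N F := hYs.1.trans sdiff_subset
      have hYA : ∀ z ∈ Y, ∀ A ∈ Fa, z ∉ G.N A := by
        intro z hz A hA
        rw [hB1, mem_singleton] at hA
        rw [hA]
        exact (mem_sdiff.1 (hYs.1 hz)).2
      have he : G.N Y ∩ F = G.N Y ∩ (G.N B1 ∩ F) := by
        ext v
        rw [mem_inter, mem_inter]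
        constructor
        · rintro ⟨h, h'⟩
          refine ⟨h, ?_⟩
          rw [← hthin, mem_sdiff]
          refine ⟨h', fun hv => ?_⟩
          obtain ⟨-, u, hu, hvu⟩ := mem_N37.1 h
          refine hYA u hu B1 hB1m (mem_N37.2 ⟨fun h9 => ?_, v, hv, G.sym _ _ hvu⟩)
          exact (mem_N37.1 (hYF hu)).1 ((a1 B1 hB1m).2.1 h9)
        · rintro ⟨h, h'⟩
          exact ⟨h, (mem_inter.1 h').2⟩
      rcases a5 hFane Y hY hYF hYA with h | ⟨B2, hB2, h, h'⟩
      · rwa [he] at h
      · exfalso
        have hB12 : B2 = B1 := by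
          have : B1 ∈ ({B2} : Finset (Finset V)) := by rw [← hB2]; exact hB1m
          exact (mem_singleton.1 this).symm
        rw [hB12, hthin] at h'
        have := card_lt_card hYs
        omega
    · intro Y hY hYs
      rw [hCN] at hYs ⊢
      rw [hNB] at hYs
      have he : G.N Y ∩ G.Co B1 = G.N Y ∩ (G.N F \ G.N B1) := by
        ext v
        rw [mem_inter, mem_inter, mem_sdiff, mem_Co37]
        constructor
        · rintro ⟨h, h1, h2⟩
          refine ⟨h, ?_, h2⟩
          obtain ⟨-, u, hu, hvu⟩ := mem_N37.1 h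
          have huF : u ∈ F := (mem_inter.1 (hYs.1 hu)).2
          by_cases hvF : v ∈ F
          · exfalso
            have : v ∈ F \ B1 := mem_sdiff.2 ⟨hvF, h1⟩
            rw [hthin] at this
            exact h2 (mem_inter.1 this).1
          · exact mem_N37.2 ⟨hvF, u, huF, hvu⟩
        · rintro ⟨h, h1, h2⟩
          exact ⟨h, fun h9 => (mem_N37.1 h1).1 ((a1 B1 hB1m).2.1 h9), h2⟩
      rcases a4 B1 hB1m Y hY (hYs.1.trans inter_subset_right) (hYs.1.trans inter_subset_left)
        (by
          intro z hz A hA hAB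
          rw [hB1, mem_singleton] at hA
          exact absurd hA hAB) with h | ⟨-, h⟩
      · rwa [he] at h
      · exfalso
        rw [hthin] at h
        exact hYs.2 h.symm.subset
  have hid' := hid Fb hreg
  rw [hFb, sum_insert hCnot, ← hFb] at hid'
  have hps' := hps F hF.1
  have hnn : 0 ≤ ∑ A ∈ Fa, G.P A := by
    apply sum_nonneg
    intro A hA
    exact ih A.card (card_lt_card (a1 A hA).2) A rfl (a1 A hA).1
  linarith

theorem stN2_37 (G : CG V) (hco : G.StCo) (hps : G.StPsum) (hid : G.StIdent)
    (hch : G.StCharge) (hm : G.StMain) : G.StN2 := by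
  intro hcr hn2
  by_cases hex : ∃ F, G.Big F
  · obtain ⟨F, hF⟩ := hex
    obtain ⟨hCf, hCN, hCC⟩ := hco F hF.1
    have hC : G.Big (G.Co F) := ⟨hCf, hF.2.2, by rw [hCC]; exact hF.2.1⟩
    have h1 := hm hcr hn2 F hF
    have h2 := hm hcr hn2 _ hC
    have h3 := hps F hF.1
    omega
  · have hcov : ∀ x y, y ∈ G.nb x → G.Cov x y := by
      intro x y hxy
      apply cov_of_scov37 hn2
      obtain ⟨E, hE, hx, hy⟩ := hcr x y hxy
      by_cases h1 : E.card ≤ 2
      · exact ⟨E, hE, h1, hx, hy⟩
      · obtain ⟨hCf, hCN, hCC⟩ := hco E hE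
        refine ⟨G.Co E, hCf, ?_, by rw [hCN]; exact hx, by rw [hCN]; exact hy⟩
        by_contra h2
        exact hex ⟨E, hE, by omega, by omega⟩
    have hreg : G.Reg ∅ := ⟨by simp, by simp⟩
    have hcr' : G.CovR ∅ := by
      constructor
      · intro z _ _ x hx
        exact hcov z x hx
      · intro z _ B _ x hx
        exact hcov z x (mem_inter.1 hx).1
    have h1 := hid ∅ hreg
    have h2 : 0 ≤ ∑ z ∈ R (∅ : Finset (Finset V)), G.ch ∅ z := by
      apply sum_nonneg
      intro z hz
      have h3 := (hch ∅ hreg hcr' z hz).1 (by simp [I])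
      rw [h3.1]
      have := h3.2
      omega
    rw [sum_empty] at h1
    omega

end CG

end Pool.Agent.Lib.MP_e95c01_co.N
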