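import Pool.Agent.Lib.MP_e95c01_co.N.Defs37

/-!
# M7: discharging with expansion
-/

namespace Pool.Agent.Lib.MP_e95c01_co.N

open Finset

variable {V : Type} [Fintype V] [DecidableEq V] (G : CG V)

namespace CG

theorem stDisch_53 (hpay : G.StPay) : G.StDisch := by
  classical
  intro Fa hR hC hexp
  obtain ⟨h1, h2, h3, h4⟩ := hpay Fa hR hC
  rw [h1]
  refine sum_nonneg fun z hz => ?_
  by_cases hlow : G.Low z
  · refine h3 z hz hlow fun B hB => ?_
    have hQ := h4 z hz B hB hlow
    have hzQ : z ∉ G.Q Fa z := by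
      intro h
      rw [Q, mem_filter, nR, mem_inter] at h
      exact G.irr z h.1.1
    have hBF : B ∈ Fa := by
      have : B ∈ G.I Fa z := by rw [hB]; exact mem_singleton_self B
      rw [I, mem_filter] at this
      exact this.1
    have hsub : insert z (G.Q Fa z) ⊆ G.K Fa B := by
      intro x hx
      rw [mem_insert] at hx
      rw [K, mem_filter]
      rcases hx with rfl | hx
      · exact ⟨hz, hB⟩
      · refine ⟨?_, (hQ x hx).1⟩
        rw [Q, mem_filter, nR, mem_inter] at hx
        exact hx.1.2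
    have h5 := hexp B hBF (insert z (G.Q Fa z)) (insert_nonempty _ _) hsub
    rw [card_insert_of_notMem hzQ] at h5
    have h6 : G.N (insert z (G.Q Fa z)) ∩ G.Co B ⊆ G.nb z ∩ G.Co B := by
      intro x hx
      rw [mem_inter] at hx
      obtain ⟨hx1, hx2⟩ := hx
      rw [N, mem_sdiff, mem_biUnion] at hx1
      obtain ⟨⟨u, hu, hxu⟩, -⟩ := hx1
      rw [mem_insert] at hu
      rcases hu with rfl | hu
      · exact mem_inter.2 ⟨hxu, hx2⟩
      · exact (hQ u hu).2 (mem_inter.2 ⟨hxu, hx2⟩)
    have h7 := card_le_card h6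
    rw [d]
    omega
  · exact (h2 z hz hlow).2

end CG

end Pool.Agent.Lib.MP_e95c01_co.N
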