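import Pool.Agent.Lib.MP_e95c01_co.N.Defs37

/-!
# M1: neighbourhoods, submodularity, the opposite side
-/

namespace Pool.Agent.Lib.MP_e95c01_co.N

open Finset

variable {V : Type} [Fintype V] [DecidableEq V] (G : CG V)

namespace CG

namespace Easy53

theorem mem_N {S : Finset V} {x : V} : x ∈ G.N S ↔ (∃ u ∈ S, x ∈ G.nb u) ∧ x ∉ S := by
  simp [N]

theorem mem_Co {S : Finset V} {x : V} : x ∈ G.Co S ↔ x ∉ S ∧ x ∉ G.N S := by
  simp [Co]

theorem nb_mem {S : Finset V} {u x : V} (hu : u ∈ S) (hx : x ∈ G.nb u) : x ∈ S ∨ x ∈ G.N S := by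
  by_cases h : x ∈ S
  · exact Or.inl h
  · exact Or.inr ((mem_N G).2 ⟨⟨u, hu, hx⟩, h⟩)

theorem Co_anti {A F : Finset V} (h : A ⊆ F) : G.Co F ⊆ G.Co A := by
  intro x hx
  rw [mem_Co] at hx ⊢
  refine ⟨fun h1 => hx.1 (h h1), fun h1 => ?_⟩
  obtain ⟨⟨u, hu, hxu⟩, -⟩ := (mem_N G).1 h1
  rcases nb_mem G (h hu) hxu with h2 | h2
  · exact hx.1 h2
  · exact hx.2 h2

end Easy53

open Easy53

theorem stN6_53 : G.StN6 := by
  intro S hS hC
  obtain ⟨v, hv⟩ := hC
  rw [mem_Co] at hv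
  refine G.conn S (G.N S) hS ?_ ?_ ⟨v, ?_⟩
  · rw [disjoint_left]
    intro x h1 h2
    exact ((mem_N G).1 h2).2 h1
  · intro u hu x hx
    rw [mem_union]
    exact nb_mem G hu hx
  · rw [mem_union, not_or]
    exact hv

theorem stSubmod_53 : G.StSubmod := by
  intro A B
  have h1 : G.N (A ∩ B) ∪ G.N (A ∪ B) ⊆ G.N A ∪ G.N B := by
    intro x hx
    rw [mem_union] at hx ⊢
    simp only [mem_N, mem_inter, mem_union] at hx ⊢
    rcases hx with ⟨⟨u, hu, hxu⟩, hn⟩ | ⟨⟨u, hu, hxu⟩, hn⟩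
    · by_cases hA : x ∈ A
      · right
        exact ⟨⟨u, hu.2, hxu⟩, fun hB => hn ⟨hA, hB⟩⟩
      · left
        exact ⟨⟨u, hu.1, hxu⟩, hA⟩
    · rw [not_or] at hn
      rcases hu with hu | hu
      · left
        exact ⟨⟨u, hu, hxu⟩, hn.1⟩
      · right
        exact ⟨⟨u, hu, hxu⟩, hn.2⟩
  have h2 : G.N (A ∩ B) ∩ G.N (A ∪ B) ⊆ G.N A ∩ G.N B := by
    intro x hx
    rw [mem_inter] at hx ⊢
    simp only [mem_N, mem_inter, mem_union] at hx ⊢
    obtain ⟨⟨⟨u, hu, hxu⟩, -⟩, -, hn⟩ := hx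
    rw [not_or] at hn
    exact ⟨⟨⟨u, hu.1, hxu⟩, hn.1⟩, ⟨u, hu.2, hxu⟩, hn.2⟩
  have h3 := card_union_add_card_inter (G.N (A ∩ B)) (G.N (A ∪ B))
  have h4 := card_union_add_card_inter (G.N A) (G.N B)
  have h5 := card_le_card h1
  have h6 := card_le_card h2
  omega

theorem stCo_53 : G.StCo := by
  intro F hF
  have hsub : G.N (G.Co F) ⊆ G.N F := by
    intro x hx
    obtain ⟨⟨u, hu, hxu⟩, hn⟩ := (mem_N G).1 hx
    by_contra h
    apply hn
    rw [mem_Co]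
    refine ⟨fun h1 => ?_, h⟩
    rw [mem_Co] at hu
    rcases nb_mem G h1 (G.sym _ _ hxu) with h2 | h2
    · exact hu.1 h2
    · exact hu.2 h2
  have hFC : F ⊆ G.Co (G.Co F) := by
    intro x hx
    rw [mem_Co]
    refine ⟨fun h => ((mem_Co G).1 h).1 hx, fun h => ?_⟩
    exact ((mem_N G).1 (hsub h)).2 hx
  have h6 := G.stN6_53 (G.Co F) hF.2.2 (hF.1.mono hFC)
  have heq : G.N (G.Co F) = G.N F := eq_of_subset_of_card_le hsub (by rw [hF.2.1]; exact h6)
  refine ⟨⟨hF.2.2, by rw [heq]; exact hF.2.1, hF.1.mono hFC⟩, heq, ?_⟩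
  apply Subset.antisymm _ hFC
  intro x hx
  rw [mem_Co, heq] at hx
  by_contra h
  exact hx.1 ((mem_Co G).2 ⟨h, hx.2⟩)

theorem stUnion_53 : G.StUnion := by
  intro F A B hF hA hB hAF hBF hne
  have h1 : (G.Co (A ∪ B)).Nonempty := hF.2.2.mono (Co_anti G (union_subset hAF hBF))
  have h2 : (G.Co (A ∩ B)).Nonempty :=
    hF.2.2.mono (Co_anti G (inter_subset_left.trans hAF))
  have h3 : (A ∪ B).Nonempty := hne.mono (inter_subset_left.trans subset_union_left)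
  have h4 := G.stN6_53 _ h3 h1
  have h5 := G.stN6_53 _ hne h2
  have h6 := G.stSubmod_53 A B
  have h7 := hA.2.1
  have h8 := hB.2.1
  exact ⟨⟨h3, by omega, h1⟩, ⟨hne, by omega, h2⟩⟩

theorem stPsum_53 : G.StPsum := by
  intro F hF
  obtain ⟨hF', hN, hC⟩ := G.stCo_53 F hF
  have hpart : (univ : Finset V) = F ∪ G.N F ∪ G.Co F := by
    ext x
    simp only [mem_univ, mem_union, true_iff, mem_Co]
    tauto
  have d1 : Disjoint F (G.N F) := by
    rw [disjoint_left]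
    intro x h1 h2
    exact ((mem_N G).1 h2).2 h1
  have d2 : Disjoint (F ∪ G.N F) (G.Co F) := by
    rw [disjoint_left]
    intro x h1 h2
    rw [mem_Co] at h2
    rw [mem_union] at h1
    tauto
  have c1 : Fintype.card V = F.card + (G.N F).card + (G.Co F).card := by
    rw [← card_univ, hpart, card_union_of_disjoint d2, card_union_of_disjoint d1]
  have c2 : G.l univ = G.l F + G.l (G.N F) + G.l (G.Co F) := by
    rw [hpart]
    simp only [l, filter_union]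
    rw [card_union_of_disjoint, card_union_of_disjoint]
    · exact disjoint_filter_filter d1
    · rw [← filter_union]
      exact disjoint_filter_filter d2
  have hl : ((G.N F).filter (fun v => G.Low v)).card = G.l (G.N F) := rfl
  have s1 : ∑ w ∈ (G.N F).filter (fun v => G.Low v), (3 + (G.d w F : ℤ) - (G.d w (G.Co F) : ℤ)) +
      ∑ w ∈ (G.N F).filter (fun v => G.Low v), (3 + (G.d w (G.Co F) : ℤ) - (G.d w F : ℤ)) =
      6 * (G.l (G.N F) : ℤ) := by
    rw [← sum_add_distrib, ← hl]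
    rw [sum_congr rfl (fun w _ => show (3 + (G.d w F : ℤ) - (G.d w (G.Co F) : ℤ)) +
      (3 + (G.d w (G.Co F) : ℤ) - (G.d w F : ℤ)) = 6 by ring)]
    rw [sum_const, nsmul_eq_mul]
    ring
  have h6 := hF.2.1
  simp only [P, hN, hC]
  rw [c2, c1, h6]
  push_cast
  linarith

end CG

end Pool.Agent.Lib.MP_e95c01_co.N
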